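import Pool.Agent.T4h70.LB.Mb

/-!
# The mixed terms for pairs of characters, uniformly in the vertical shift
-/

set_option autoImplicit false
set_option maxHeartbeats 4000000

open Complex Filter Topology Set MeasureTheory

namespace Pool.Agent.T4h70.LB

open H385
open Pool.Agent.R321.RC (cf cf_norm PS w2 w2_nonneg avg2 avg2_swap sum_w2 WW_eq)
open Pool.Agent.T4h70.LI (ph ph_norm ph_zero)

/-- the truncated prime sum with additional factors -/
noncomputable def Sf (N : ℕ) (p : IX) (c : ℕ → ℂ) (T u t : ℝ) : ℂ :=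
  ∑ n ∈ Finset.Icc 1 N, (cf p n * (Real.sqrt n : ℂ)⁻¹ * c n) * bt T u t (Real.log n)

lemma bt_sq (T u ℓ : ℝ) (hT : 0 ≤ T) : Integrable (fun t => ‖bt T u t ℓ‖ ^ 2) ∧
    ∫ t, ‖bt T u t ℓ‖ ^ 2 ≤ 4 * Real.pi * T * Real.exp (-(u - ℓ) ^ 2 / 2) := by
  obtain ⟨C, hC, hw⟩ := wt_sq_int
  have hi : Integrable (fun t => ‖bt T u t ℓ‖ ^ 2) := by
    refine Integrable.mono' ((hw T hT).1.const_mul
      ((1 / Real.sqrt (2 * Real.pi) * Real.exp (-(u - ℓ) ^ 2 / 4)) ^ 2))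
      ((fa_bt_cont T u ℓ).norm.pow 2).aestronglyMeasurable
      (Filter.Eventually.of_forall fun t => ?_)
    rw [Real.norm_of_nonneg (sq_nonneg _), ← mul_pow]
    exact pow_le_pow_left₀ (norm_nonneg _) (bt_norm T u t ℓ hT) 2
  refine ⟨hi, ?_⟩
  have h := Gm_triv T u ℓ ℓ hT
  have e1 : Gm T u ℓ ℓ = ((∫ t, ‖bt T u t ℓ‖ ^ 2 : ℝ) : ℂ) := by
    unfold Gm
    rw [← integral_complex_ofReal]
    congr 1
    funext t
    show _ * (starRingEnd ℂ) _ = _
    rw [Complex.mul_conj, Complex.normSq_eq_norm_sq]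
  rw [e1, Complex.norm_real, Real.norm_of_nonneg (integral_nonneg fun t => sq_nonneg _),
    ← Real.exp_add] at h
  refine h.trans (le_of_eq ?_)
  congr 2
  ring

/-- the large sieve for the prime sums -/
theorem ls_cf : ∃ C : ℝ, 1 ≤ C ∧ ∀ (X Y N : ℕ) (y : ℕ → ℂ), 1 ≤ X → X ≤ Y →
    (N : ℝ) ≤ (X : ℝ) ^ 2 →
    ∑ p ∈ primSet X Y, (1 / (p.1 : ℝ) ^ 2) *
      ‖∑ n ∈ Finset.Icc 1 N, (cf p n * (Real.sqrt n : ℂ)⁻¹) * y n‖ ^ 2 ≤
    C * (Real.log ((Y : ℝ) / X) + 1) * ∑ n ∈ Finset.Icc 1 N, wn n * ‖y n‖ ^ 2 := by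
  obtain ⟨C, hC, h⟩ := ls_main
  refine ⟨C, hC, fun X Y N y hX hXY hN => ?_⟩
  have h1 := h X Y N (fun n => (ArithmeticFunction.vonMangoldt n : ℂ) * (Real.sqrt n : ℂ)⁻¹ * y n)
    hX hXY hN
  have e1 : ∀ p : IX, ∑ n ∈ Finset.Icc 1 N, (cf p n * (Real.sqrt n : ℂ)⁻¹) * y n =
      ∑ n ∈ Finset.Icc 1 N, ((ArithmeticFunction.vonMangoldt n : ℂ) * (Real.sqrt n : ℂ)⁻¹ * y n) *
        p.2 (n : ZMod p.1) := by
    intro p
    refine Finset.sum_congr rfl fun n _ => ?_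
    unfold cf
    ring
  have e2 : ∀ n ∈ Finset.Icc 1 N, ‖(ArithmeticFunction.vonMangoldt n : ℂ) *
      (Real.sqrt n : ℂ)⁻¹ * y n‖ ^ 2 = wn n * ‖y n‖ ^ 2 := by
    intro n hn
    have hn0 : (0 : ℝ) < n := by exact_mod_cast (Finset.mem_Icc.1 hn).1
    rw [norm_mul, norm_mul, norm_inv, Complex.norm_real, Complex.norm_real,
      Real.norm_of_nonneg ArithmeticFunction.vonMangoldt_nonneg,
      Real.norm_of_nonneg (Real.sqrt_nonneg _), mul_pow, mul_pow, inv_pow,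
      Real.sq_sqrt hn0.le]
    unfold wn
    rw [div_eq_mul_inv]
  rw [Finset.sum_congr rfl e2] at h1
  refine le_trans (le_of_eq ?_) h1
  refine Finset.sum_congr rfl fun p _ => ?_
  rw [e1 p]

lemma Sf_comb (N : ℕ) (p : IX) (c : ℕ → ℂ) (T u : ℝ) (hT : 0 ≤ T) :
    Continuous (fun t => Sf N p c T u t) ∧ Integrable (fun t => ‖Sf N p c T u t‖ ^ 2) := by
  obtain ⟨a1, a2, -⟩ := comb_int (Finset.Icc 1 N) (fun n => cf p n * (Real.sqrt n : ℂ)⁻¹ * c n)
    (fun n t => bt T u t (Real.log n)) (fun n => fa_bt_cont T u _) (fun n => (bt_sq T u _ hT).1)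
  exact ⟨a1, a2⟩

lemma LW_pos {X Y : ℕ} (hX : 1 ≤ X) (hXY : X ≤ Y) : 0 < Real.log ((Y : ℝ) / X) + 1 := by
  have hX0 : (0 : ℝ) < X := by exact_mod_cast hX
  have : 0 ≤ Real.log ((Y : ℝ) / X) := by
    apply Real.log_nonneg
    rw [le_div_iff₀ hX0, one_mul]
    exact_mod_cast hXY
  linarith

/-- the mean square of the truncated prime sums -/
theorem Sf_ms : ∃ C : ℝ, 1 ≤ C ∧ ∀ (X Y N : ℕ) (c : ℕ → ℂ) (T u : ℝ), 1 ≤ X → X ≤ Y →
    (N : ℝ) ≤ (X : ℝ) ^ 2 → 0 ≤ T → 0 ≤ u →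
    (∀ n ∈ Finset.Icc 1 N, ‖c n‖ ^ 2 ≤ 1 + (u - Real.log n) ^ 2) →
    ∑ p ∈ primSet X Y, (1 / (p.1 : ℝ) ^ 2) * ∫ t, ‖Sf N p c T u t‖ ^ 2 ≤
      C * (Real.log ((Y : ℝ) / X) + 1) * (T * (u + 1)) := by
  obtain ⟨C1, hC1, h1⟩ := ls_cf
  obtain ⟨C2, hC2, h2⟩ := lam_wide
  refine ⟨C1 * (16 * Real.pi * C2 + 1), ?_, fun X Y N c T u hX hXY hN hT hu hc => ?_⟩
  · have : 0 ≤ 16 * Real.pi * C2 := by positivity
    exact one_le_mul_of_one_le_of_one_le hC1 (by linarith)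
  have hpi := Real.pi_pos
  have hLW := LW_pos hX hXY
  have hi : ∀ p : IX, Integrable (fun t => ‖Sf N p c T u t‖ ^ 2) := fun p =>
    (Sf_comb N p c T u hT).2
  have e1 : ∑ p ∈ primSet X Y, (1 / (p.1 : ℝ) ^ 2) * ∫ t, ‖Sf N p c T u t‖ ^ 2 =
      ∫ t, ∑ p ∈ primSet X Y, (1 / (p.1 : ℝ) ^ 2) * ‖Sf N p c T u t‖ ^ 2 := by
    rw [integral_finsetSum _ fun p _ => (hi p).const_mul _]
    refine Finset.sum_congr rfl fun p _ => ?_
    rw [integral_const_mul]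
  have hb : ∀ n : ℕ, Integrable (fun t => ‖bt T u t (Real.log n)‖ ^ 2) := fun n =>
    (bt_sq T u _ hT).1
  have h3 : ∫ t, ∑ p ∈ primSet X Y, (1 / (p.1 : ℝ) ^ 2) * ‖Sf N p c T u t‖ ^ 2 ≤
      ∫ t, C1 * (Real.log ((Y : ℝ) / X) + 1) * ∑ n ∈ Finset.Icc 1 N,
        wn n * ‖c n‖ ^ 2 * ‖bt T u t (Real.log n)‖ ^ 2 := by
    refine integral_mono (integrable_finsetSum _ fun p _ => (hi p).const_mul _)
      ((integrable_finsetSum _ fun n _ => (hb n).const_mul _).const_mul _) fun t => ?_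
    simp only
    have h4 := h1 X Y N (fun n => c n * bt T u t (Real.log n)) hX hXY hN
    have e2 : ∀ p : IX, ∑ n ∈ Finset.Icc 1 N, (cf p n * (Real.sqrt n : ℂ)⁻¹) *
        (c n * bt T u t (Real.log n)) = Sf N p c T u t := by
      intro p
      unfold Sf
      exact Finset.sum_congr rfl fun n _ => by ring
    simp only [e2] at h4
    refine h4.trans (le_of_eq ?_)
    congr 1
    refine Finset.sum_congr rfl fun n _ => ?_
    rw [norm_mul]
    ring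
  rw [e1]
  refine h3.trans ?_
  rw [integral_const_mul, integral_finsetSum _ fun n _ => (hb n).const_mul _]
  have h5 : ∑ n ∈ Finset.Icc 1 N, ∫ t, wn n * ‖c n‖ ^ 2 * ‖bt T u t (Real.log n)‖ ^ 2 ≤
      16 * Real.pi * T * (C2 * (u + 1)) := by
    calc _ ≤ ∑ n ∈ Finset.Icc 1 N, 16 * Real.pi * T *
          (wn n * Real.exp (-(u - Real.log n) ^ 2 / 4)) := by
          refine Finset.sum_le_sum fun n hn => ?_
          rw [integral_const_mul]
          have b1 := (bt_sq T u (Real.log n) hT).2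
          have b2 := hc n hn
          have b3 := one_add_sq_le_exp (u - Real.log n)
          have b4 : Real.exp (-(u - Real.log n) ^ 2 / 2) =
              Real.exp (-(u - Real.log n) ^ 2 / 4) * Real.exp (-((u - Real.log n) ^ 2 / 4)) := by
            rw [← Real.exp_add]; congr 1; ring
          have b5 : ‖c n‖ ^ 2 * Real.exp (-((u - Real.log n) ^ 2 / 4)) ≤ 4 := by
            have b6 := mul_le_mul_of_nonneg_right (b2.trans b3)
              (Real.exp_pos (-((u - Real.log n) ^ 2 / 4))).le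
            rwa [mul_assoc, ← Real.exp_add, add_neg_cancel, Real.exp_zero, mul_one] at b6
          have hw0 := wn_nonneg n
          calc _ ≤ wn n * ‖c n‖ ^ 2 * (4 * Real.pi * T * Real.exp (-(u - Real.log n) ^ 2 / 2)) :=
                mul_le_mul_of_nonneg_left b1 (mul_nonneg hw0 (sq_nonneg _))
            _ = 4 * Real.pi * T * (wn n * Real.exp (-(u - Real.log n) ^ 2 / 4)) *
                (‖c n‖ ^ 2 * Real.exp (-((u - Real.log n) ^ 2 / 4))) := by rw [b4]; ring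
            _ ≤ 4 * Real.pi * T * (wn n * Real.exp (-(u - Real.log n) ^ 2 / 4)) * 4 :=
                mul_le_mul_of_nonneg_left b5 (by positivity)
            _ = _ := by ring
      _ ≤ _ := by
          rw [← Finset.mul_sum]
          exact mul_le_mul_of_nonneg_left (h2 u N hu) (by positivity)
  calc _ ≤ C1 * (Real.log ((Y : ℝ) / X) + 1) * (16 * Real.pi * T * (C2 * (u + 1))) :=
        mul_le_mul_of_nonneg_left h5 (by positivity)
    _ = C1 * (16 * Real.pi * C2) * (Real.log ((Y : ℝ) / X) + 1) * (T * (u + 1)) := by ring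
    _ ≤ _ := by
        have h6 : 0 ≤ C1 * ((Real.log ((Y : ℝ) / X) + 1) * (T * (u + 1))) := by positivity
        nlinarith

/-- the pairing -/
noncomputable def Pr (N : ℕ) (p p' : IX) (c : ℕ → ℂ) (T u : ℝ) : ℂ :=
  ∫ t, Sf N p (fun _ => 1) T u t * star (Sf N p' c T u t)

/-- the mean square of the pairings -/
theorem Pr_sq : ∃ C : ℝ, 1 ≤ C ∧ ∀ (X Y N : ℕ) (c : ℕ → ℂ) (T u M : ℝ), 1 ≤ X → X ≤ Y →
    (N : ℝ) ≤ (X : ℝ) ^ 2 → 0 ≤ T → 0 ≤ u → 0 ≤ M →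
    (∀ n ∈ Finset.Icc 1 N,
      ∑ m ∈ Finset.Icc 1 N, wn m * ‖Gm T u (Real.log n) (Real.log m)‖ ≤ M) →
    (∀ n ∈ Finset.Icc 1 N, ‖c n‖ ^ 2 ≤ 1 + (u - Real.log n) ^ 2) →
    avg2 X Y (fun z => ‖Pr N z.1 z.2 c T u‖) ≤
      C * (Real.log ((Y : ℝ) / X) + 1) * WW X Y * Real.sqrt (M * (T * (u + 1))) := by
  obtain ⟨C1, hC1, h1⟩ := ls_cf
  obtain ⟨C2, hC2, h2⟩ := Sf_ms
  refine ⟨C1 * C2, one_le_mul_of_one_le_of_one_le hC1 hC2,
    fun X Y N c T u M hX hXY hN hT hu hM0 hM hc => ?_⟩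
  have hLW := LW_pos hX hXY
  obtain ⟨J, hJ⟩ : ∃ J, J = Real.log ((Y : ℝ) / X) + 1 := ⟨_, rfl⟩
  rw [← hJ] at hLW ⊢
  have hms := h2 X Y N c T u hX hXY hN hT hu hc
  rw [← hJ] at hms
  -- one fixed second index
  have h3 : ∀ p' : IX, ∑ p ∈ primSet X Y, (1 / (p.1 : ℝ) ^ 2) * ‖Pr N p p' c T u‖ ^ 2 ≤
      C1 * J * (M * ∫ t, ‖Sf N p' c T u t‖ ^ 2) := by
    intro p'
    obtain ⟨f1, f2⟩ := Sf_comb N p' c T u hT
    have hb : ∀ n : ℕ, Integrable (fun t => ‖bt T u t (Real.log n)‖ ^ 2) := fun n =>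
      (bt_sq T u _ hT).1
    have hbi : ∀ n : ℕ, Integrable (fun t => bt T u t (Real.log n) * star (Sf N p' c T u t)) :=
      fun n => (cs_int (fa_bt_cont T u _) f1 (hb n) f2).1
    have e1 : ∀ p : IX, Pr N p p' c T u = ∑ n ∈ Finset.Icc 1 N,
        (cf p n * (Real.sqrt n : ℂ)⁻¹) *
          ∫ t, bt T u t (Real.log n) * star (Sf N p' c T u t) := by
      intro p
      unfold Pr
      have e2 : ∀ t, Sf N p (fun _ => 1) T u t * star (Sf N p' c T u t) =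
          ∑ n ∈ Finset.Icc 1 N, (cf p n * (Real.sqrt n : ℂ)⁻¹) *
            (bt T u t (Real.log n) * star (Sf N p' c T u t)) := by
        intro t
        conv_lhs => rw [Sf]
        rw [Finset.sum_mul]
        exact Finset.sum_congr rfl fun n _ => by ring
      simp_rw [e2]
      rw [integral_finsetSum _ fun n _ => (hbi n).const_mul _]
      refine Finset.sum_congr rfl fun n _ => ?_
      rw [integral_const_mul]
    have h4 := h1 X Y N (fun n => ∫ t, bt T u t (Real.log n) * star (Sf N p' c T u t)) hX hXY hN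
    have h5 := gram_ls (Finset.Icc 1 N) wn wn_nonneg (fun n t => bt T u t (Real.log n))
      (fun n => fa_bt_cont T u _) hb hM0 hM (fun t => Sf N p' c T u t) f1 f2
    have h6 : ∀ n : ℕ, ‖∫ t, bt T u t (Real.log n) * star (Sf N p' c T u t)‖ =
        ‖∫ t, Sf N p' c T u t * star (bt T u t (Real.log n))‖ := by
      intro n
      have e : ∫ t, bt T u t (Real.log n) * star (Sf N p' c T u t) =
          star (∫ t, Sf N p' c T u t * star (bt T u t (Real.log n))) := by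
        show _ = (starRingEnd ℂ) _
        rw [← integral_conj]
        congr 1
        funext t
        show _ = star _
        rw [star_mul', star_star]
        ring
      rw [e, norm_star]
    simp only [h6, ← hJ] at h4
    have h7 : ∑ p ∈ primSet X Y, (1 / (p.1 : ℝ) ^ 2) * ‖Pr N p p' c T u‖ ^ 2 =
        ∑ p ∈ primSet X Y, (1 / (p.1 : ℝ) ^ 2) * ‖∑ n ∈ Finset.Icc 1 N,
        (cf p n * (Real.sqrt n : ℂ)⁻¹) *
          ∫ t, bt T u t (Real.log n) * star (Sf N p' c T u t)‖ ^ 2 :=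
      Finset.sum_congr rfl fun p _ => by rw [e1 p]
    rw [h7]
    exact h4.trans (mul_le_mul_of_nonneg_left h5 (by positivity))
  have h8 : avg2 X Y (fun z => ‖Pr N z.1 z.2 c T u‖ ^ 2) ≤
      C1 * C2 * J ^ 2 * (M * (T * (u + 1))) := by
    unfold avg2 PS w2
    rw [Finset.sum_product_right]
    simp only
    calc _ = ∑ p' ∈ primSet X Y, (1 / (p'.1 : ℝ) ^ 2) *
          ∑ p ∈ primSet X Y, (1 / (p.1 : ℝ) ^ 2) * ‖Pr N p p' c T u‖ ^ 2 := by
          refine Finset.sum_congr rfl fun p' _ => ?_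
          rw [Finset.mul_sum]
          exact Finset.sum_congr rfl fun p _ => by ring
      _ ≤ ∑ p' ∈ primSet X Y, (1 / (p'.1 : ℝ) ^ 2) *
          (C1 * J * (M * ∫ t, ‖Sf N p' c T u t‖ ^ 2)) :=
          Finset.sum_le_sum fun p' _ => mul_le_mul_of_nonneg_left (h3 p') (by positivity)
      _ = C1 * J * M * ∑ p' ∈ primSet X Y, (1 / (p'.1 : ℝ) ^ 2) *
          ∫ t, ‖Sf N p' c T u t‖ ^ 2 := by
          rw [Finset.mul_sum]
          exact Finset.sum_congr rfl fun p _ => by ring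
      _ ≤ C1 * J * M * (C2 * J * (T * (u + 1))) :=
          mul_le_mul_of_nonneg_left hms (by positivity)
      _ = _ := by ring
  have h9 : (avg2 X Y (fun z => ‖Pr N z.1 z.2 c T u‖)) ^ 2 ≤
      (WW X Y ^ 2) * avg2 X Y (fun z => ‖Pr N z.1 z.2 c T u‖ ^ 2) := by
    have h10 := Finset.sum_mul_sq_le_sq_mul_sq (PS X Y) (fun z => Real.sqrt (w2 z))
      (fun z => Real.sqrt (w2 z) * ‖Pr N z.1 z.2 c T u‖)
    have e3 : ∑ z ∈ PS X Y, Real.sqrt (w2 z) * (Real.sqrt (w2 z) * ‖Pr N z.1 z.2 c T u‖) =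
        avg2 X Y (fun z => ‖Pr N z.1 z.2 c T u‖) := by
      unfold avg2
      refine Finset.sum_congr rfl fun z _ => ?_
      rw [← mul_assoc, Real.mul_self_sqrt (w2_nonneg z)]
    have e4 : ∑ z ∈ PS X Y, Real.sqrt (w2 z) ^ 2 = WW X Y ^ 2 := by
      rw [← sum_w2]
      exact Finset.sum_congr rfl fun z _ => Real.sq_sqrt (w2_nonneg z)
    have e5 : ∑ z ∈ PS X Y, (Real.sqrt (w2 z) * ‖Pr N z.1 z.2 c T u‖) ^ 2 =
        avg2 X Y (fun z => ‖Pr N z.1 z.2 c T u‖ ^ 2) := by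
      unfold avg2
      refine Finset.sum_congr rfl fun z _ => ?_
      rw [mul_pow, Real.sq_sqrt (w2_nonneg z)]
    rw [e3, e4, e5] at h10
    exact h10
  have hW0 : 0 ≤ WW X Y := primFam_nonneg _ _ _ (fun _ _ => zero_le_one)
  have hR : 0 ≤ M * (T * (u + 1)) := by positivity
  refine le_of_sq_le_sq ?_ (by positivity)
  rw [mul_pow, Real.sq_sqrt hR]
  refine h9.trans ?_
  calc _ ≤ WW X Y ^ 2 * (C1 * C2 * J ^ 2 * (M * (T * (u + 1)))) :=
        mul_le_mul_of_nonneg_left h8 (sq_nonneg _)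
    _ = (C1 * C2) * (J ^ 2 * WW X Y ^ 2 * (M * (T * (u + 1)))) := by ring
    _ ≤ (C1 * C2) ^ 2 * (J ^ 2 * WW X Y ^ 2 * (M * (T * (u + 1)))) := by
        refine mul_le_mul_of_nonneg_right ?_ (by positivity)
        exact le_self_pow₀ (one_le_mul_of_one_le_of_one_le hC1 hC2) two_ne_zero
    _ = _ := by ring

end Pool.Agent.T4h70.LB
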