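import Pool.Agent.T4h70.LB.Core
import Pool.Agent.R321.RG4

/-!
# Pairs of characters with shifts depending on the pair: the final theorem
-/

set_option autoImplicit false
set_option maxHeartbeats 4000000

open Complex Filter Topology Set MeasureTheory
open H370 (zset mult NN Nd Ns GoodL)

namespace Pool.Agent.T4h70.LB

open H385
open Pool.Agent.R321.RC (cf PS w2 w2_nonneg avg2 avg2_nonneg avg2_add avg2_mul avg2_mono On Cm
  counts LI Rw_const_pair)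
open Pool.Agent.R321.RD (Al once)
open Pool.Agent.T4h70.LI (ph sh)

/-- the family theorem for pairs with a constant -/
theorem final_of_constS (V0 γ c : ℝ) (hV : 0 ≤ V0) (h0 : 0 < γ) (hπ : γ < Real.pi)
    (hc : Rw γ 0 + 2 * (∫ α in (0 : ℝ)..1, min (2 * α) 1 * Rw γ α) < c) :
    ∃ K η X0 : ℝ, 1 ≤ K ∧ 0 < η ∧ 1 ≤ X0 ∧
    ∀ (X Y : ℕ) (T : ℝ) (v : IX × IX → ℝ), X0 ≤ X → K * X ≤ Y →
      (Y : ℝ) ≤ (X : ℝ) ^ (1 + η) →
      (Real.log X) ^ 2 ≤ T → T ≤ (X : ℝ) ^ η → (∀ z, |v z| ≤ V0) →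
      0 < avg2 X Y (fun z => (NN (FS v z) T (2 * T) : ℝ)) ∧
      avg2 X Y (fun z => 2 * (NN (FS v z) T (2 * T) : ℝ) - (Ns (FS v z) T (2 * T) : ℝ)) ≤
        c * avg2 X Y (fun z => (NN (FS v z) T (2 * T) : ℝ)) ∧
      avg2 X Y (fun z => 3 * (NN (FS v z) T (2 * T) : ℝ) - 2 * (Nd (FS v z) T (2 * T) : ℝ)) ≤
        c * avg2 X Y (fun z => (NN (FS v z) T (2 * T) : ℝ)) := by
  set R0 : ℝ := Rw γ 0 with hR0
  have hR0n : 0 ≤ R0 := Rw_nonneg γ h0 hπ 0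
  set J : ℝ := ∫ α in (0 : ℝ)..1, min (2 * α) 1 * Rw γ α with hJ
  set d : ℝ := c - (R0 + 2 * J) with hd
  have hd0 : 0 < d := by rw [hd]; linarith
  -- choose β
  set s : ℝ := min (1 / 2) (d / (2 * (R0 + 1))) with hs
  have hs0 : 0 < s := by positivity
  have hs1 : s ≤ 1 / 2 := min_le_left _ _
  have hs2 : R0 * s ≤ d / 2 := by
    have h1 : s ≤ d / (2 * (R0 + 1)) := min_le_right _ _
    calc R0 * s ≤ R0 * (d / (2 * (R0 + 1))) := mul_le_mul_of_nonneg_left h1 hR0n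
      _ = d / 2 * (R0 / (R0 + 1)) := by field_simp
      _ ≤ d / 2 * 1 := by
        refine mul_le_mul_of_nonneg_left ?_ (by linarith)
        rw [div_le_one (by positivity)]; linarith
      _ = d / 2 := mul_one _
  set β : ℝ := 2 - s with hβ
  have hβ1 : 1 < β := by rw [hβ]; linarith
  have hβ2 : β < 2 := by rw [hβ]; linarith
  have hβ0 : 0 < β := by linarith
  have hR := H385.Rw_cont γ h0 hπ
  have c1 : Continuous (fun α : ℝ => min (2 * α) 1 * Rw γ α) := by fun_prop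
  have c2 : Continuous (fun α : ℝ => min (β * α) 1 * Rw γ α) := by fun_prop
  have e1 : ∫ α in (0 : ℝ)..1, min (β * α) 1 * Rw γ α ≤ J := by
    refine intervalIntegral.integral_mono_on zero_le_one (c2.intervalIntegrable _ _)
      (c1.intervalIntegrable _ _) (fun α hα => ?_)
    refine mul_le_mul_of_nonneg_right ?_ (Rw_nonneg γ h0 hπ α)
    exact min_le_min_right _ (mul_le_mul_of_nonneg_right hβ2.le hα.1)
  have e2 : 2 * R0 / β ≤ R0 + d / 2 := by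
    rw [div_le_iff₀ hβ0]
    have h1 : (R0 + d / 2) * β = 2 * R0 - R0 * s + d / 2 * β := by rw [hβ]; ring
    rw [h1]
    have h2 : d / 2 * 1 ≤ d / 2 * β := mul_le_mul_of_nonneg_left hβ1.le (by linarith)
    linarith
  have hcp : 0 ≤ 2 * (∫ α in (0 : ℝ)..1, min (β * α) 1 * Rw γ α) := by
    refine mul_nonneg (by norm_num) (intervalIntegral.integral_nonneg zero_le_one (fun α hα => ?_))
    exact mul_nonneg (le_min (mul_nonneg hβ0.le hα.1) zero_le_one) (Rw_nonneg γ h0 hπ α)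
  obtain ⟨K, η, X0, hK, hη, hX0, h⟩ := final_coreS V0 γ β _ hV h0 hπ hβ1 hβ2 hcp
    (HY_stage2 γ β h0 hπ hβ1 hβ2) (d / 2) (by positivity)
  refine ⟨K, η, X0, hK, hη, hX0, ?_⟩
  intro X Y T v a1 a2 a3 a4 a5 a6
  obtain ⟨b0, b1, b2⟩ := h X Y T v a1 a2 a3 a4 a5 a6
  have hN : 0 ≤ avg2 X Y (fun z => (NN (FS v z) T (2 * T) : ℝ)) :=
    avg2_nonneg _ _ _ (fun _ => Nat.cast_nonneg _)
  have hcc : 2 * R0 / β + 2 * (∫ α in (0 : ℝ)..1, min (β * α) 1 * Rw γ α) + d / 2 ≤ c := by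
    have : R0 + 2 * J + d = c := by rw [hd]; ring
    linarith
  have hcc' := mul_le_mul_of_nonneg_right hcc hN
  exact ⟨b0, b1.trans hcc', b2.trans hcc'⟩

/-- the theorem for pairs with the constant `1.577` -/
theorem pairs_mainS (V0 : ℝ) (hV : 0 ≤ V0) : ∃ K η X0 : ℝ, 1 ≤ K ∧ 0 < η ∧ 1 ≤ X0 ∧
    ∀ (X Y : ℕ) (T : ℝ) (v : IX × IX → ℝ), X0 ≤ X → K * X ≤ Y →
      (Y : ℝ) ≤ (X : ℝ) ^ (1 + η) →
      (Real.log X) ^ 2 ≤ T → T ≤ (X : ℝ) ^ η → (∀ z, |v z| ≤ V0) →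
      0 < avg2 X Y (fun z => (NN (FS v z) T (2 * T) : ℝ)) ∧
      avg2 X Y (fun z => 2 * (NN (FS v z) T (2 * T) : ℝ) - (Ns (FS v z) T (2 * T) : ℝ)) ≤
        1.577 * avg2 X Y (fun z => (NN (FS v z) T (2 * T) : ℝ)) ∧
      avg2 X Y (fun z => 3 * (NN (FS v z) T (2 * T) : ℝ) - 2 * (Nd (FS v z) T (2 * T) : ℝ)) ≤
        1.577 * avg2 X Y (fun z => (NN (FS v z) T (2 * T) : ℝ)) := by
  have hπ : (3 / 2 : ℝ) < Real.pi := by linarith [Real.pi_gt_three]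
  exact final_of_constS V0 (3 / 2) 1.577 hV (by norm_num) hπ
    (lt_of_le_of_lt Rw_const_pair (by norm_num))

/-- the first function of a pair -/
noncomputable def F1 (v : IX × IX → ℝ) (z : IX × IX) : ℂ → ℂ := sh (an (v z)) (LI z.1)

/-- the second function of a pair -/
noncomputable def G1 (v : IX × IX → ℝ) (z : IX × IX) : ℂ → ℂ := sh (bn (v z)) (LI z.2)

/-- **Pairs of characters with shifts depending on the pair.** -/
theorem pairs_shift (V0 : ℝ) (hV : 0 ≤ V0) : ∃ K η X0 : ℝ, 1 ≤ K ∧ 0 < η ∧ 1 ≤ X0 ∧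
    ∀ (X Y : ℕ) (T : ℝ) (v : IX × IX → ℝ), X0 ≤ X → K * X ≤ Y →
      (Y : ℝ) ≤ (X : ℝ) ^ (1 + η) →
      (Real.log X) ^ 2 ≤ T → T ≤ (X : ℝ) ^ η → (∀ z, |v z| ≤ V0) →
      0 < avg2 X Y (fun z => ((NN (F1 v z) T (2 * T) + NN (G1 v z) T (2 * T) : ℕ) : ℝ)) ∧
      (∀ z : IX × IX, X < z.1.1 → z.1.2.IsPrimitive → X < z.2.1 → z.2.2.IsPrimitive →
        (zset (F1 v z) T (2 * T)).Finite ∧ (zset (G1 v z) T (2 * T)).Finite) ∧
      0.423 * avg2 X Y (fun z => ((NN (F1 v z) T (2 * T) + NN (G1 v z) T (2 * T) : ℕ) : ℝ)) ≤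
        avg2 X Y (fun z => ((On (F1 v z) (G1 v z) T + On (G1 v z) (F1 v z) T : ℕ) : ℝ)) ∧
      0.134 * avg2 X Y (fun z => ((NN (F1 v z) T (2 * T) + NN (G1 v z) T (2 * T) : ℕ) : ℝ)) ≤
        avg2 X Y (fun z => ((Al (F1 v z) (G1 v z) T + Al (G1 v z) (F1 v z) T : ℕ) : ℝ)) ∧
      0.7115 * avg2 X Y (fun z => ((NN (F1 v z) T (2 * T) + NN (G1 v z) T (2 * T) : ℕ) : ℝ)) ≤
        avg2 X Y (fun z => ((zset (F1 v z) T (2 * T) ∪ zset (G1 v z) T (2 * T)).ncard : ℝ)) ∧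
      avg2 X Y (fun z => (Cm (F1 v z) (G1 v z) T : ℝ)) ≤ 0.2885 *
        avg2 X Y (fun z => ((NN (F1 v z) T (2 * T) + NN (G1 v z) T (2 * T) : ℕ) : ℝ)) := by
  obtain ⟨K, η, X0, hK, hη, hX0, h⟩ := pairs_mainS V0 hV
  obtain ⟨A, hA, hgood⟩ := good_dirichlet_U
  refine ⟨K, η, max X0 (Real.exp 1), hK, hη, le_max_of_le_left hX0, ?_⟩
  intro X Y T v hX a2 a3 a4 a5 a6
  have hXX : X0 ≤ X := (le_max_left _ _).trans hX
  have hXe : Real.exp 1 ≤ X := (le_max_right _ _).trans hX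
  have hT1 : 1 ≤ T := by
    have h1 : 1 ≤ Real.log X := by
      rw [Real.le_log_iff_exp_le (lt_of_lt_of_le (Real.exp_pos 1) hXe)]; exact hXe
    nlinarith
  obtain ⟨b0, b1, b2⟩ := h X Y T v hXX a2 a3 a4 a5 a6
  have hgl' : ∀ (p : IX) (a : ℝ), 0 ≤ a → a ≤ V0 → X < p.1 → p.2.IsPrimitive →
      GoodL (sh a (LI p)) := by
    intro p a ha haV h1 h3
    have hq : NeZero p.1 := ⟨by omega⟩
    have e1 : LI p = DirichletCharacter.LFunction p.2 := by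
      unfold LI LF
      rw [dif_neg (NeZero.ne _)]
    have hq1 : (1 : ℝ) ≤ (p.1 : ℝ) := by exact_mod_cast (show 1 ≤ p.1 by omega)
    rw [e1]
    exact H385.PerChi.goodL (AV_one hA hV) hq1 (good_sh hA hq1 ha haV (hgood p.1 p.2 h3))
  have hgl : ∀ z : IX × IX, X < z.1.1 → z.1.2.IsPrimitive → X < z.2.1 → z.2.2.IsPrimitive →
      GoodL (F1 v z) ∧ GoodL (G1 v z) := fun z h1 h2 h3 h4 =>
    ⟨hgl' z.1 _ (an_mem (a6 z)).1 (an_mem (a6 z)).2 h1 h2,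
      hgl' z.2 _ (bn_mem (a6 z)).1 (bn_mem (a6 z)).2 h3 h4⟩
  have hglz : ∀ z ∈ PS X Y, GoodL (F1 v z) ∧ GoodL (G1 v z) := by
    intro z hz
    unfold PS at hz
    rw [Finset.mem_product] at hz
    obtain ⟨h1, h2, h3⟩ := (mem_primSet X Y z.1).mp hz.1
    obtain ⟨k1, k2, k3⟩ := (mem_primSet X Y z.2).mp hz.2
    exact hgl z h1 h3 k1 k3
  have hcnt : ∀ z ∈ PS X Y, _ := fun z hz => counts (hglz z hz).1 (hglz z hz).2 hT1
  obtain ⟨Nt, hNt⟩ : ∃ Nt, Nt = avg2 X Y (fun z =>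
    ((NN (F1 v z) T (2 * T) + NN (G1 v z) T (2 * T) : ℕ) : ℝ)) := ⟨_, rfl⟩
  have hN2 : avg2 X Y (fun z => (NN (FS v z) T (2 * T) : ℝ)) = Nt := by
    rw [hNt]
    unfold avg2
    refine Finset.sum_congr rfl fun z hz => ?_
    congr 1
    have := (hcnt z hz).1
    show ((NN (fun s => F1 v z s * G1 v z s) T (2 * T) : ℕ) : ℝ) = _
    rw [this]
  have hNs : avg2 X Y (fun z => (Ns (FS v z) T (2 * T) : ℝ)) ≤
      avg2 X Y (fun z => ((On (F1 v z) (G1 v z) T + On (G1 v z) (F1 v z) T : ℕ) : ℝ)) := by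
    refine avg2_mono X Y _ _ fun z hz => ?_
    have := (hcnt z hz).2.2.1
    show ((Ns (fun s => F1 v z s * G1 v z s) T (2 * T) : ℕ) : ℝ) ≤ _
    exact_mod_cast this
  have hNd : avg2 X Y (fun z => (Nd (FS v z) T (2 * T) : ℝ)) =
      avg2 X Y (fun z => ((zset (F1 v z) T (2 * T) ∪ zset (G1 v z) T (2 * T)).ncard : ℝ)) := by
    unfold avg2
    refine Finset.sum_congr rfl fun z hz => ?_
    have := (hcnt z hz).2.1
    show w2 z * ((Nd (fun s => F1 v z s * G1 v z s) T (2 * T) : ℕ) : ℝ) = _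
    rw [this]
  have hCm : avg2 X Y (fun z => (Cm (F1 v z) (G1 v z) T : ℝ)) +
      avg2 X Y (fun z => (Nd (FS v z) T (2 * T) : ℝ)) ≤ Nt := by
    rw [← avg2_add, hNt]
    refine avg2_mono X Y _ _ fun z hz => ?_
    have h1 := (hcnt z hz).2.2.2
    show (Cm (F1 v z) (G1 v z) T : ℝ) +
      ((Nd (fun s => F1 v z s * G1 v z s) T (2 * T) : ℕ) : ℝ) ≤ _
    exact_mod_cast h1
  have hAl : 3 * avg2 X Y (fun z => (Ns (FS v z) T (2 * T) : ℝ)) ≤ Nt +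
      2 * avg2 X Y (fun z => ((Al (F1 v z) (G1 v z) T + Al (G1 v z) (F1 v z) T : ℕ) : ℝ)) := by
    rw [← hN2, ← avg2_mul, ← avg2_mul, ← avg2_add]
    refine avg2_mono X Y _ _ fun z hz => ?_
    have := once (hglz z hz).1 (hglz z hz).2 hT1
    show 3 * ((Ns (fun s => F1 v z s * G1 v z s) T (2 * T) : ℕ) : ℝ) ≤
      ((NN (fun s => F1 v z s * G1 v z s) T (2 * T) : ℕ) : ℝ) + _
    exact_mod_cast this
  have f1 : avg2 X Y (fun z => 2 * (NN (FS v z) T (2 * T) : ℝ) - (Ns (FS v z) T (2 * T) : ℝ)) =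
      2 * Nt - avg2 X Y (fun z => (Ns (FS v z) T (2 * T) : ℝ)) := by
    have e : ∀ z : IX × IX, 2 * (NN (FS v z) T (2 * T) : ℝ) - (Ns (FS v z) T (2 * T) : ℝ) =
        2 * (NN (FS v z) T (2 * T) : ℝ) + (-1) * (Ns (FS v z) T (2 * T) : ℝ) := fun z => by ring
    simp_rw [e]
    rw [avg2_add, avg2_mul, avg2_mul, hN2]
    ring
  have f2 : avg2 X Y (fun z => 3 * (NN (FS v z) T (2 * T) : ℝ) -
      2 * (Nd (FS v z) T (2 * T) : ℝ)) =
      3 * Nt - 2 * avg2 X Y (fun z => (Nd (FS v z) T (2 * T) : ℝ)) := by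
    have e : ∀ z : IX × IX, 3 * (NN (FS v z) T (2 * T) : ℝ) - 2 * (Nd (FS v z) T (2 * T) : ℝ) =
        3 * (NN (FS v z) T (2 * T) : ℝ) + (-2) * (Nd (FS v z) T (2 * T) : ℝ) := fun z => by ring
    simp_rw [e]
    rw [avg2_add, avg2_mul, avg2_mul, hN2]
    ring
  rw [f1, hN2] at b1
  rw [f2, hN2] at b2
  rw [hN2] at b0
  rw [← hNt]
  refine ⟨b0, fun z h1 h2 h3 h4 => ⟨H370.zset_finite (hgl z h1 h2 h3 h4).1 T _ hT1,
    H370.zset_finite (hgl z h1 h2 h3 h4).2 T _ hT1⟩, by linarith, by linarith, ?_, by linarith⟩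
  rw [← hNd]
  linarith

end Pool.Agent.T4h70.LB
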