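import Pool.Agent.T4h70.LB.LS

/-!
# The scalar products of the functions `bt T u · ℓ`
-/

set_option autoImplicit false
set_option maxHeartbeats 4000000

open Complex Filter Topology Set MeasureTheory

namespace Pool.Agent.T4h70.LB

open H385

/-- the constant of `bt` -/
noncomputable def kap : ℝ := 1 / (2 * Real.sqrt Real.pi) * (1 / Real.sqrt (2 * Real.pi))

lemma kap_pos : 0 < kap := by unfold kap; positivity

lemma kap_le : kap ≤ 1 := by
  unfold kap
  have h1 : 1 ≤ Real.sqrt Real.pi := by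
    rw [Real.one_le_sqrt]; linarith [Real.pi_gt_three]
  have h2 : 1 ≤ Real.sqrt (2 * Real.pi) := by
    rw [Real.one_le_sqrt]; linarith [Real.pi_gt_three]
  have h3 : 1 / (2 * Real.sqrt Real.pi) ≤ 1 := by
    rw [div_le_one (by positivity)]; linarith
  have h4 : 1 / Real.sqrt (2 * Real.pi) ≤ 1 := by
    rw [div_le_one (by positivity)]; exact h2
  exact mul_le_one₀ h3 (by positivity) h4

/-- the integrand -/
noncomputable def kk (x r : ℝ) : ℂ := (Real.exp (-r ^ 2 / 4) : ℂ) * cexp (I * (r / 2) * x)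

lemma kk_cont (x : ℝ) : Continuous (kk x) := by
  unfold kk
  fun_prop

lemma kk_norm (x r : ℝ) : ‖kk x r‖ = Real.exp (-(1 / 4) * r ^ 2) := by
  unfold kk
  rw [norm_mul, Complex.norm_real, Real.norm_of_nonneg (Real.exp_pos _).le]
  have : (I * (r / 2) * x : ℂ) = ((r / 2 * x : ℝ) : ℂ) * I := by
    push_cast; ring
  rw [this, Complex.norm_exp_ofReal_mul_I, mul_one]
  congr 1
  ring

/-- the slowly varying factor of `bt` -/
noncomputable def hk (x T t : ℝ) : ℂ := ∫ r in (T - t)..(2 * T - t), kk x r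

lemma bt_fac (T u t ℓ : ℝ) : bt T u t ℓ = ((kap * Real.exp (-(u - ℓ) ^ 2 / 4) : ℝ) : ℂ) *
    (cexp (I * (t * (u - ℓ))) * hk (u - ℓ) T t) := by
  unfold bt hk
  have h := intervalIntegral.integral_comp_sub_right (a := T) (b := 2 * T)
    (fun r : ℝ => kk (u - ℓ) r) t
  rw [← h, ← intervalIntegral.integral_const_mul (cexp (I * (t * (u - ℓ))))]
  unfold kap
  congr 1
  refine intervalIntegral.integral_congr fun τ _ => ?_
  unfold kk
  have e1 : (-(t - τ) ^ 2 / 4 : ℝ) = -(τ - t) ^ 2 / 4 := by ring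
  rw [e1]
  have e2 : cexp (I * ((t + τ) / 2) * (u - ℓ)) = cexp (I * (t * (u - ℓ))) *
      cexp (I * (((τ - t : ℝ) : ℂ) / 2) * ((u - ℓ : ℝ) : ℂ)) := by
    rw [← Complex.exp_add]
    congr 1
    push_cast
    ring
  rw [e2]
  ring

lemma hk_norm (x T t : ℝ) (hT : 0 ≤ T) : ‖hk x T t‖ ≤ 2 * Real.sqrt Real.pi * wt T t := by
  unfold hk
  have h1 : ‖∫ r in (T - t)..(2 * T - t), kk x r‖ ≤
      ∫ r in (T - t)..(2 * T - t), Real.exp (-(1 / 4) * r ^ 2) := by
    refine intervalIntegral.norm_integral_le_of_norm_le (by linarith) ?_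
      ((by fun_prop : Continuous fun r : ℝ => Real.exp (-(1 / 4) * r ^ 2)).intervalIntegrable _ _)
    exact Filter.Eventually.of_forall fun r _ => (kk_norm x r).le
  have h2 := intervalIntegral.integral_comp_sub_right (a := T) (b := 2 * T)
    (fun r : ℝ => Real.exp (-(1 / 4) * r ^ 2)) t
  rw [← h2] at h1
  refine h1.trans (le_of_eq ?_)
  rw [Cut.wt_eq]
  have : 0 < Real.sqrt Real.pi := Real.sqrt_pos.2 Real.pi_pos
  field_simp

lemma hk_le (x T t : ℝ) (hT : 0 ≤ T) : ‖hk x T t‖ ≤ 2 * Real.sqrt Real.pi := by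
  refine (hk_norm x T t hT).trans ?_
  have := wt_le_one T t hT
  have h2 : 0 ≤ 2 * Real.sqrt Real.pi := by positivity
  calc _ ≤ 2 * Real.sqrt Real.pi * 1 := mul_le_mul_of_nonneg_left this h2
    _ = _ := mul_one _

/-- the derivative of `hk` -/
noncomputable def hd (x T t : ℝ) : ℂ := kk x (T - t) - kk x (2 * T - t)

lemma hd_cont (x T : ℝ) : Continuous (hd x T) := by
  unfold hd
  have := kk_cont x
  fun_prop

lemma hk_deriv (x T t : ℝ) : HasDerivAt (hk x T) (hd x T t) t := by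
  have hF : ∀ s : ℝ, HasDerivAt (fun y : ℝ => ∫ r in (0 : ℝ)..y, kk x r) (kk x s) s := fun s =>
    (kk_cont x).integral_hasStrictDerivAt 0 s |>.hasDerivAt
  have e : hk x T = fun t => (∫ r in (0 : ℝ)..(2 * T - t), kk x r) -
      ∫ r in (0 : ℝ)..(T - t), kk x r := by
    funext t
    unfold hk
    rw [intervalIntegral.integral_interval_sub_left ((kk_cont x).intervalIntegrable _ _)
      ((kk_cont x).intervalIntegrable _ _)]
  rw [e]
  have h1 : HasDerivAt (fun t : ℝ => 2 * T - t) (-1) t := by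
    simpa using (hasDerivAt_id t).const_sub (2 * T)
  have h2 : HasDerivAt (fun t : ℝ => T - t) (-1) t := by
    simpa using (hasDerivAt_id t).const_sub T
  have h3 := (hF (2 * T - t)).scomp t h1
  have h4 := (hF (T - t)).scomp t h2
  refine (h3.sub h4).congr_deriv ?_
  unfold hd
  simp only [neg_smul, one_smul]
  ring

lemma hk_cont (x T : ℝ) : Continuous (hk x T) :=
  continuous_iff_continuousAt.2 fun t => (hk_deriv x T t).continuousAt

lemma hd_norm (x T t : ℝ) : ‖hd x T t‖ ≤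
    Real.exp (-(1 / 4) * (t - T) ^ 2) + Real.exp (-(1 / 4) * (t - 2 * T) ^ 2) := by
  unfold hd
  refine (norm_sub_le _ _).trans (le_of_eq ?_)
  rw [kk_norm, kk_norm]
  congr 2 <;> ring

lemma gauss_int (a : ℝ) : Integrable (fun t : ℝ => Real.exp (-(1 / 4) * (t - a) ^ 2)) :=
  Cut.int_gauss_shift Cut.hq a

lemma gauss_val (a : ℝ) : ∫ t : ℝ, Real.exp (-(1 / 4) * (t - a) ^ 2) = 2 * Real.sqrt Real.pi := by
  rw [Cut.integral_gauss_shift, Cut.sqrt_pi_quarter]

/-- the product of two factors -/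
noncomputable def Fp (x y T t : ℝ) : ℂ := hk x T t * star (hk y T t)

/-- its derivative -/
noncomputable def Fd (x y T t : ℝ) : ℂ := hd x T t * star (hk y T t) + hk x T t * star (hd y T t)

lemma Fp_deriv (x y T t : ℝ) : HasDerivAt (Fp x y T) (Fd x y T t) t :=
  (hk_deriv x T t).mul (hk_deriv y T t).star

lemma Fp_cont (x y T : ℝ) : Continuous (Fp x y T) :=
  continuous_iff_continuousAt.2 fun t => (Fp_deriv x y T t).continuousAt

lemma Fd_cont (x y T : ℝ) : Continuous (Fd x y T) := by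
  unfold Fd
  have h1 := hd_cont x T
  have h2 := hd_cont y T
  have h3 := hk_cont x T
  have h4 := hk_cont y T
  exact (h1.mul h4.star).add (h3.mul h2.star)

lemma Fp_norm (x y T t : ℝ) (hT : 0 ≤ T) : ‖Fp x y T t‖ ≤ 4 * Real.pi * wt T t := by
  unfold Fp
  rw [norm_mul, norm_star]
  have h1 := hk_norm x T t hT
  have h2 := hk_le y T t hT
  have h3 : 0 ≤ 2 * Real.sqrt Real.pi * wt T t := (norm_nonneg _).trans h1
  calc _ ≤ (2 * Real.sqrt Real.pi * wt T t) * (2 * Real.sqrt Real.pi) :=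
        mul_le_mul h1 h2 (norm_nonneg _) h3
    _ = 4 * (Real.sqrt Real.pi * Real.sqrt Real.pi) * wt T t := by ring
    _ = _ := by rw [Real.mul_self_sqrt Real.pi_pos.le]

lemma Fd_norm (x y T t : ℝ) (hT : 0 ≤ T) : ‖Fd x y T t‖ ≤ 4 * Real.sqrt Real.pi *
    (Real.exp (-(1 / 4) * (t - T) ^ 2) + Real.exp (-(1 / 4) * (t - 2 * T) ^ 2)) := by
  unfold Fd
  refine (norm_add_le _ _).trans ?_
  rw [norm_mul, norm_star, norm_mul, norm_star]
  have h1 := hd_norm x T t
  have h2 := hk_le y T t hT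
  have h3 := hd_norm y T t
  have h4 := hk_le x T t hT
  have h5 : 0 ≤ Real.exp (-(1 / 4) * (t - T) ^ 2) + Real.exp (-(1 / 4) * (t - 2 * T) ^ 2) := by
    positivity
  have h6 := mul_le_mul h1 h2 (norm_nonneg _) h5
  have h7 := mul_le_mul h4 h3 (norm_nonneg _) (by positivity)
  calc _ ≤ _ := add_le_add h6 h7
    _ = _ := by ring

lemma Fp_int (x y T : ℝ) (hT : 0 ≤ T) : Integrable (Fp x y T) :=
  Integrable.mono' ((Cut.wt_integrable T hT).const_mul _) (Fp_cont x y T).aestronglyMeasurable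
    (Filter.Eventually.of_forall fun t => Fp_norm x y T t hT)

lemma Fd_int (x y T : ℝ) (hT : 0 ≤ T) : Integrable (Fd x y T) :=
  Integrable.mono' (((gauss_int T).add (gauss_int (2 * T))).const_mul _)
    (Fd_cont x y T).aestronglyMeasurable
    (Filter.Eventually.of_forall fun t => Fd_norm x y T t hT)

/-- the oscillating integral -/
lemma osc (x y T θ : ℝ) (hT : 0 ≤ T) :
    |θ| * ‖∫ t : ℝ, cexp (I * (t * θ)) * Fp x y T t‖ ≤ 16 * Real.pi := by
  have hE : ∀ t : ℝ, ‖cexp (I * (t * θ))‖ = 1 := by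
    intro t
    have : (I * (t * θ) : ℂ) = ((t * θ : ℝ) : ℂ) * I := by push_cast; ring
    rw [this, Complex.norm_exp_ofReal_mul_I]
  have hEc : Continuous (fun t : ℝ => cexp (I * (t * θ))) := by fun_prop
  have hv : ∀ t : ℝ, HasDerivAt (fun t : ℝ => cexp (I * (t * θ))) (I * θ * cexp (I * (t * θ))) t := by
    intro t
    have h1 : HasDerivAt (fun t : ℝ => (I * (t * θ) : ℂ)) (I * (1 * θ)) t :=
      ((Complex.ofRealCLM.hasDerivAt (x := t)).mul_const (θ : ℂ)).const_mul I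
    refine h1.cexp.congr_deriv ?_
    ring
  have hi1 : Integrable (fun t : ℝ => Fp x y T t * (I * θ * cexp (I * (t * θ)))) := by
    refine Integrable.mono' ((Fp_int x y T hT).norm.mul_const |θ|)
      ((Fp_cont x y T).mul (hEc.const_smul (I * (θ : ℂ)))).aestronglyMeasurable
      (Filter.Eventually.of_forall fun t => ?_)
    rw [norm_mul, norm_mul, norm_mul, hE, Complex.norm_I, Complex.norm_real, one_mul, mul_one,
      Real.norm_eq_abs]
  have hi2 : Integrable (fun t : ℝ => Fd x y T t * cexp (I * (t * θ))) := by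
    refine Integrable.mono' (Fd_int x y T hT).norm
      ((Fd_cont x y T).mul hEc).aestronglyMeasurable (Filter.Eventually.of_forall fun t => ?_)
    rw [norm_mul, hE, mul_one]
  have hi3 : Integrable (fun t : ℝ => Fp x y T t * cexp (I * (t * θ))) := by
    refine Integrable.mono' (Fp_int x y T hT).norm
      ((Fp_cont x y T).mul hEc).aestronglyMeasurable (Filter.Eventually.of_forall fun t => ?_)
    rw [norm_mul, hE, mul_one]
  have key := integral_mul_deriv_eq_deriv_mul_of_integrable (u := Fp x y T)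
    (v := fun t : ℝ => cexp (I * (t * θ))) (u' := Fd x y T)
    (v' := fun t : ℝ => I * θ * cexp (I * (t * θ))) (fun t _ => Fp_deriv x y T t)
    (fun t _ => hv t) hi1 hi2 hi3
  have e1 : ∫ t : ℝ, Fp x y T t * (I * θ * cexp (I * (t * θ))) =
      (I * θ) * ∫ t : ℝ, cexp (I * (t * θ)) * Fp x y T t := by
    rw [← integral_const_mul]
    congr 1
    funext t
    ring
  rw [e1] at key
  have h1 : ‖(I * θ) * ∫ t : ℝ, cexp (I * (t * θ)) * Fp x y T t‖ =
      |θ| * ‖∫ t : ℝ, cexp (I * (t * θ)) * Fp x y T t‖ := by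
    rw [norm_mul, norm_mul, Complex.norm_I, one_mul, Complex.norm_real, Real.norm_eq_abs]
  rw [← h1, key, norm_neg]
  refine (norm_integral_le_integral_norm _).trans ?_
  have h2 : ∫ t : ℝ, ‖Fd x y T t * cexp (I * (t * θ))‖ ≤ ∫ t : ℝ, 4 * Real.sqrt Real.pi *
      (Real.exp (-(1 / 4) * (t - T) ^ 2) + Real.exp (-(1 / 4) * (t - 2 * T) ^ 2)) := by
    refine integral_mono hi2.norm (((gauss_int T).add (gauss_int (2 * T))).const_mul _) fun t => ?_
    simp only
    rw [norm_mul, hE, mul_one]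
    exact Fd_norm x y T t hT
  refine h2.trans (le_of_eq ?_)
  rw [integral_const_mul, integral_add (gauss_int T) (gauss_int (2 * T)), gauss_val, gauss_val]
  calc _ = 16 * (Real.sqrt Real.pi * Real.sqrt Real.pi) := by ring
    _ = _ := by rw [Real.mul_self_sqrt Real.pi_pos.le]

/-- the scalar product -/
noncomputable def Gm (T u ℓ ℓ' : ℝ) : ℂ := ∫ t : ℝ, bt T u t ℓ * star (bt T u t ℓ')

lemma Gm_eq (T u ℓ ℓ' : ℝ) : Gm T u ℓ ℓ' =
    ((kap ^ 2 * (Real.exp (-(u - ℓ) ^ 2 / 4) * Real.exp (-(u - ℓ') ^ 2 / 4)) : ℝ) : ℂ) *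
      ∫ t : ℝ, cexp (I * (t * (ℓ' - ℓ : ℝ))) * Fp (u - ℓ) (u - ℓ') T t := by
  unfold Gm
  rw [← integral_const_mul]
  congr 1
  funext t
  rw [bt_fac, bt_fac]
  unfold Fp
  have h1 : star (cexp (I * (t * (u - ℓ')))) = cexp (-(I * (t * (u - ℓ')))) := by
    show (starRingEnd ℂ) _ = _
    rw [← Complex.exp_conj]
    congr 1
    simp only [map_mul, map_sub, Complex.conj_I, Complex.conj_ofReal]
    ring
  have h2 : cexp (I * (t * (u - ℓ))) * cexp (-(I * (t * (u - ℓ')))) =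
      cexp (I * (t * (ℓ' - ℓ : ℝ))) := by
    rw [← Complex.exp_add]
    congr 1
    push_cast
    ring
  have h3 : star (((kap * Real.exp (-(u - ℓ') ^ 2 / 4) : ℝ) : ℂ)) =
      ((kap * Real.exp (-(u - ℓ') ^ 2 / 4) : ℝ) : ℂ) := Complex.conj_ofReal _
  rw [star_mul', star_mul', h1, h3, ← h2]
  push_cast
  ring

lemma Gm_fac (T u ℓ ℓ' : ℝ) : ‖Gm T u ℓ ℓ'‖ ≤
    Real.exp (-(u - ℓ) ^ 2 / 4) * Real.exp (-(u - ℓ') ^ 2 / 4) *
      ‖∫ t : ℝ, cexp (I * (t * (ℓ' - ℓ : ℝ))) * Fp (u - ℓ) (u - ℓ') T t‖ := by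
  rw [Gm_eq, norm_mul, Complex.norm_real, Real.norm_of_nonneg (by positivity)]
  refine mul_le_mul_of_nonneg_right ?_ (norm_nonneg _)
  have h := pow_le_one₀ kap_pos.le kap_le (n := 2)
  exact mul_le_of_le_one_left (by positivity) h

theorem Gm_triv (T u ℓ ℓ' : ℝ) (hT : 0 ≤ T) : ‖Gm T u ℓ ℓ'‖ ≤
    4 * Real.pi * T * (Real.exp (-(u - ℓ) ^ 2 / 4) * Real.exp (-(u - ℓ') ^ 2 / 4)) := by
  refine (Gm_fac T u ℓ ℓ').trans ?_
  have h1 : ‖∫ t : ℝ, cexp (I * (t * (ℓ' - ℓ : ℝ))) * Fp (u - ℓ) (u - ℓ') T t‖ ≤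
      4 * Real.pi * T := by
    have h2 : ‖∫ t : ℝ, cexp (I * (t * (ℓ' - ℓ : ℝ))) * Fp (u - ℓ) (u - ℓ') T t‖ ≤
        ∫ t : ℝ, 4 * Real.pi * wt T t := by
      refine norm_integral_le_of_norm_le ((Cut.wt_integrable T hT).const_mul _)
        (Filter.Eventually.of_forall fun t => ?_)
      have hE : ‖cexp (I * (t * (ℓ' - ℓ : ℝ)))‖ = 1 := by
        have : (I * (t * (ℓ' - ℓ : ℝ)) : ℂ) = ((t * (ℓ' - ℓ) : ℝ) : ℂ) * I := by push_cast; ring
        rw [this, Complex.norm_exp_ofReal_mul_I]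
      rw [norm_mul, hE, one_mul]
      exact Fp_norm _ _ T t hT
    rwa [integral_const_mul, Cut.wt_integral T hT] at h2
  calc _ ≤ Real.exp (-(u - ℓ) ^ 2 / 4) * Real.exp (-(u - ℓ') ^ 2 / 4) * (4 * Real.pi * T) :=
        mul_le_mul_of_nonneg_left h1 (by positivity)
    _ = _ := by ring

theorem Gm_osc (T u ℓ ℓ' : ℝ) (hT : 0 ≤ T) : |ℓ' - ℓ| * ‖Gm T u ℓ ℓ'‖ ≤
    16 * Real.pi * (Real.exp (-(u - ℓ) ^ 2 / 4) * Real.exp (-(u - ℓ') ^ 2 / 4)) := by
  have h1 := mul_le_mul_of_nonneg_left (Gm_fac T u ℓ ℓ') (abs_nonneg (ℓ' - ℓ))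
  refine h1.trans ?_
  have h2 := osc (u - ℓ) (u - ℓ') T (ℓ' - ℓ) hT
  calc _ = Real.exp (-(u - ℓ) ^ 2 / 4) * Real.exp (-(u - ℓ') ^ 2 / 4) * (|ℓ' - ℓ| *
      ‖∫ t : ℝ, cexp (I * (t * (ℓ' - ℓ : ℝ))) * Fp (u - ℓ) (u - ℓ') T t‖) := by ring
    _ ≤ Real.exp (-(u - ℓ) ^ 2 / 4) * Real.exp (-(u - ℓ') ^ 2 / 4) * (16 * Real.pi) :=
        mul_le_mul_of_nonneg_left h2 (by positivity)
    _ = _ := by ring

end Pool.Agent.T4h70.LB
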