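import Pool.Agent.T4h70.LB.Par

/-!
# The mean square data for pairs with shifts
-/

set_option autoImplicit false
set_option maxHeartbeats 4000000

open Complex Filter Topology Set MeasureTheory

namespace Pool.Agent.T4h70.LB

open H385
open Pool.Agent.R321.RC (cf cf_norm PS w2 w2_nonneg avg2)

/-- the mean square data for the pairs with shifts -/
theorem HY_pairsS (V0 γ β c' : ℝ) (hV : 0 ≤ V0) (h0 : 0 < γ) (hπ : γ < Real.pi) (hβ1 : 1 < β)
    (hβ2 : β < 2) (hc' : 0 ≤ c') (H : HY γ β c') (ε : ℝ) (hε : 0 < ε) :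
    ∃ K η X0 : ℝ, 1 ≤ K ∧ 0 < η ∧ 1 ≤ X0 ∧
  ∀ (X Y : ℕ) (T : ℝ) (v : IX × IX → ℝ), X0 ≤ X → K * X ≤ Y → (Y : ℝ) ≤ (X : ℝ) ^ (1 + η) →
    (Real.log X) ^ 2 ≤ T → T ≤ (X : ℝ) ^ η → (∀ z, |v z| ≤ V0) →
  1 ≤ WW X Y ∧ ∃ (Yf : ℝ → ℝ) (y1 y2 : ℝ), 0 ≤ y1 ∧ 0 ≤ y2 ∧
    (∀ u ∈ Set.Icc 0 (β * Real.log X), ∫ t : ℝ, ∑ z ∈ PS X Y, w2 z *
      ‖∑' n : ℕ, (cp z.1 (an (v z)) n + cp z.2 (bn (v z)) n) *
        ((Real.sqrt n : ℂ)⁻¹ * bt T u t (Real.log n))‖ ^ 2 ≤ Yf u) ∧
    (∀ u ∈ Set.Icc 0 (β * Real.log X), Yf u ≤ T * (y1 * (u + 1) + y2)) ∧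
    IntervalIntegrable Yf volume 0 (β * Real.log X) ∧
    (2 / (Real.sqrt Real.pi * (β * Real.log X))) * (∫ u in (0 : ℝ)..(β * Real.log X),
      Rw γ (u / (β * Real.log X)) * Yf u) ≤
      T / (2 * Real.pi) * Real.log X * (WW X Y ^ 2) * (2 * c' + ε) ∧
    Real.sqrt y1 + Real.sqrt y2 ≤ ε * Real.log X * Real.sqrt (WW X Y ^ 2) := by
  have hpi := Real.pi_pos
  have hβ : 0 < β := by linarith
  obtain ⟨R0, hR0⟩ : ∃ R0, R0 = Rw γ 0 := ⟨_, rfl⟩
  have hR0n : 0 ≤ R0 := by rw [hR0]; exact Rw_nonneg γ h0 hπ 0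
  obtain ⟨e, he0, he1, he2, he3, he4⟩ : ∃ e : ℝ, 0 < e ∧ e ≤ 1 ∧ e ≤ ε ^ 2 / 4 ∧
      e * (2 * c' + ε / 4) ≤ ε / 4 ∧ 4 * Real.pi * R0 * e ≤ ε / 2 := by
    refine ⟨min (min 1 (ε ^ 2 / 4)) (min (ε / 4 / (2 * c' + ε / 4))
      (ε / 2 / (4 * Real.pi * (R0 + 1)))), ?_, ?_, ?_, ?_, ?_⟩
    · exact lt_min (lt_min one_pos (by positivity)) (lt_min (by positivity) (by positivity))
    · exact (min_le_left _ _).trans (min_le_left _ _)
    · exact (min_le_left _ _).trans (min_le_right _ _)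
    · have h1 : min (min 1 (ε ^ 2 / 4)) (min (ε / 4 / (2 * c' + ε / 4))
        (ε / 2 / (4 * Real.pi * (R0 + 1)))) ≤ ε / 4 / (2 * c' + ε / 4) :=
        (min_le_right _ _).trans (min_le_left _ _)
      rwa [le_div_iff₀ (by positivity)] at h1
    · have h1 : min (min 1 (ε ^ 2 / 4)) (min (ε / 4 / (2 * c' + ε / 4))
        (ε / 2 / (4 * Real.pi * (R0 + 1)))) ≤ ε / 2 / (4 * Real.pi * (R0 + 1)) :=
        (min_le_right _ _).trans (min_le_right _ _)
      have h2 : 0 < min (min 1 (ε ^ 2 / 4)) (min (ε / 4 / (2 * c' + ε / 4))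
        (ε / 2 / (4 * Real.pi * (R0 + 1)))) :=
        lt_min (lt_min one_pos (by positivity)) (lt_min (by positivity) (by positivity))
      rw [le_div_iff₀ (by positivity)] at h1
      have h3 : 0 < Real.pi * min (min 1 (ε ^ 2 / 4)) (min (ε / 4 / (2 * c' + ε / 4))
        (ε / 2 / (4 * Real.pi * (R0 + 1)))) := mul_pos hpi h2
      nlinarith
  obtain ⟨K1, X1, hK1, hX1, hms⟩ := ms_param V0 β e hV hβ2 he0 he1
  obtain ⟨C4, hC4, hmass⟩ := prim_mass
  obtain ⟨K, η, X0, hK, hη, hX0, hmain⟩ := H (ε / 8) (by positivity)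
  have hc0 : 0 < c0 := by unfold c0; positivity
  refine ⟨max (max K K1) (Real.exp ((C4 + 1) / c0 ^ 2)), η, max (max X0 X1) (Real.exp 1),
    le_max_of_le_left (le_max_of_le_left hK), hη, le_max_of_le_left (le_max_of_le_left hX0), ?_⟩
  intro X Y T v hX hKX hYX hT1 hT2 hv
  have hXX0 : X0 ≤ X := (le_max_left _ _).trans ((le_max_left _ _).trans hX)
  have hXX1 : X1 ≤ X := (le_max_right _ _).trans ((le_max_left _ _).trans hX)
  have hXe : Real.exp 1 ≤ X := (le_max_right _ _).trans hX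
  have hXr1 : (1 : ℝ) ≤ X := hX0.trans hXX0
  have hXpos : (0 : ℝ) < X := by linarith
  have hXn : 1 ≤ X := by exact_mod_cast hXr1
  have hKXa : K * X ≤ Y :=
    (mul_le_mul_of_nonneg_right ((le_max_left _ _).trans (le_max_left _ _)) hXpos.le).trans hKX
  have hKXb : K1 * X ≤ Y :=
    (mul_le_mul_of_nonneg_right ((le_max_right _ _).trans (le_max_left _ _)) hXpos.le).trans hKX
  have hKXc : Real.exp ((C4 + 1) / c0 ^ 2) * X ≤ Y :=
    (mul_le_mul_of_nonneg_right (le_max_right _ _) hXpos.le).trans hKX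
  have hXYr : (X : ℝ) ≤ Y := NL.b11 hXpos.le hK hKXa
  have hXY : X ≤ Y := by exact_mod_cast hXYr
  have hYpos : (0 : ℝ) < Y := by linarith
  obtain ⟨L, hL⟩ : ∃ L, L = Real.log X := ⟨_, rfl⟩
  have hL1 : 1 ≤ L := by rw [hL, Real.le_log_iff_exp_le hXpos]; exact hXe
  have hLp : 0 < L := by linarith
  obtain ⟨W, hW⟩ : ∃ W, W = WW X Y := ⟨_, rfl⟩
  have hW1 : 1 ≤ W := by
    rw [hW]
    have h1 := (abs_le.1 (hmass X Y hXn hXY)).1
    have h2 : (C4 + 1) / c0 ^ 2 ≤ Real.log ((Y : ℝ) / X) := by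
      rw [Real.le_log_iff_exp_le (by positivity), le_div_iff₀ hXpos]
      exact hKXc
    rw [div_le_iff₀ (by positivity)] at h2
    have h3 : primFam X Y (fun _ _ => 1) = WW X Y := rfl
    rw [h3] at h1
    have h4 : c0 ^ 2 * Real.log ((Y : ℝ) / X) = Real.log ((Y : ℝ) / X) * c0 ^ 2 := mul_comm _ _
    linarith
  have hW0 : 0 < W := by linarith
  obtain ⟨Yf, y1, y2, hy1, hy2, m1, m2, m3, m4, m5⟩ := hmain X Y T hXX0 hKXa hYX hT1 hT2
  rw [← hL] at hT1 m1 m2 m3 m4 m5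
  rw [← hW] at m4 m5
  rw [← hL, ← hW]
  have hT0 : 1 ≤ T := le_trans (one_le_pow₀ hL1) hT1
  have hTp : 0 < T := by linarith
  refine ⟨hW1, fun u => (1 + e) * (2 * W * Yf u) + e * (T * L * W ^ 2),
    (1 + e) * (2 * W) * y1, (1 + e) * (2 * W) * y2 + e * (L * W ^ 2), by positivity,
    by positivity, ?_, ?_, ?_, ?_, ?_⟩
  · intro u hu
    have h1 := hms X Y T u (Yf u) v hXX1 hKXb (by rw [← hL]; exact hT1) hu.1
      (by rw [← hL]; exact hu.2) hv (m1 u hu)
    rw [← hL, ← hW] at h1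
    exact h1
  · intro u hu
    have b1 := mul_le_mul_of_nonneg_left (m2 u hu) (by positivity : 0 ≤ (1 + e) * (2 * W))
    simp only
    calc _ = (1 + e) * (2 * W) * Yf u + e * (T * L * W ^ 2) := by ring
      _ ≤ (1 + e) * (2 * W) * (T * (y1 * (u + 1) + y2)) + e * (T * L * W ^ 2) :=
          add_le_add b1 le_rfl
      _ = _ := by ring
  · exact ((m3.const_mul (2 * W)).const_mul (1 + e)).add (by simp)
  · have hβL : 0 < β * L := by positivity
    have hRc : Continuous (fun u : ℝ => Rw γ (u / (β * L))) :=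
      (Rw_cont γ h0 hπ).comp (continuous_id.div_const _)
    have i1 : IntervalIntegrable (fun u => Rw γ (u / (β * L)) * Yf u) volume 0 (β * L) :=
      m3.continuousOn_mul hRc.continuousOn
    have i2 : IntervalIntegrable (fun u => Rw γ (u / (β * L)) *
        (e * (T * L * W ^ 2))) volume 0 (β * L) :=
      (hRc.mul continuous_const).intervalIntegrable _ _
    have e1 : ∫ u in (0 : ℝ)..(β * L), Rw γ (u / (β * L)) *
        ((1 + e) * (2 * W * Yf u) + e * (T * L * W ^ 2)) =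
        (1 + e) * (2 * W) * (∫ u in (0 : ℝ)..(β * L), Rw γ (u / (β * L)) * Yf u) +
        ∫ u in (0 : ℝ)..(β * L), Rw γ (u / (β * L)) * (e * (T * L * W ^ 2)) := by
      rw [← intervalIntegral.integral_const_mul,
        ← intervalIntegral.integral_add (i1.const_mul _) i2]
      exact intervalIntegral.integral_congr fun u _ => by ring
    rw [e1, mul_add]
    have g1 : (2 / (Real.sqrt Real.pi * (β * L))) *
        ((1 + e) * (2 * W) * (∫ u in (0 : ℝ)..(β * L), Rw γ (u / (β * L)) * Yf u)) ≤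
        T / (2 * Real.pi) * L * W ^ 2 * (2 * c' + ε / 2) := by
      have := mul_le_mul_of_nonneg_left m4 (show 0 ≤ (1 + e) * (2 * W) by positivity)
      have h5 : (1 + e) * (2 * c' + ε / 4) ≤ 2 * c' + ε / 2 := by linarith
      calc _ = (1 + e) * (2 * W) * ((2 / (Real.sqrt Real.pi * (β * L))) *
          (∫ u in (0 : ℝ)..(β * L), Rw γ (u / (β * L)) * Yf u)) := by ring
        _ ≤ (1 + e) * (2 * W) * (T / (2 * Real.pi) * L * W * (c' + ε / 8)) := this
        _ = T / (2 * Real.pi) * L * W ^ 2 * ((1 + e) * (2 * c' + ε / 4)) := by ring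
        _ ≤ _ := mul_le_mul_of_nonneg_left h5 (by positivity)
    have g2 : ∫ u in (0 : ℝ)..(β * L), Rw γ (u / (β * L)) * (e * (T * L * W ^ 2)) ≤
        ∫ _ in (0 : ℝ)..(β * L), R0 * (e * (T * L * W ^ 2)) := by
      refine intervalIntegral.integral_mono_on hβL.le i2 (continuous_const.intervalIntegrable _ _)
        fun u hu => ?_
      refine mul_le_mul_of_nonneg_right ?_ (by positivity)
      rw [hR0]
      exact Rw_le γ h0 hπ _ (div_nonneg hu.1 hβL.le)
    rw [intervalIntegral.integral_const, smul_eq_mul, sub_zero] at g2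
    have hs1 : 1 ≤ Real.sqrt Real.pi := by
      rw [Real.one_le_sqrt]; linarith [Real.pi_gt_three]
    have g3 : (2 / (Real.sqrt Real.pi * (β * L))) * (∫ u in (0 : ℝ)..(β * L),
        Rw γ (u / (β * L)) * (e * (T * L * W ^ 2))) ≤ T / (2 * Real.pi) * L * W ^ 2 * (ε / 2) := by
      calc _ ≤ (2 / (Real.sqrt Real.pi * (β * L))) * (β * L * (R0 * (e * (T * L * W ^ 2)))) :=
            mul_le_mul_of_nonneg_left g2 (by positivity)
        _ = 2 / Real.sqrt Real.pi * (R0 * (e * (T * L * W ^ 2))) := by field_simp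
        _ ≤ 2 * (R0 * (e * (T * L * W ^ 2))) := by
            refine mul_le_mul_of_nonneg_right (div_le_self (by norm_num) hs1) (by positivity)
        _ = T / (2 * Real.pi) * L * W ^ 2 * (4 * Real.pi * R0 * e) := by
            field_simp
            ring
        _ ≤ _ := mul_le_mul_of_nonneg_left he4 (by positivity)
    calc _ ≤ T / (2 * Real.pi) * L * W ^ 2 * (2 * c' + ε / 2) +
          T / (2 * Real.pi) * L * W ^ 2 * (ε / 2) := add_le_add g1 g3
      _ = _ := by ring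
  · have s1 : Real.sqrt (W ^ 2) = W := Real.sqrt_sq hW0.le
    rw [s1]
    obtain ⟨P, hP⟩ : ∃ P, P = (1 + e) * (2 * W) := ⟨_, rfl⟩
    have hP0 : 0 ≤ P := by rw [hP]; positivity
    have hP4 : P ≤ 4 * W := by rw [hP]; nlinarith
    rw [← hP]
    have s2 : Real.sqrt (P * y1) = Real.sqrt P * Real.sqrt y1 := Real.sqrt_mul hP0 _
    have s3 : Real.sqrt (P * y2 + e * (L * W ^ 2)) ≤
        Real.sqrt P * Real.sqrt y2 + Real.sqrt (e * (L * W ^ 2)) := by
      refine (sqrt_add_le' _ _ (by positivity) (by positivity)).trans (le_of_eq ?_)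
      rw [Real.sqrt_mul hP0]
    have s4 : Real.sqrt P * (Real.sqrt y1 + Real.sqrt y2) ≤
        Real.sqrt P * (ε / 8 * L * Real.sqrt W) :=
      mul_le_mul_of_nonneg_left m5 (Real.sqrt_nonneg _)
    have s5 : Real.sqrt P * Real.sqrt W ≤ 2 * W := by
      rw [← Real.sqrt_mul hP0, Real.sqrt_le_left (by positivity)]
      nlinarith
    have s6 : Real.sqrt (e * (L * W ^ 2)) ≤ ε / 2 * L * W := by
      rw [Real.sqrt_le_left (by positivity)]
      have h7 : L ≤ L ^ 2 := by nlinarith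
      calc e * (L * W ^ 2) ≤ (ε ^ 2 / 4) * (L ^ 2 * W ^ 2) := by gcongr
        _ = _ := by ring
    have s7 : Real.sqrt P * (ε / 8 * L * Real.sqrt W) ≤ ε / 4 * L * W := by
      calc _ = ε / 8 * L * (Real.sqrt P * Real.sqrt W) := by ring
        _ ≤ ε / 8 * L * (2 * W) := mul_le_mul_of_nonneg_left s5 (by positivity)
        _ = _ := by ring
    rw [s2]
    have h8 : 0 ≤ ε * L * W := by positivity
    nlinarith

end Pool.Agent.T4h70.LB
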