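import Pool.Agent.R321.RC7
import Pool.Agent.T4h70.LI.Shift

/-!
# The large sieve for primitive characters, finite sums of length at most `X ^ 2`
-/

set_option autoImplicit false
set_option maxHeartbeats 4000000

open Complex Filter Topology Set MeasureTheory

namespace Pool.Agent.T4h70.LB

open H385

lemma inv_prim {q : ℕ} {χ : DirichletCharacter ℂ q} (h : χ.IsPrimitive) : χ⁻¹.IsPrimitive := by
  rw [DirichletCharacter.isPrimitive_def, DirichletCharacter.conductor_inv]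
  exact h

lemma tau_mul_prim {q : ℕ} [NeZero q] {χ : DirichletCharacter ℂ q} (hχ : χ.IsPrimitive) (N : ℕ)
    (a : ℕ → ℂ) :
    tau q χ⁻¹ * ∑ n ∈ Finset.Icc 1 N, a n * χ (n : ZMod q) =
      ∑ z : ZMod q, χ⁻¹ z * ∑ n ∈ Finset.Icc 1 N, a n * ZMod.stdAddChar ((n : ZMod q) * z) := by
  have h1 : ∑ z : ZMod q, χ⁻¹ z * ∑ n ∈ Finset.Icc 1 N, a n *
      ZMod.stdAddChar ((n : ZMod q) * z) =
      ∑ n ∈ Finset.Icc 1 N, a n * ∑ z : ZMod q, χ⁻¹ z *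
        (ZMod.stdAddChar : AddChar (ZMod q) ℂ) ((n : ZMod q) * z) := by
    simp only [Finset.mul_sum]
    rw [Finset.sum_comm]
    apply Finset.sum_congr rfl
    intro n _
    apply Finset.sum_congr rfl
    intro z _
    ring
  rw [h1, Finset.mul_sum]
  apply Finset.sum_congr rfl
  intro n _
  have h2 : ∑ z : ZMod q, χ⁻¹ z * (ZMod.stdAddChar : AddChar (ZMod q) ℂ) ((n : ZMod q) * z) =
      gaussSum χ⁻¹ ((ZMod.stdAddChar : AddChar (ZMod q) ℂ).mulShift (n : ZMod q)) := by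
    unfold gaussSum
    apply Finset.sum_congr rfl
    intro z _
    rw [AddChar.mulShift_apply]
  rw [h2, gaussSum_mulShift_of_isPrimitive _ (inv_prim hχ), inv_inv, tau_eq]
  ring

/-- one modulus -/
lemma ls_q (q : ℕ) [NeZero q] (S : Finset (DirichletCharacter ℂ q))
    (hS : ∀ χ ∈ S, χ.IsPrimitive) (N : ℕ) (a : ℕ → ℂ) :
    ∑ χ ∈ S, ‖∑ n ∈ Finset.Icc 1 N, a n * χ (n : ZMod q)‖ ^ 2 ≤
      ∑ b ∈ (Finset.range q).filter (fun b => Nat.Coprime b q), ‖SS N a ((b : ℝ) / q)‖ ^ 2 := by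
  classical
  have hq0 : (0 : ℝ) < q := Nat.cast_pos.mpr (NeZero.pos q)
  have h1 : ∀ χ ∈ S, (q : ℝ) * ‖∑ n ∈ Finset.Icc 1 N, a n * χ (n : ZMod q)‖ ^ 2 =
      ‖∑ z : ZMod q, χ⁻¹ z * ∑ n ∈ Finset.Icc 1 N, a n *
        ZMod.stdAddChar ((n : ZMod q) * z)‖ ^ 2 := by
    intro χ hχ
    rw [← tau_mul_prim (hS χ hχ) N a, norm_mul, mul_pow, tau_primitive q _ (inv_prim (hS χ hχ))]
  have h2 : (q : ℝ) * ∑ χ ∈ S, ‖∑ n ∈ Finset.Icc 1 N, a n * χ (n : ZMod q)‖ ^ 2 ≤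
      Nat.totient q * ∑ b ∈ (Finset.range q).filter (fun b => Nat.Coprime b q),
        ‖SS N a ((b : ℝ) / q)‖ ^ 2 := by
    rw [Finset.mul_sum, Finset.sum_congr rfl h1]
    simp only [SS_eq]
    rw [sum_coprime_eq (fun z => ‖∑ n ∈ Finset.Icc 1 N, a n *
      ZMod.stdAddChar ((n : ZMod q) * z)‖ ^ 2), ← H385.parseval]
    exact Finset.sum_le_sum_of_subset_of_nonneg (Finset.subset_univ _)
      fun χ _ _ => sq_nonneg _
  have hφq : (Nat.totient q : ℝ) ≤ q := Nat.cast_le.mpr (Nat.totient_le q)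
  have h3 : 0 ≤ ∑ b ∈ (Finset.range q).filter (fun b => Nat.Coprime b q),
      ‖SS N a ((b : ℝ) / q)‖ ^ 2 := Finset.sum_nonneg fun _ _ => sq_nonneg _
  have h4 := h2.trans (mul_le_mul_of_nonneg_right hφq h3)
  exact le_of_mul_le_mul_left h4 hq0

/-- **The large sieve.** -/
theorem ls_main : ∃ C : ℝ, 1 ≤ C ∧ ∀ (X Y N : ℕ) (a : ℕ → ℂ), 1 ≤ X → X ≤ Y →
    (N : ℝ) ≤ (X : ℝ) ^ 2 →
    ∑ p ∈ primSet X Y, (1 / (p.1 : ℝ) ^ 2) *
      ‖∑ n ∈ Finset.Icc 1 N, a n * p.2 (n : ZMod p.1)‖ ^ 2 ≤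
    C * (Real.log ((Y : ℝ) / X) + 1) * ∑ n ∈ Finset.Icc 1 N, ‖a n‖ ^ 2 := by
  obtain ⟨C, hC, h⟩ := farey_large_sieve
  have hc01 : c0 ≤ 1 := Farey.c0_le_one
  refine ⟨Real.exp Real.pi * (1 + C), ?_, fun X Y N a hX hXY hN => ?_⟩
  · have h1 : 1 ≤ Real.exp Real.pi := Real.one_le_exp Real.pi_pos.le
    exact one_le_mul_of_one_le_of_one_le h1 (by linarith)
  have hX1 : (1 : ℝ) ≤ X := by exact_mod_cast hX
  have hX0 : (0 : ℝ) < X := by linarith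
  have hlog : 0 ≤ Real.log ((Y : ℝ) / X) := by
    apply Real.log_nonneg
    rw [le_div_iff₀ hX0, one_mul]
    exact_mod_cast hXY
  have h1 := h X Y N ((X : ℝ) ^ 2) a hX hXY (one_le_pow₀ hX1) le_rfl
  have hG : 0 ≤ ∑ n ∈ Finset.Icc 1 N, ‖a n‖ ^ 2 := Finset.sum_nonneg fun _ _ => sq_nonneg _
  have h2 : Real.exp (Real.pi * N / (X : ℝ) ^ 2) ≤ Real.exp Real.pi := by
    apply Real.exp_le_exp.2
    rw [div_le_iff₀ (by positivity)]
    exact mul_le_mul_of_nonneg_left hN Real.pi_pos.le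
  have h3 : c0 * Real.log ((Y : ℝ) / X) + C ≤ (1 + C) * (Real.log ((Y : ℝ) / X) + 1) := by
    have := mul_le_mul_of_nonneg_right hc01 hlog
    nlinarith
  have h4 : ∑ p ∈ primSet X Y, (1 / (p.1 : ℝ) ^ 2) *
      ‖∑ n ∈ Finset.Icc 1 N, a n * p.2 (n : ZMod p.1)‖ ^ 2 ≤
      ∑ q ∈ Finset.Ioc X Y, (1 / (q : ℝ) ^ 2) *
      ∑ b ∈ (Finset.range q).filter (fun b => Nat.Coprime b q), ‖SS N a ((b : ℝ) / q)‖ ^ 2 := by
    unfold primSet
    rw [Finset.sum_sigma]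
    refine Finset.sum_le_sum fun q hq => ?_
    have hq0 : q ≠ 0 := by
      have := (Finset.mem_Ioc.mp hq).1
      omega
    have : NeZero q := ⟨hq0⟩
    rw [dif_pos hq0]
    simp only
    rw [← Finset.mul_sum]
    refine mul_le_mul_of_nonneg_left (ls_q q _ (fun χ hχ => ?_) N a) (by positivity)
    simpa using hχ
  refine h4.trans (h1.trans ?_)
  refine mul_le_mul_of_nonneg_right ?_ hG
  have h5 : 0 ≤ c0 * Real.log ((Y : ℝ) / X) + C := by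
    have : 0 ≤ c0 := by unfold c0; positivity
    positivity
  calc _ ≤ Real.exp Real.pi * ((1 + C) * (Real.log ((Y : ℝ) / X) + 1)) :=
        mul_le_mul h2 h3 h5 (Real.exp_pos _).le
    _ = _ := by ring

end Pool.Agent.T4h70.LB
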