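import Pool.Agent.T4h70.LB.Sch

/-!
# The row sums of the Gram matrix
-/

set_option autoImplicit false
set_option maxHeartbeats 4000000

open Complex Filter Topology Set MeasureTheory

namespace Pool.Agent.T4h70.LB

open H385

/-- the weights -/
noncomputable def wn (n : ℕ) : ℝ := (ArithmeticFunction.vonMangoldt n) ^ 2 / n

lemma wn_nonneg (n : ℕ) : 0 ≤ wn n := by unfold wn; positivity

lemma abs_le_exp (x : ℝ) : |x| ≤ 2 * Real.exp (x ^ 2 / 8) := by
  have h1 := Real.add_one_le_exp (x ^ 2 / 8)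
  have h2 : |x| ≤ 2 * (x ^ 2 / 8 + 1) := by
    have h3 : |x| ^ 2 = x ^ 2 := sq_abs x
    nlinarith [sq_nonneg (|x| / 2 - 1)]
  linarith

lemma one_add_sq_le_exp (x : ℝ) : 1 + x ^ 2 ≤ 4 * Real.exp (x ^ 2 / 4) := by
  have h1 := Real.add_one_le_exp (x ^ 2 / 4)
  linarith [sq_nonneg x]

/-- `∑ Λ(n)² / n` against a wide Gaussian -/
theorem lam_wide : ∃ C : ℝ, 0 < C ∧ ∀ (u : ℝ) (N : ℕ), 0 ≤ u →
    ∑ m ∈ Finset.Icc 1 N, wn m * Real.exp (-(u - Real.log m) ^ 2 / 4) ≤ C * (u + 1) := by
  obtain ⟨C, hC, h⟩ := lam_one_gen (1 / 8) (by norm_num)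
  refine ⟨2 * C, by positivity, fun u N hu => ?_⟩
  obtain ⟨hs, hb⟩ := h u
  have hterm : ∀ m ∈ Finset.Icc 1 N, wn m * Real.exp (-(u - Real.log m) ^ 2 / 4) ≤
      (u + 2) * (ArithmeticFunction.vonMangoldt m / m *
        Real.exp (-(1 / 8) * (u - Real.log m) ^ 2)) := by
    intro m hm
    have hm1 : 1 ≤ m := (Finset.mem_Icc.1 hm).1
    have hm0 : (0 : ℝ) < m := by exact_mod_cast hm1
    obtain ⟨x, hx⟩ : ∃ x, x = u - Real.log m := ⟨_, rfl⟩
    have hΛ : ArithmeticFunction.vonMangoldt m ≤ u + |x| := by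
      have h1 : ArithmeticFunction.vonMangoldt m ≤ Real.log m :=
        ArithmeticFunction.vonMangoldt_le_log
      have h2 := neg_abs_le x
      rw [hx] at h2 ⊢
      linarith
    have hΛ0 : 0 ≤ ArithmeticFunction.vonMangoldt m := ArithmeticFunction.vonMangoldt_nonneg
    have e1 : Real.exp (-x ^ 2 / 4) = Real.exp (-(1 / 8) * x ^ 2) * Real.exp (-(x ^ 2 / 8)) := by
      rw [← Real.exp_add]; congr 1; ring
    have h3 : (u + |x|) * Real.exp (-(x ^ 2 / 8)) ≤ u + 2 := by
      have h4 : u * Real.exp (-(x ^ 2 / 8)) ≤ u * 1 := by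
        refine mul_le_mul_of_nonneg_left ?_ hu
        rw [Real.exp_le_one_iff]
        linarith [sq_nonneg x]
      have h5 : |x| * Real.exp (-(x ^ 2 / 8)) ≤ 2 := by
        have h6 := mul_le_mul_of_nonneg_right (abs_le_exp x) (Real.exp_pos (-(x ^ 2 / 8))).le
        rwa [mul_assoc, ← Real.exp_add, add_neg_cancel, Real.exp_zero, mul_one] at h6
      linarith
    rw [← hx, e1]
    unfold wn
    calc (ArithmeticFunction.vonMangoldt m) ^ 2 / m *
          (Real.exp (-(1 / 8) * x ^ 2) * Real.exp (-(x ^ 2 / 8)))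
        = (ArithmeticFunction.vonMangoldt m / m * Real.exp (-(1 / 8) * x ^ 2)) *
          (ArithmeticFunction.vonMangoldt m * Real.exp (-(x ^ 2 / 8))) := by ring
      _ ≤ (ArithmeticFunction.vonMangoldt m / m * Real.exp (-(1 / 8) * x ^ 2)) * (u + 2) := by
          refine mul_le_mul_of_nonneg_left ?_ (by positivity)
          exact (mul_le_mul_of_nonneg_right hΛ (Real.exp_pos _).le).trans h3
      _ = _ := by ring
  refine (Finset.sum_le_sum hterm).trans ?_
  rw [← Finset.mul_sum]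
  have h1 : ∑ m ∈ Finset.Icc 1 N, ArithmeticFunction.vonMangoldt m / m *
      Real.exp (-(1 / 8) * (u - Real.log m) ^ 2) ≤ C := by
    refine le_trans (hs.sum_le_tsum _ fun m _ => ?_) hb
    have := @ArithmeticFunction.vonMangoldt_nonneg m
    positivity
  calc _ ≤ (u + 2) * C := mul_le_mul_of_nonneg_left h1 (by linarith)
    _ ≤ _ := by nlinarith

/-- the integers near `n` on the logarithmic scale -/
lemma near_count (n N : ℕ) (hn : 1 ≤ n) {δ : ℝ} (h0 : 0 < δ) (h1 : δ ≤ 1) :
    (((Finset.Icc 1 N).filter (fun m : ℕ => |Real.log m - Real.log n| ≤ δ)).card : ℝ) ≤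
      3 * δ * n + 1 := by
  have hn0 : (0 : ℝ) < n := by exact_mod_cast hn
  have hexp : Real.exp δ ≤ 1 + 2 * δ := by
    have h2 := Real.abs_exp_sub_one_sub_id_le (x := δ) (by rw [abs_of_pos h0]; exact h1)
    have h3 := (abs_le.1 h2).2
    nlinarith
  have hexp2 : 1 - δ ≤ Real.exp (-δ) := by
    have := Real.add_one_le_exp (-δ)
    linarith
  have hsub : (Finset.Icc 1 N).filter (fun m : ℕ => |Real.log m - Real.log n| ≤ δ) ⊆
      Finset.Icc ⌈(n : ℝ) * (1 - δ)⌉₊ ⌊(n : ℝ) * (1 + 2 * δ)⌋₊ := by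
    intro m hm
    rw [Finset.mem_filter, Finset.mem_Icc] at hm
    obtain ⟨⟨hm1, -⟩, hm2⟩ := hm
    have hm0 : (0 : ℝ) < m := by exact_mod_cast hm1
    obtain ⟨h3, h4⟩ := abs_le.1 hm2
    rw [Finset.mem_Icc]
    constructor
    · rw [Nat.ceil_le]
      have h5 : Real.log n - δ ≤ Real.log m := by linarith
      have h6 := Real.exp_le_exp.2 h5
      rw [Real.exp_sub, Real.exp_log hn0, Real.exp_log hm0] at h6
      refine le_trans ?_ h6
      rw [div_eq_mul_inv, ← Real.exp_neg]
      exact mul_le_mul_of_nonneg_left hexp2 hn0.le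
    · rw [Nat.le_floor_iff (by positivity)]
      have h5 : Real.log m ≤ Real.log n + δ := by linarith
      have h6 := Real.exp_le_exp.2 h5
      rw [Real.exp_add, Real.exp_log hn0, Real.exp_log hm0] at h6
      exact h6.trans (mul_le_mul_of_nonneg_left hexp hn0.le)
  have hcard := Finset.card_le_card hsub
  rw [Nat.card_Icc] at hcard
  have h7 : (((Finset.Icc 1 N).filter (fun m : ℕ => |Real.log m - Real.log n| ≤ δ)).card : ℝ) ≤
      ((⌊(n : ℝ) * (1 + 2 * δ)⌋₊ + 1 - ⌈(n : ℝ) * (1 - δ)⌉₊ : ℕ) : ℝ) := by exact_mod_cast hcard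
  refine h7.trans ?_
  rcases le_total ⌈(n : ℝ) * (1 - δ)⌉₊ (⌊(n : ℝ) * (1 + 2 * δ)⌋₊ + 1) with h | h
  · rw [Nat.cast_sub h]
    have h8 : ((⌊(n : ℝ) * (1 + 2 * δ)⌋₊ : ℕ) : ℝ) ≤ (n : ℝ) * (1 + 2 * δ) :=
      Nat.floor_le (by positivity)
    have h9 : (n : ℝ) * (1 - δ) ≤ ((⌈(n : ℝ) * (1 - δ)⌉₊ : ℕ) : ℝ) := Nat.le_ceil _
    push_cast
    nlinarith
  · rw [Nat.sub_eq_zero_of_le h]
    rw [Nat.cast_zero]
    positivity

/-- **The row sums.** -/
theorem row_sum : ∃ C : ℝ, 0 < C ∧ ∀ (N n : ℕ) (T u δ : ℝ), 1 ≤ n → 1 ≤ N → 0 ≤ T → 0 ≤ u →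
    0 < δ → δ ≤ 1 →
    ∑ m ∈ Finset.Icc 1 N, wn m * ‖Gm T u (Real.log n) (Real.log m)‖ ≤
      C * (T * (Real.log N) ^ 2 * (δ + Real.exp (-u)) + (u + 1) / δ) ∧
    ∑ m ∈ Finset.Icc 1 N, wn m * ‖Gm T u (Real.log n) (Real.log m)‖ ≤ C * (T * (u + 1)) := by
  obtain ⟨C, hC, h⟩ := lam_wide
  refine ⟨36 * Real.pi + 4 * Real.pi * Real.exp 1 + 16 * Real.pi * C, by positivity,
    fun N n T u δ hn hN hT hu h0 h1 => ?_⟩
  have hpi := Real.pi_pos
  have hn0 : (0 : ℝ) < n := by exact_mod_cast hn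
  have hG := h u N hu
  have he1 : ∀ x : ℝ, Real.exp (-x ^ 2 / 4) ≤ 1 := fun x => by
    rw [Real.exp_le_one_iff]; nlinarith [sq_nonneg x]
  have htriv : ∀ m : ℕ, ‖Gm T u (Real.log n) (Real.log m)‖ ≤
      4 * Real.pi * T * Real.exp (-(u - Real.log m) ^ 2 / 4) := by
    intro m
    refine (Gm_triv T u (Real.log n) (Real.log m) hT).trans ?_
    refine mul_le_mul_of_nonneg_left ?_ (by positivity)
    exact mul_le_of_le_one_left (Real.exp_pos _).le (he1 _)
  constructor
  · have hfar : ∀ m : ℕ, δ < |Real.log m - Real.log n| → ‖Gm T u (Real.log n) (Real.log m)‖ ≤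
        16 * Real.pi / δ * Real.exp (-(u - Real.log m) ^ 2 / 4) := by
      intro m hm
      have h2 := Gm_osc T u (Real.log n) (Real.log m) hT
      have h3 : δ * ‖Gm T u (Real.log n) (Real.log m)‖ ≤
          16 * Real.pi * Real.exp (-(u - Real.log m) ^ 2 / 4) := by
        calc _ ≤ |Real.log m - Real.log n| * ‖Gm T u (Real.log n) (Real.log m)‖ :=
              mul_le_mul_of_nonneg_right hm.le (norm_nonneg _)
          _ ≤ _ := h2
          _ ≤ _ := by
              refine mul_le_mul_of_nonneg_left ?_ (by positivity)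
              exact mul_le_of_le_one_left (Real.exp_pos _).le (he1 _)
      rw [div_mul_eq_mul_div, le_div_iff₀ h0, mul_comm]
      exact h3
    rw [← Finset.sum_filter_add_sum_filter_not (Finset.Icc 1 N)
      (fun m : ℕ => |Real.log m - Real.log n| ≤ δ)]
    have hB : ∑ m ∈ (Finset.Icc 1 N).filter (fun m : ℕ => ¬ |Real.log m - Real.log n| ≤ δ),
        wn m * ‖Gm T u (Real.log n) (Real.log m)‖ ≤ 16 * Real.pi / δ * (C * (u + 1)) := by
      calc _ ≤ ∑ m ∈ (Finset.Icc 1 N).filter (fun m : ℕ => ¬ |Real.log m - Real.log n| ≤ δ),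
            16 * Real.pi / δ * (wn m * Real.exp (-(u - Real.log m) ^ 2 / 4)) := by
            refine Finset.sum_le_sum fun m hm => ?_
            rw [Finset.mem_filter, not_le] at hm
            calc _ ≤ wn m * (16 * Real.pi / δ * Real.exp (-(u - Real.log m) ^ 2 / 4)) :=
                  mul_le_mul_of_nonneg_left (hfar m hm.2) (wn_nonneg m)
              _ = _ := by ring
        _ ≤ ∑ m ∈ Finset.Icc 1 N,
            16 * Real.pi / δ * (wn m * Real.exp (-(u - Real.log m) ^ 2 / 4)) := by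
            refine Finset.sum_le_sum_of_subset_of_nonneg (Finset.filter_subset _ _)
              fun m _ _ => ?_
            have := wn_nonneg m
            positivity
        _ ≤ _ := by
            rw [← Finset.mul_sum]
            exact mul_le_mul_of_nonneg_left hG (by positivity)
    obtain ⟨B, hBd⟩ : ∃ B, B = min (3 / (n : ℝ)) (Real.exp 1 * Real.exp (-u)) := ⟨_, rfl⟩
    have hB0 : 0 ≤ B := by rw [hBd]; positivity
    have hnear : ∀ m ∈ (Finset.Icc 1 N).filter (fun m : ℕ => |Real.log m - Real.log n| ≤ δ),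
        wn m * ‖Gm T u (Real.log n) (Real.log m)‖ ≤ 4 * Real.pi * T * (Real.log N) ^ 2 * B := by
      intro m hm
      rw [Finset.mem_filter, Finset.mem_Icc] at hm
      obtain ⟨⟨hm1, hmN⟩, hm2⟩ := hm
      have hm0 : (0 : ℝ) < m := by exact_mod_cast hm1
      have hΛ0 : 0 ≤ ArithmeticFunction.vonMangoldt m := ArithmeticFunction.vonMangoldt_nonneg
      have hΛ : (ArithmeticFunction.vonMangoldt m) ^ 2 ≤ (Real.log N) ^ 2 := by
        refine pow_le_pow_left₀ hΛ0 ?_ 2
        exact ArithmeticFunction.vonMangoldt_le_log.trans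
          (Real.log_le_log hm0 (by exact_mod_cast hmN))
      have h2 : Real.exp (-(u - Real.log m) ^ 2 / 4) / m ≤ B := by
        rw [hBd]
        refine le_min ?_ ?_
        · have h3 : 1 / (m : ℝ) ≤ 3 / n := by
            have h5 : Real.log n - 1 ≤ Real.log m := by linarith [(abs_le.1 hm2).1]
            have h6 := Real.exp_le_exp.2 h5
            rw [Real.exp_sub, Real.exp_log hn0, Real.exp_log hm0] at h6
            rw [div_le_div_iff₀ hm0 hn0]
            rw [div_le_iff₀ (Real.exp_pos 1)] at h6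
            have h7 : Real.exp 1 ≤ 3 := by linarith [Real.exp_one_lt_d9]
            nlinarith
          calc _ ≤ 1 / (m : ℝ) := div_le_div_of_nonneg_right (he1 _) hm0.le
            _ ≤ _ := h3
        · rw [← Real.exp_add]
          have e : Real.exp (-(u - Real.log m) ^ 2 / 4) / m =
              Real.exp (-(u - Real.log m) ^ 2 / 4 - Real.log m) := by
            rw [Real.exp_sub, Real.exp_log hm0]
          rw [e]
          apply Real.exp_le_exp.2
          nlinarith [sq_nonneg ((u - Real.log m) / 2 - 1)]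
      calc _ ≤ wn m * (4 * Real.pi * T * Real.exp (-(u - Real.log m) ^ 2 / 4)) :=
            mul_le_mul_of_nonneg_left (htriv m) (wn_nonneg m)
        _ = 4 * Real.pi * T * (ArithmeticFunction.vonMangoldt m) ^ 2 *
            (Real.exp (-(u - Real.log m) ^ 2 / 4) / m) := by unfold wn; ring
        _ ≤ 4 * Real.pi * T * (Real.log N) ^ 2 * B := by gcongr
    have hA : ∑ m ∈ (Finset.Icc 1 N).filter (fun m : ℕ => |Real.log m - Real.log n| ≤ δ),
        wn m * ‖Gm T u (Real.log n) (Real.log m)‖ ≤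
        4 * Real.pi * T * (Real.log N) ^ 2 * (9 * δ + Real.exp 1 * Real.exp (-u)) := by
      refine (Finset.sum_le_sum hnear).trans ?_
      rw [Finset.sum_const, nsmul_eq_mul]
      have h2 := near_count n N hn h0 h1
      calc _ ≤ (3 * δ * n + 1) * (4 * Real.pi * T * (Real.log N) ^ 2 * B) :=
            mul_le_mul_of_nonneg_right h2 (by positivity)
        _ = 4 * Real.pi * T * (Real.log N) ^ 2 * (3 * δ * (n * B) + B) := by ring
        _ ≤ _ := by
            refine mul_le_mul_of_nonneg_left ?_ (by positivity)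
            have h3 : (n : ℝ) * B ≤ 3 := by
              have : B ≤ 3 / n := by rw [hBd]; exact min_le_left _ _
              rwa [le_div_iff₀ hn0, mul_comm] at this
            have h4 : B ≤ Real.exp 1 * Real.exp (-u) := by rw [hBd]; exact min_le_right _ _
            have h5 := mul_le_mul_of_nonneg_left h3 (by positivity : 0 ≤ 3 * δ)
            linarith
    refine (add_le_add hA hB).trans ?_
    obtain ⟨P, hP⟩ : ∃ P, P = T * (Real.log N) ^ 2 := ⟨_, rfl⟩
    obtain ⟨Q, hQ⟩ : ∃ Q, Q = (u + 1) / δ := ⟨_, rfl⟩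
    have hP0 : 0 ≤ P := by rw [hP]; positivity
    have hQ0 : 0 ≤ Q := by rw [hQ]; positivity
    have hE : 0 < Real.exp (-u) := Real.exp_pos _
    have hE1 : 0 < Real.exp 1 := Real.exp_pos _
    have e1 : 4 * Real.pi * T * (Real.log N) ^ 2 * (9 * δ + Real.exp 1 * Real.exp (-u)) +
        16 * Real.pi / δ * (C * (u + 1)) = 36 * Real.pi * (P * δ) +
          4 * Real.pi * Real.exp 1 * (P * Real.exp (-u)) + 16 * Real.pi * C * Q := by
      rw [hP, hQ]; ring
    have e2 : T * (Real.log N) ^ 2 * (δ + Real.exp (-u)) + (u + 1) / δ =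
        P * δ + P * Real.exp (-u) + Q := by rw [hP, hQ]; ring
    rw [e1, e2]
    have p1 : 0 ≤ P * δ := by positivity
    have p2 : 0 ≤ P * Real.exp (-u) := by positivity
    have q1 : 0 ≤ 4 * Real.pi * Real.exp 1 := by positivity
    have q2 : 0 ≤ 16 * Real.pi * C := by positivity
    have q3 : 0 ≤ 36 * Real.pi := by positivity
    nlinarith [mul_nonneg q1 p1, mul_nonneg q1 hQ0, mul_nonneg q2 p1, mul_nonneg q2 p2,
      mul_nonneg q3 p2, mul_nonneg q3 hQ0]
  · calc _ ≤ ∑ m ∈ Finset.Icc 1 N, 4 * Real.pi * T *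
          (wn m * Real.exp (-(u - Real.log m) ^ 2 / 4)) := by
          refine Finset.sum_le_sum fun m _ => ?_
          calc _ ≤ wn m * (4 * Real.pi * T * Real.exp (-(u - Real.log m) ^ 2 / 4)) :=
                mul_le_mul_of_nonneg_left (htriv m) (wn_nonneg m)
            _ = _ := by ring
      _ ≤ 4 * Real.pi * T * (C * (u + 1)) := by
          rw [← Finset.mul_sum]
          exact mul_le_mul_of_nonneg_left hG (by positivity)
      _ = 4 * Real.pi * C * (T * (u + 1)) := by ring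
      _ ≤ _ := by
          refine mul_le_mul_of_nonneg_right ?_ (by positivity)
          have : 0 < Real.pi * C := by positivity
          have : 0 < Real.pi * Real.exp 1 := by positivity
          nlinarith

end Pool.Agent.T4h70.LB
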