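import Pool.Agent.T4h70.LB.Win

/-!
# The mean square for pairs with shifts depending on the pair
-/

set_option autoImplicit false
set_option maxHeartbeats 4000000

open Complex Filter Topology Set MeasureTheory

namespace Pool.Agent.T4h70.LB

open H385
open Pool.Agent.R321.RC (cf cf_norm PS w2 w2_nonneg avg2 avg2_swap avg2_add avg2_mul sum_w2 WW_eq
  Pf_add Pf_summable)
open Pool.Agent.T4h70.LI (ph ph_norm ph_zero vm_ph)

/-- the coefficients with the phases -/
noncomputable def cp (p : IX) (a : ℝ) (n : ℕ) : ℂ := cf p n * ph a n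

lemma cp_norm (p : IX) (a : ℝ) (n : ℕ) : ‖cp p a n‖ ≤ ArithmeticFunction.vonMangoldt n :=
  vm_ph (cf_norm p) a n

lemma cf_zero (p : IX) : cf p 0 = 0 := by
  have h := cf_norm p 0
  rw [ArithmeticFunction.map_zero] at h
  exact norm_le_zero_iff.1 h

theorem tails : ∃ C : ℝ, 0 < C ∧ ∀ (N : ℕ) (p : IX) (a T u G t : ℝ), 0 ≤ T → 0 ≤ u → 0 ≤ G →
    u + G ≤ Real.log N →
    ‖Pf (cp p a) T u t - Sf N p (ph a) T u t‖ ≤ C * Real.exp (u / 2 - G ^ 2 / 8) * wt T t := by
  obtain ⟨C, hC, h⟩ := lam_tail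
  obtain ⟨C', -, h'⟩ := lam_half_crude
  refine ⟨C, hC, fun N p a T u G t hT hu hG hN => ?_⟩
  have hw := wt_nonneg T t hT
  obtain ⟨g, hg⟩ : ∃ g : ℕ → ℝ, g = fun n => (if N < n then ArithmeticFunction.vonMangoldt n /
      Real.sqrt n * Real.exp (-(u - Real.log n) ^ 2 / 4) else 0) := ⟨_, rfl⟩
  have hg0 : ∀ n, 0 ≤ g n := by
    intro n
    rw [hg]
    simp only
    split_ifs
    · exact mul_nonneg (div_nonneg ArithmeticFunction.vonMangoldt_nonneg (Real.sqrt_nonneg _))
        (Real.exp_pos _).le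
    · exact le_rfl
  have hgs : Summable g := by
    refine Summable.of_nonneg_of_le hg0 (fun n => ?_) (h' u hu).1
    rw [hg]
    simp only
    split_ifs
    · exact le_rfl
    · exact mul_nonneg (div_nonneg ArithmeticFunction.vonMangoldt_nonneg (Real.sqrt_nonneg _))
        (Real.exp_pos _).le
  have hs := Pf_summable (cp_norm p a) T u t hT
  have h2 : Sf N p (ph a) T u t = ∑' n : ℕ, (if n ∈ Finset.Icc 1 N then
      cp p a n * ((Real.sqrt n : ℂ)⁻¹ * bt T u t (Real.log n)) else 0) := by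
    rw [tsum_eq_sum (s := Finset.Icc 1 N)]
    · unfold Sf cp
      refine Finset.sum_congr rfl fun n hn => ?_
      rw [if_pos hn]
      ring
    · intro n hn
      rw [if_neg hn]
  have h3 : Summable (fun n : ℕ => (if n ∈ Finset.Icc 1 N then
      cp p a n * ((Real.sqrt n : ℂ)⁻¹ * bt T u t (Real.log n)) else 0)) := by
    apply summable_of_ne_finset_zero (s := Finset.Icc 1 N)
    intro n hn
    rw [if_neg hn]
  unfold Pf
  rw [h2, ← hs.tsum_sub h3]
  have hb : ‖∑' n : ℕ, (cp p a n * ((Real.sqrt n : ℂ)⁻¹ * bt T u t (Real.log n)) -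
      (if n ∈ Finset.Icc 1 N then
      cp p a n * ((Real.sqrt n : ℂ)⁻¹ * bt T u t (Real.log n)) else 0))‖ ≤
      (∑' n, g n) * wt T t := by
    rw [← tsum_mul_right]
    refine tsum_of_norm_bounded (hgs.mul_right (wt T t)).hasSum ?_
    · intro n
      by_cases hn : n ∈ Finset.Icc 1 N
      · rw [if_pos hn, sub_self, norm_zero]
        exact mul_nonneg (hg0 n) hw
      · rw [if_neg hn, sub_zero]
        by_cases h0 : n = 0
        · subst h0
          have : cp p a 0 = 0 := by unfold cp; rw [cf_zero, zero_mul]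
          rw [this, zero_mul, norm_zero]
          exact mul_nonneg (hg0 0) hw
        · have hNn : N < n := by
            rw [Finset.mem_Icc] at hn
            omega
          refine (fa_term_bound (cp_norm p a) T u t hT n).trans ?_
          refine mul_le_mul_of_nonneg_right ?_ hw
          rw [hg]
          simp only
          rw [if_pos hNn]
          have h3 : 1 / Real.sqrt (2 * Real.pi) ≤ 1 := by
            rw [div_le_one (by positivity), Real.one_le_sqrt]
            linarith [Real.pi_gt_three]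
          have hΛ : 0 ≤ ArithmeticFunction.vonMangoldt n := ArithmeticFunction.vonMangoldt_nonneg
          calc _ = (1 / Real.sqrt (2 * Real.pi)) * (ArithmeticFunction.vonMangoldt n /
                Real.sqrt n * Real.exp (-(u - Real.log n) ^ 2 / 4)) := by
                rw [div_eq_mul_inv (ArithmeticFunction.vonMangoldt n)]; ring
            _ ≤ _ := mul_le_of_le_one_left (by positivity) h3
  refine hb.trans (mul_le_mul_of_nonneg_right ?_ hw)
  have h4 := h u G N hu hG hN
  rw [hg]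
  exact h4

/-- the mean square of the tails -/
theorem tails_sq : ∃ C : ℝ, 1 ≤ C ∧ ∀ (N : ℕ) (p : IX) (a T u G : ℝ), 0 ≤ T → 0 ≤ u → 0 ≤ G →
    u + G ≤ Real.log N →
    Integrable (fun t => ‖Pf (cp p a) T u t - Sf N p (ph a) T u t‖ ^ 2) ∧
    ∫ t, ‖Pf (cp p a) T u t - Sf N p (ph a) T u t‖ ^ 2 ≤ C * (T * Real.exp (u - G ^ 2 / 4)) := by
  obtain ⟨C, hC, h⟩ := tails
  obtain ⟨C3, hC3, hwt⟩ := wt_sq_int
  refine ⟨C ^ 2 + 1, by nlinarith [sq_nonneg C], fun N p a T u G hT hu hG hN => ?_⟩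
  have hc : Continuous (fun t => Pf (cp p a) T u t - Sf N p (ph a) T u t) :=
    (fa_Pf_cont (cp_norm p a) T u hT).sub (Sf_comb N p (ph a) T u hT).1
  have hle : ∀ t, ‖Pf (cp p a) T u t - Sf N p (ph a) T u t‖ ^ 2 ≤
      C ^ 2 * Real.exp (u - G ^ 2 / 4) * wt T t := by
    intro t
    have h1 := pow_le_pow_left₀ (norm_nonneg _) (h N p a T u G t hT hu hG hN) 2
    refine h1.trans ?_
    have e1 : Real.exp (u - G ^ 2 / 4) = Real.exp (u / 2 - G ^ 2 / 8) ^ 2 := by
      rw [← Real.exp_nat_mul]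
      congr 1
      push_cast
      ring
    rw [mul_pow, mul_pow, ← e1]
    refine mul_le_mul_of_nonneg_left ?_ (by positivity)
    have h2 := wt_nonneg T t hT
    have h3 := wt_le_one T t hT
    nlinarith
  have hi : Integrable (fun t => ‖Pf (cp p a) T u t - Sf N p (ph a) T u t‖ ^ 2) := by
    refine Integrable.mono' ((Cut.wt_integrable T hT).const_mul (C ^ 2 * Real.exp (u - G ^ 2 / 4)))
      (hc.norm.pow 2).aestronglyMeasurable (Filter.Eventually.of_forall fun t => ?_)
    rw [Real.norm_of_nonneg (sq_nonneg _)]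
    exact hle t
  refine ⟨hi, ?_⟩
  have h4 := integral_mono hi ((Cut.wt_integrable T hT).const_mul
    (C ^ 2 * Real.exp (u - G ^ 2 / 4))) hle
  rw [integral_const_mul, Cut.wt_integral T hT] at h4
  have h5 : 0 ≤ T * Real.exp (u - G ^ 2 / 4) := by positivity
  calc _ ≤ _ := h4
    _ = C ^ 2 * (T * Real.exp (u - G ^ 2 / 4)) := by ring
    _ ≤ _ := mul_le_mul_of_nonneg_right (by linarith) h5

/-- the square of a sum -/
lemma sum_sq_int {f g : ℝ → ℂ} (hf : Continuous f) (hg : Continuous g)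
    (hf2 : Integrable (fun t => ‖f t‖ ^ 2)) (hg2 : Integrable (fun t => ‖g t‖ ^ 2)) :
    Integrable (fun t => ‖f t + g t‖ ^ 2) ∧
    ∫ t, ‖f t + g t‖ ^ 2 ≤ (∫ t, ‖f t‖ ^ 2) + (∫ t, ‖g t‖ ^ 2) +
      2 * ‖∫ t, f t * star (g t)‖ := by
  obtain ⟨i1, -⟩ := cs_int hf hg hf2 hg2
  have i2 : Integrable (fun t => (f t * star (g t)).re) := i1.re
  have e : ∀ t, ‖f t + g t‖ ^ 2 = ‖f t‖ ^ 2 + ‖g t‖ ^ 2 + 2 * (f t * star (g t)).re := by
    intro t
    rw [← Complex.normSq_eq_norm_sq, ← Complex.normSq_eq_norm_sq, ← Complex.normSq_eq_norm_sq,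
      Complex.normSq_add]
    rfl
  have i3 : Integrable (fun t => ‖f t‖ ^ 2 + ‖g t‖ ^ 2) := hf2.add hg2
  have i4 : Integrable (fun t => ‖f t‖ ^ 2 + ‖g t‖ ^ 2 + 2 * (f t * star (g t)).re) :=
    i3.add (i2.const_mul 2)
  simp_rw [e]
  refine ⟨i4, ?_⟩
  rw [integral_add i3 (i2.const_mul 2), integral_add hf2 hg2, integral_const_mul]
  have e2 : ∫ t, (f t * star (g t)).re = (∫ t, f t * star (g t)).re := integral_re i1
  rw [e2]
  have := Complex.re_le_norm (∫ t, f t * star (g t))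
  linarith

end Pool.Agent.T4h70.LB
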