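import Pool.Agent.T4h70.LB.Ms

/-!
# The mean square for pairs with shifts depending on the pair: the inequality
-/

set_option autoImplicit false
set_option maxHeartbeats 4000000

open Complex Filter Topology Set MeasureTheory

namespace Pool.Agent.T4h70.LB

open H385
open Pool.Agent.R321.RC (cf cf_norm PS w2 w2_nonneg avg2 avg2_swap avg2_add avg2_mul sum_w2 WW_eq
  Pf_add Pf_summable)
open Pool.Agent.T4h70.LI (ph ph_norm ph_zero vm_ph)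

lemma avg_fst (X Y : ℕ) (f : IX → ℝ) :
    avg2 X Y (fun z => f z.1) = WW X Y * ∑ p ∈ primSet X Y, (1 / (p.1 : ℝ) ^ 2) * f p := by
  unfold avg2 PS w2
  rw [Finset.sum_product, WW_eq, Finset.mul_sum]
  refine Finset.sum_congr rfl fun p _ => ?_
  rw [Finset.sum_mul]
  refine Finset.sum_congr rfl fun p' _ => ?_
  simp only
  ring

lemma avg_snd (X Y : ℕ) (f : IX → ℝ) :
    avg2 X Y (fun z => f z.2) = WW X Y * ∑ p ∈ primSet X Y, (1 / (p.1 : ℝ) ^ 2) * f p := by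
  rw [← avg_fst]
  exact (avg2_swap X Y (fun p _ => f p)).symm

lemma avg_const (X Y : ℕ) (c : ℝ) : avg2 X Y (fun _ => c) = WW X Y ^ 2 * c := by
  unfold avg2
  rw [← Finset.sum_mul, sum_w2]

lemma sq_add_le_two (a b : ℂ) : ‖a + b‖ ^ 2 ≤ 2 * ‖a‖ ^ 2 + 2 * ‖b‖ ^ 2 := by
  have h := FamLS.sq_add_le a b 1 one_pos
  norm_num at h
  linarith

/-- the truncated mean square of the family -/
theorem trunc_ms : ∃ C : ℝ, 1 ≤ C ∧ ∀ (X Y N : ℕ) (T u G Z s : ℝ), 0 ≤ T → 0 ≤ u → 0 ≤ G →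
    u + G ≤ Real.log N → 0 < s →
    ∫ t : ℝ, primFam X Y (fun q χ =>
      ‖∑' n : ℕ, (χ (n : ZMod q) * (ArithmeticFunction.vonMangoldt n : ℂ)) *
        ((Real.sqrt n : ℂ)⁻¹ * bt T u t (Real.log n))‖ ^ 2) ≤ Z →
    ∑ p ∈ primSet X Y, (1 / (p.1 : ℝ) ^ 2) * ∫ t, ‖Sf N p (fun _ => 1) T u t‖ ^ 2 ≤
      (1 + s) * Z + (1 + 1 / s) * (C * (WW X Y * (T * Real.exp (u - G ^ 2 / 4)))) := by
  obtain ⟨C, hC, h⟩ := tails_sq
  refine ⟨C, hC, fun X Y N T u G Z s hT hu hG hN hs hZ => ?_⟩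
  have hPi : ∀ p : IX, Integrable (fun t => ‖Pf (cf p) T u t‖ ^ 2) := fun p =>
    fa_Pf_int (cf_norm p) T u hT
  have hZ' : ∑ p ∈ primSet X Y, (1 / (p.1 : ℝ) ^ 2) * ∫ t, ‖Pf (cf p) T u t‖ ^ 2 ≤ Z := by
    refine le_trans (le_of_eq ?_) hZ
    have e : ∀ t : ℝ, primFam X Y (fun q χ =>
        ‖∑' n : ℕ, (χ (n : ZMod q) * (ArithmeticFunction.vonMangoldt n : ℂ)) *
        ((Real.sqrt n : ℂ)⁻¹ * bt T u t (Real.log n))‖ ^ 2) =
        ∑ p ∈ primSet X Y, (1 / (p.1 : ℝ) ^ 2) * ‖Pf (cf p) T u t‖ ^ 2 := by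
      intro t
      rw [primFam_eq]
      rfl
    simp_rw [e]
    rw [integral_finsetSum _ fun p _ => (hPi p).const_mul _]
    exact Finset.sum_congr rfl fun p _ => by rw [integral_const_mul]
  have hcp : ∀ p : IX, cp p 0 = cf p := by
    intro p
    funext n
    unfold cp
    rw [ph_zero, mul_one]
  have hpt : ∀ p : IX, ∫ t, ‖Sf N p (fun _ => 1) T u t‖ ^ 2 ≤
      (1 + s) * (∫ t, ‖Pf (cf p) T u t‖ ^ 2) +
        (1 + 1 / s) * (C * (T * Real.exp (u - G ^ 2 / 4))) := by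
    intro p
    obtain ⟨t1, t2⟩ := h N p 0 T u G hT hu hG hN
    rw [hcp] at t1 t2
    have hle : ∀ t, ‖Sf N p (fun _ => 1) T u t‖ ^ 2 ≤ (1 + s) * ‖Pf (cf p) T u t‖ ^ 2 +
        (1 + 1 / s) * ‖Pf (cf p) T u t - Sf N p (ph 0) T u t‖ ^ 2 := by
      intro t
      have h1 := FamLS.sq_add_le (Pf (cf p) T u t) (Sf N p (ph 0) T u t - Pf (cf p) T u t) s hs
      rw [add_sub_cancel, norm_sub_rev, Sf_ph0] at h1
      rw [Sf_ph0]
      exact h1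
    have h2 := integral_mono (Sf_comb N p (fun _ => 1) T u hT).2
      (((hPi p).const_mul (1 + s)).add (t1.const_mul (1 + 1 / s))) hle
    refine h2.trans ?_
    have e : ∫ t, ((1 + s) * ‖Pf (cf p) T u t‖ ^ 2 +
        (1 + 1 / s) * ‖Pf (cf p) T u t - Sf N p (ph 0) T u t‖ ^ 2) =
        (1 + s) * (∫ t, ‖Pf (cf p) T u t‖ ^ 2) +
        (1 + 1 / s) * ∫ t, ‖Pf (cf p) T u t - Sf N p (ph 0) T u t‖ ^ 2 := by
      rw [integral_add ((hPi p).const_mul (1 + s)) (t1.const_mul (1 + 1 / s)),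
        integral_const_mul, integral_const_mul]
    refine (le_of_eq e).trans ?_
    have := mul_le_mul_of_nonneg_left t2 (by positivity : 0 ≤ 1 + 1 / s)
    linarith
  calc _ ≤ ∑ p ∈ primSet X Y, (1 / (p.1 : ℝ) ^ 2) * ((1 + s) * (∫ t, ‖Pf (cf p) T u t‖ ^ 2) +
        (1 + 1 / s) * (C * (T * Real.exp (u - G ^ 2 / 4)))) :=
        Finset.sum_le_sum fun p _ => mul_le_mul_of_nonneg_left (hpt p) (by positivity)
    _ = (1 + s) * (∑ p ∈ primSet X Y, (1 / (p.1 : ℝ) ^ 2) * ∫ t, ‖Pf (cf p) T u t‖ ^ 2) +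
        (1 + 1 / s) * (C * (WW X Y * (T * Real.exp (u - G ^ 2 / 4)))) := by
        rw [WW_eq, Finset.sum_mul, Finset.mul_sum, Finset.mul_sum, Finset.mul_sum,
          ← Finset.sum_add_distrib]
        exact Finset.sum_congr rfl fun p _ => by ring
    _ ≤ _ := by
        have := mul_le_mul_of_nonneg_left hZ' (by positivity : 0 ≤ 1 + s)
        linarith

/-- **The mean square for pairs, shifts depending on the pair.** -/
theorem ms_shift0 (V0 : ℝ) (hV : 0 ≤ V0) : ∃ C : ℝ, 1 ≤ C ∧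
    ∀ (X Y N : ℕ) (T u G M Z s : ℝ) (v : IX × IX → ℝ),
    1 ≤ X → X ≤ Y → (N : ℝ) ≤ (X : ℝ) ^ 2 → 0 ≤ T → 0 ≤ u → 0 ≤ G → u + G ≤ Real.log N →
    0 < s → s ≤ 1 → 0 ≤ M → (∀ z, |v z| ≤ V0) →
    (∀ n ∈ Finset.Icc 1 N,
      ∑ m ∈ Finset.Icc 1 N, wn m * ‖Gm T u (Real.log n) (Real.log m)‖ ≤ M) →
    ∫ t : ℝ, primFam X Y (fun q χ =>
      ‖∑' n : ℕ, (χ (n : ZMod q) * (ArithmeticFunction.vonMangoldt n : ℂ)) *
        ((Real.sqrt n : ℂ)⁻¹ * bt T u t (Real.log n))‖ ^ 2) ≤ Z →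
    ∫ t : ℝ, ∑ z ∈ PS X Y, w2 z * ‖∑' n : ℕ, (cp z.1 (an (v z)) n + cp z.2 (bn (v z)) n) *
        ((Real.sqrt n : ℂ)⁻¹ * bt T u t (Real.log n))‖ ^ 2 ≤
      (1 + s) ^ 3 * (2 * WW X Y * Z) + C / s * (WW X Y ^ 2 * (T * Real.exp (u - G ^ 2 / 4)) +
        WW X Y * ((Real.log ((Y : ℝ) / X) + 1) * (u + 1)) +
        (Real.log ((Y : ℝ) / X) + 1) * WW X Y * Real.sqrt (M * (T * (u + 1)))) := by
  obtain ⟨C1, hC1, h1⟩ := trunc_ms
  obtain ⟨C2, hC2, h2⟩ := Ep_avg V0 hV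
  obtain ⟨C3, hC3, h3⟩ := mixed_main
  obtain ⟨C4, hC4, h4⟩ := tails_sq
  obtain ⟨C, hCd⟩ : ∃ C, C = 16 * C1 + 8 * C2 + 4 * (C3 * (1 + V0)) + 8 * C4 := ⟨_, rfl⟩
  refine ⟨C, ?_, fun X Y N T u G M Z s v hX hXY hN hT hu hG hNl hs hs1 hM0 hv hM hZ => ?_⟩
  · have : 0 ≤ C3 * (1 + V0) := by positivity
    rw [hCd]; linarith
  have hLW := LW_pos hX hXY
  obtain ⟨J, hJ⟩ : ∃ J, J = Real.log ((Y : ℝ) / X) + 1 := ⟨_, rfl⟩
  obtain ⟨W, hW⟩ : ∃ W, W = WW X Y := ⟨_, rfl⟩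
  obtain ⟨E, hE⟩ : ∃ E, E = T * Real.exp (u - G ^ 2 / 4) := ⟨_, rfl⟩
  obtain ⟨R, hR⟩ : ∃ R, R = Real.sqrt (M * (T * (u + 1))) := ⟨_, rfl⟩
  have hE0 : 0 ≤ E := by rw [hE]; positivity
  have hR0 : 0 ≤ R := by rw [hR]; exact Real.sqrt_nonneg _
  have hW0 : 0 ≤ W := by rw [hW]; exact primFam_nonneg _ _ _ (fun _ _ => zero_le_one)
  have hA := h1 X Y N T u G Z s hT hu hG hNl hs hZ
  have hEp := h2 X Y N T u hX hXY hN hu
  have hMx := h3 X Y N T u M V0 v hX hXY hN hT hu hM0 hv hM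
  rw [← hJ] at hEp hMx hLW ⊢
  rw [← hW] at hA hMx ⊢
  rw [← hE] at hA ⊢
  rw [← hR] at hMx ⊢
  have hr0 : 0 ≤ 1 / s := by positivity
  have hi1 : ∀ z : IX × IX, Integrable (fun t => ‖Pf (cp z.1 (an (v z))) T u t +
      Pf (cp z.2 (bn (v z))) T u t‖ ^ 2) := fun z =>
    (sum_sq_int (fa_Pf_cont (cp_norm z.1 (an (v z))) T u hT)
      (fa_Pf_cont (cp_norm z.2 (bn (v z))) T u hT) (fa_Pf_int (cp_norm z.1 (an (v z))) T u hT)
      (fa_Pf_int (cp_norm z.2 (bn (v z))) T u hT)).1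
  have e1 : ∀ (z : IX × IX) (t : ℝ), ∑' n : ℕ, (cp z.1 (an (v z)) n + cp z.2 (bn (v z)) n) *
        ((Real.sqrt n : ℂ)⁻¹ * bt T u t (Real.log n)) = Pf (cp z.1 (an (v z))) T u t +
      Pf (cp z.2 (bn (v z))) T u t := by
    intro z t
    have := Pf_add (cp_norm z.1 (an (v z))) (cp_norm z.2 (bn (v z))) T u t hT
    rw [← this]
    rfl
  simp_rw [e1]
  rw [integral_finsetSum _ fun z _ => (hi1 z).const_mul _]
  simp_rw [integral_const_mul]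
  -- one pair
  have hone : ∀ z : IX × IX, ∫ t, ‖Pf (cp z.1 (an (v z))) T u t +
      Pf (cp z.2 (bn (v z))) T u t‖ ^ 2 ≤
      ((1 + s) ^ 2 * (∫ t, ‖Sf N z.1 (fun _ => 1) T u t‖ ^ 2) +
        (1 + s) ^ 2 * (∫ t, ‖Sf N z.2 (fun _ => 1) T u t‖ ^ 2)) +
      ((1 + s) * (1 + 1 / s) * Ep N T u V0 z.1 + (1 + s) * (1 + 1 / s) * Ep N T u V0 z.2) +
      (1 + s) * 2 * ‖∫ t, Sf N z.1 (ph (an (v z))) T u t *
        star (Sf N z.2 (ph (bn (v z))) T u t)‖ + (1 + 1 / s) * (4 * C4 * E) := by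
    intro z
    obtain ⟨a, ha⟩ : ∃ a, a = an (v z) := ⟨_, rfl⟩
    obtain ⟨b, hb⟩ : ∃ b, b = bn (v z) := ⟨_, rfl⟩
    have ha0 : 0 ≤ a := by rw [ha]; exact le_max_right _ _
    have hb0 : 0 ≤ b := by rw [hb]; exact le_max_right _ _
    have haV : a ≤ V0 := by
      rw [ha]; exact max_le (by linarith [neg_abs_le (v z), hv z]) hV
    have hbV : b ≤ V0 := by
      rw [hb]; exact max_le (by linarith [le_abs_self (v z), hv z]) hV
    rw [← ha, ← hb]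
    obtain ⟨t1, t2⟩ := h4 N z.1 a T u G hT hu hG hNl
    obtain ⟨t3, t4⟩ := h4 N z.2 b T u G hT hu hG hNl
    rw [← hE] at t2 t4
    obtain ⟨s1, s2⟩ := Sf_comb N z.1 (ph a) T u hT
    obtain ⟨s3, s4⟩ := Sf_comb N z.2 (ph b) T u hT
    obtain ⟨q1, q2⟩ := sum_sq_int s1 s3 s2 s4
    have w1 := win_main N z.1 T u hT ha0 haV hs
    have w2' := win_main N z.2 T u hT hb0 hbV hs
    have hle : ∀ t, ‖Pf (cp z.1 a) T u t + Pf (cp z.2 b) T u t‖ ^ 2 ≤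
        (1 + s) * ‖Sf N z.1 (ph a) T u t + Sf N z.2 (ph b) T u t‖ ^ 2 + (1 + 1 / s) *
        (2 * ‖Pf (cp z.1 a) T u t - Sf N z.1 (ph a) T u t‖ ^ 2 +
          2 * ‖Pf (cp z.2 b) T u t - Sf N z.2 (ph b) T u t‖ ^ 2) := by
      intro t
      have k1 := FamLS.sq_add_le (Sf N z.1 (ph a) T u t + Sf N z.2 (ph b) T u t)
        ((Pf (cp z.1 a) T u t - Sf N z.1 (ph a) T u t) +
          (Pf (cp z.2 b) T u t - Sf N z.2 (ph b) T u t)) s hs
      have e2 : Sf N z.1 (ph a) T u t + Sf N z.2 (ph b) T u t +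
          ((Pf (cp z.1 a) T u t - Sf N z.1 (ph a) T u t) +
          (Pf (cp z.2 b) T u t - Sf N z.2 (ph b) T u t)) =
          Pf (cp z.1 a) T u t + Pf (cp z.2 b) T u t := by ring
      rw [e2] at k1
      refine k1.trans (add_le_add le_rfl (mul_le_mul_of_nonneg_left (sq_add_le_two _ _)
        (by positivity)))
    have hi2 : Integrable (fun t => (1 + 1 / s) *
        (2 * ‖Pf (cp z.1 a) T u t - Sf N z.1 (ph a) T u t‖ ^ 2 +
          2 * ‖Pf (cp z.2 b) T u t - Sf N z.2 (ph b) T u t‖ ^ 2)) :=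
      ((t1.const_mul 2).add (t3.const_mul 2)).const_mul _
    have hi3 : Integrable (fun t => (1 + s) *
        ‖Sf N z.1 (ph a) T u t + Sf N z.2 (ph b) T u t‖ ^ 2) := q1.const_mul _
    have hi4 := hi1 z
    rw [← ha, ← hb] at hi4
    refine (integral_mono hi4 (hi3.add hi2) hle).trans ?_
    have e3 : ∫ t, ((1 + s) * ‖Sf N z.1 (ph a) T u t + Sf N z.2 (ph b) T u t‖ ^ 2 + (1 + 1 / s) *
        (2 * ‖Pf (cp z.1 a) T u t - Sf N z.1 (ph a) T u t‖ ^ 2 +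
          2 * ‖Pf (cp z.2 b) T u t - Sf N z.2 (ph b) T u t‖ ^ 2)) =
        (1 + s) * (∫ t, ‖Sf N z.1 (ph a) T u t + Sf N z.2 (ph b) T u t‖ ^ 2) + (1 + 1 / s) *
        (2 * (∫ t, ‖Pf (cp z.1 a) T u t - Sf N z.1 (ph a) T u t‖ ^ 2) +
          2 * ∫ t, ‖Pf (cp z.2 b) T u t - Sf N z.2 (ph b) T u t‖ ^ 2) := by
      rw [integral_add hi3 hi2, integral_const_mul, integral_const_mul,
        integral_add (t1.const_mul 2) (t3.const_mul 2), integral_const_mul, integral_const_mul]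
    refine (le_of_eq e3).trans ?_
    have m1 := mul_le_mul_of_nonneg_left (q2.trans (add_le_add (add_le_add w1 w2') le_rfl))
      (by linarith : (0 : ℝ) ≤ 1 + s)
    have m2 : (1 + 1 / s) *
        (2 * (∫ t, ‖Pf (cp z.1 a) T u t - Sf N z.1 (ph a) T u t‖ ^ 2) +
          2 * ∫ t, ‖Pf (cp z.2 b) T u t - Sf N z.2 (ph b) T u t‖ ^ 2) ≤
        (1 + 1 / s) * (4 * C4 * E) :=
      mul_le_mul_of_nonneg_left (by linarith) (by linarith)
    refine (add_le_add m1 m2).trans (le_of_eq ?_)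
    ring
  -- the sum over the pairs
  have hsum : ∑ z ∈ PS X Y, w2 z * ∫ t, ‖Pf (cp z.1 (an (v z))) T u t +
      Pf (cp z.2 (bn (v z))) T u t‖ ^ 2 ≤
      (1 + s) ^ 2 * (2 * W * ∑ p ∈ primSet X Y, (1 / (p.1 : ℝ) ^ 2) *
        ∫ t, ‖Sf N p (fun _ => 1) T u t‖ ^ 2) +
      (1 + s) * (1 + 1 / s) * (2 * W * ∑ p ∈ primSet X Y, (1 / (p.1 : ℝ) ^ 2) * Ep N T u V0 p) +
      (1 + s) * 2 * avg2 X Y (fun z => ‖∫ t, Sf N z.1 (ph (an (v z))) T u t *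
        star (Sf N z.2 (ph (bn (v z))) T u t)‖) + W ^ 2 * ((1 + 1 / s) * (4 * C4 * E)) := by
    have b1 := avg2_le_of (X := X) (Y := Y) hone
    rw [avg2_add, avg2_add, avg2_add, avg2_add, avg2_add,
      avg2_mul X Y ((1 + s) ^ 2) (fun z => ∫ t, ‖Sf N z.1 (fun _ => 1) T u t‖ ^ 2),
      avg2_mul X Y ((1 + s) ^ 2) (fun z => ∫ t, ‖Sf N z.2 (fun _ => 1) T u t‖ ^ 2),
      avg2_mul X Y ((1 + s) * (1 + 1 / s)) (fun z => Ep N T u V0 z.1),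
      avg2_mul X Y ((1 + s) * (1 + 1 / s)) (fun z => Ep N T u V0 z.2),
      avg2_mul X Y ((1 + s) * 2), avg_const,
      avg_fst X Y (fun p => ∫ t, ‖Sf N p (fun _ => 1) T u t‖ ^ 2),
      avg_snd X Y (fun p => ∫ t, ‖Sf N p (fun _ => 1) T u t‖ ^ 2),
      avg_fst X Y (fun p => Ep N T u V0 p), avg_snd X Y (fun p => Ep N T u V0 p), ← hW] at b1
    refine le_trans (le_of_eq ?_) (b1.trans (le_of_eq ?_))
    · rfl
    · ring
  refine hsum.trans ?_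
  have g1 := mul_le_mul_of_nonneg_left hA (by positivity : 0 ≤ (1 + s) ^ 2 * (2 * W))
  have g2 := mul_le_mul_of_nonneg_left hEp (by positivity : 0 ≤ (1 + s) * (1 + 1 / s) * (2 * W))
  have g3 := mul_le_mul_of_nonneg_left hMx (by positivity : 0 ≤ (1 + s) * 2)
  have hb3 : (1 : ℝ) ≤ 1 / s := by rw [le_div_iff₀ hs]; linarith
  have hb1 : 1 + 1 / s ≤ 2 / s := by
    have : 2 / s = 1 / s + 1 / s := by ring
    linarith
  have hb2 : (1 + s) ≤ 2 := by linarith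
  have f1 : (1 + s) ^ 2 * (2 * W) * ((1 + 1 / s) * (C1 * (W * E))) ≤
      16 * C1 * (1 / s) * (W ^ 2 * E) := by
    have k1 : (1 + s) ^ 2 ≤ 4 := by nlinarith
    calc _ = (1 + s) ^ 2 * (1 + 1 / s) * (2 * C1 * (W ^ 2 * E)) := by ring
      _ ≤ 4 * (2 / s) * (2 * C1 * (W ^ 2 * E)) := by gcongr
      _ = _ := by ring
  have f2 : (1 + s) * (1 + 1 / s) * (2 * W) * (C2 * (J * (u + 1))) ≤
      8 * C2 * (1 / s) * (W * (J * (u + 1))) := by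
    calc _ = (1 + s) * (1 + 1 / s) * (2 * C2 * (W * (J * (u + 1)))) := by ring
      _ ≤ 2 * (2 / s) * (2 * C2 * (W * (J * (u + 1)))) := by gcongr
      _ = _ := by ring
  have f3 : (1 + s) * 2 * (C3 * (1 + V0) * (J * W * R)) ≤
      4 * (C3 * (1 + V0)) * (1 / s) * (J * W * R) := by
    calc _ = (1 + s) * 1 * (2 * (C3 * (1 + V0)) * (J * W * R)) := by ring
      _ ≤ 2 * (1 / s) * (2 * (C3 * (1 + V0)) * (J * W * R)) := by gcongr
      _ = _ := by ring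
  have f4 : W ^ 2 * ((1 + 1 / s) * (4 * C4 * E)) ≤ 8 * C4 * (1 / s) * (W ^ 2 * E) := by
    calc _ = (1 + 1 / s) * (4 * C4 * (W ^ 2 * E)) := by ring
      _ ≤ (2 / s) * (4 * C4 * (W ^ 2 * E)) := by gcongr
      _ = _ := by ring
  have f5 : (1 + s) ^ 2 * (2 * W) * ((1 + s) * Z) = (1 + s) ^ 3 * (2 * W * Z) := by ring
  have p1 : 0 ≤ (1 / s) * (W ^ 2 * E) := by positivity
  have p2 : 0 ≤ (1 / s) * (W * (J * (u + 1))) := by positivity
  have p3 : 0 ≤ (1 / s) * (J * W * R) := by positivity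
  have c1 : 16 * C1 + 8 * C4 ≤ C := by
    rw [hCd]
    have : 0 ≤ C3 * (1 + V0) := by positivity
    linarith
  have c2 : 8 * C2 ≤ C := by
    rw [hCd]
    have : 0 ≤ C3 * (1 + V0) := by positivity
    linarith
  have c3 : 4 * (C3 * (1 + V0)) ≤ C := by rw [hCd]; linarith
  have d1 := mul_le_mul_of_nonneg_right c1 p1
  have d2 := mul_le_mul_of_nonneg_right c2 p2
  have d3 := mul_le_mul_of_nonneg_right c3 p3
  have e5 : C / s * (W ^ 2 * E + W * (J * (u + 1)) + J * W * R) =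
      C * ((1 / s) * (W ^ 2 * E)) + C * ((1 / s) * (W * (J * (u + 1)))) +
        C * ((1 / s) * (J * W * R)) := by ring
  rw [e5]
  nlinarith

end Pool.Agent.T4h70.LB
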