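import Pool.Agent.T4h70.LB.Ms2

/-!
# The mean square for pairs with shifts depending on the pair: choice of the parameters
-/

set_option autoImplicit false
set_option maxHeartbeats 4000000

open Complex Filter Topology Set MeasureTheory

namespace Pool.Agent.T4h70.LB

open H385
open Pool.Agent.R321.RC (cf cf_norm PS w2 w2_nonneg avg2)
open Pool.Agent.T4h70.LI (ph ph_norm ph_zero vm_ph)

lemma exp_neg_sq {x : ℝ} (hx : 0 < x) : Real.exp (-x) ≤ 2 / x ^ 2 := by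
  have h := Real.quadratic_le_exp_of_nonneg hx.le
  rw [Real.exp_neg, inv_eq_one_div, div_le_div_iff₀ (Real.exp_pos x) (by positivity)]
  nlinarith

/-- numeric part: the row sums -/
lemma row_num {C6 e θ ρ L T u : ℝ} (hC6 : 1 ≤ C6) (he : 0 < e) (hρ : 0 < ρ) (hL1 : 1 ≤ L)
    (hθd : θ = e ^ 2 / (36 * C6)) (hL3 : 72 * C6 / (ρ ^ 2 * e ^ 2) ≤ L)
    (hL4 : 27 * C6 / (θ * e ^ 2) ≤ L) (hT : L ^ 2 ≤ T) (hu0 : 0 ≤ u) (hu2 : u ≤ 2 * L)
    (hρu : ρ * L ≤ u) :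
    C6 * (T * (2 * L) ^ 2 * (θ / L + Real.exp (-u)) + (u + 1) / (θ / L)) * (u + 1) ≤
      e ^ 2 * (T * L ^ 2) := by
  have hLp : 0 < L := by linarith
  have hTp : 0 < T := by nlinarith
  have hθ : 0 < θ := by rw [hθd]; positivity
  have hu1 : u + 1 ≤ 3 * L := by linarith
  have hu1p : 0 < u + 1 := by linarith
  have hexp : Real.exp (-u) ≤ 2 / (ρ * L) ^ 2 := by
    refine le_trans (Real.exp_le_exp.2 (neg_le_neg hρu)) (exp_neg_sq (by positivity))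
  have a1 : C6 * (T * (2 * L) ^ 2 * (θ / L + Real.exp (-u)) + (u + 1) / (θ / L)) * (u + 1) ≤
      C6 * (T * (2 * L) ^ 2 * (θ / L + 2 / (ρ * L) ^ 2) + (3 * L) / (θ / L)) * (3 * L) := by
    gcongr
  refine a1.trans ?_
  have e1 : C6 * (T * (2 * L) ^ 2 * (θ / L + 2 / (ρ * L) ^ 2) + (3 * L) / (θ / L)) * (3 * L) =
      12 * C6 * θ * (T * L ^ 2) + (24 * C6 / ρ ^ 2) * (T * L) + (9 * C6 / θ) * L ^ 3 := by
    field_simp
    ring
  rw [e1]
  have b1 : 12 * C6 * θ * (T * L ^ 2) = e ^ 2 / 3 * (T * L ^ 2) := by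
    rw [hθd]; field_simp; ring
  have b2 : (24 * C6 / ρ ^ 2) * (T * L) ≤ e ^ 2 / 3 * (T * L ^ 2) := by
    rw [div_le_iff₀ (by positivity)] at hL3
    have b3 : 24 * C6 / ρ ^ 2 ≤ e ^ 2 / 3 * L := by
      rw [div_le_iff₀ (by positivity)]
      nlinarith
    calc _ ≤ (e ^ 2 / 3 * L) * (T * L) := mul_le_mul_of_nonneg_right b3 (by positivity)
      _ = _ := by ring
  have b4 : (9 * C6 / θ) * L ^ 3 ≤ e ^ 2 / 3 * (T * L ^ 2) := by
    rw [div_le_iff₀ (by positivity)] at hL4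
    have b5 : 9 * C6 / θ ≤ e ^ 2 / 3 * L := by
      rw [div_le_iff₀ hθ]
      nlinarith
    calc _ ≤ (e ^ 2 / 3 * L) * L ^ 3 := mul_le_mul_of_nonneg_right b5 (by positivity)
      _ = e ^ 2 / 3 * (L ^ 2 * L ^ 2) := by ring
      _ ≤ e ^ 2 / 3 * (T * L ^ 2) := by gcongr
  linarith

lemma row_num2 {C6 e ρ L T u : ℝ} (hC6 : 1 ≤ C6) (he : 0 < e) (hρd : ρ = e / (2 * C6))
    (hL1 : 1 ≤ L) (hL2 : 1 / ρ ≤ L) (hT : L ^ 2 ≤ T) (hu0 : 0 ≤ u) (hρu : u ≤ ρ * L) :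
    C6 * (T * (u + 1)) * (u + 1) ≤ e ^ 2 * (T * L ^ 2) := by
  have hLp : 0 < L := by linarith
  have hTp : 0 < T := by nlinarith
  have hρ : 0 < ρ := by rw [hρd]; positivity
  rw [div_le_iff₀ hρ] at hL2
  have h1 : u + 1 ≤ 2 * (ρ * L) := by linarith
  have h2 : 0 ≤ u + 1 := by linarith
  calc _ = C6 * T * (u + 1) ^ 2 := by ring
    _ ≤ C6 * T * (2 * (ρ * L)) ^ 2 := by gcongr
    _ = (4 * C6 * ρ ^ 2) * (T * L ^ 2) := by ring
    _ ≤ e ^ 2 * (T * L ^ 2) := by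
        refine mul_le_mul_of_nonneg_right ?_ (by positivity)
        rw [hρd]
        have : 4 * C6 * (e / (2 * C6)) ^ 2 = e ^ 2 / C6 := by field_simp; ring
        rw [this]
        exact div_le_self (sq_nonneg e) hC6

/-- **The mean square for pairs with shifts depending on the pair.** -/
theorem ms_param (V0 β ε : ℝ) (hV : 0 ≤ V0) (hβ2 : β < 2) (hε : 0 < ε) (hε1 : ε ≤ 1) :
    ∃ K X0 : ℝ, 1 ≤ K ∧ 1 ≤ X0 ∧ ∀ (X Y : ℕ) (T u Z : ℝ) (v : IX × IX → ℝ),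
    X0 ≤ X → K * X ≤ Y → (Real.log X) ^ 2 ≤ T → 0 ≤ u → u ≤ β * Real.log X →
    (∀ z, |v z| ≤ V0) →
    ∫ t : ℝ, primFam X Y (fun q χ =>
      ‖∑' n : ℕ, (χ (n : ZMod q) * (ArithmeticFunction.vonMangoldt n : ℂ)) *
        ((Real.sqrt n : ℂ)⁻¹ * bt T u t (Real.log n))‖ ^ 2) ≤ Z →
    ∫ t : ℝ, ∑ z ∈ PS X Y, w2 z * ‖∑' n : ℕ, (cp z.1 (an (v z)) n + cp z.2 (bn (v z)) n) *
        ((Real.sqrt n : ℂ)⁻¹ * bt T u t (Real.log n))‖ ^ 2 ≤
      (1 + ε) * (2 * WW X Y * Z) + ε * (T * Real.log X * WW X Y ^ 2) := by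
  obtain ⟨C, hC, hmain⟩ := ms_shift0 V0 hV
  obtain ⟨C6', hC6', hrow⟩ := row_sum
  obtain ⟨C4, hC4, hmass⟩ := prim_mass
  have hc0 : 0 < c0 := by unfold c0; positivity
  obtain ⟨C6, hC6d⟩ : ∃ C6, C6 = C6' + 1 := ⟨_, rfl⟩
  have hC6 : 1 ≤ C6 := by rw [hC6d]; linarith
  obtain ⟨C5, hC5d⟩ : ∃ C5, C5 = (1 + C4) / c0 ^ 2 + 1 := ⟨_, rfl⟩
  have hC5 : 1 ≤ C5 := by
    rw [hC5d]
    have : 0 ≤ (1 + C4) / c0 ^ 2 := by positivity
    linarith
  obtain ⟨s, hs⟩ : ∃ s, s = ε / 7 := ⟨_, rfl⟩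
  have hs0 : 0 < s := by rw [hs]; positivity
  have hs1 : s ≤ 1 := by rw [hs]; linarith
  obtain ⟨e, he⟩ : ∃ e, e = ε * s / (3 * C * C5) := ⟨_, rfl⟩
  have he0 : 0 < e := by rw [he]; positivity
  obtain ⟨ρ, hρ⟩ : ∃ ρ, ρ = e / (2 * C6) := ⟨_, rfl⟩
  have hρ0 : 0 < ρ := by rw [hρ]; positivity
  obtain ⟨θ, hθ⟩ : ∃ θ, θ = e ^ 2 / (36 * C6) := ⟨_, rfl⟩
  have hθ0 : 0 < θ := by rw [hθ]; positivity
  have hβd : 0 < 2 - β := by linarith
  obtain ⟨L0, hL0⟩ : ∃ L0, L0 = 1 + 1 / ρ + θ + 72 * C6 / (ρ ^ 2 * e ^ 2) +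
    27 * C6 / (θ * e ^ 2) + 3 * C / (s * ε) + 8 / (2 - β) ^ 2 + 9 * C * C5 / (s * ε) := ⟨_, rfl⟩
  have q1 : 0 ≤ 1 / ρ := by positivity
  have q2 : 0 ≤ 72 * C6 / (ρ ^ 2 * e ^ 2) := by positivity
  have q3 : 0 ≤ 27 * C6 / (θ * e ^ 2) := by positivity
  have q4 : 0 ≤ 3 * C / (s * ε) := by positivity
  have q5 : 0 ≤ 8 / (2 - β) ^ 2 := by positivity
  have q6 : 0 ≤ 9 * C * C5 / (s * ε) := by positivity
  refine ⟨Real.exp ((C4 + 1) / c0 ^ 2), Real.exp L0, Real.one_le_exp (by positivity),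
    Real.one_le_exp (by rw [hL0]; linarith), ?_⟩
  intro X Y T u Z v hX hKX hT hu0 hu hv hZ
  have hXpos : (0 : ℝ) < X := lt_of_lt_of_le (Real.exp_pos _) hX
  obtain ⟨L, hLd⟩ : ∃ L, L = Real.log X := ⟨_, rfl⟩
  rw [← hLd] at hT hu ⊢
  have hLL0 : L0 ≤ L := by rw [hLd, Real.le_log_iff_exp_le hXpos]; exact hX
  have l1 : 1 ≤ L := by linarith
  have l2 : 1 / ρ ≤ L := by linarith
  have l3 : θ ≤ L := by linarith
  have l4 : 72 * C6 / (ρ ^ 2 * e ^ 2) ≤ L := by linarith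
  have l5 : 27 * C6 / (θ * e ^ 2) ≤ L := by linarith
  have l6 : 3 * C / (s * ε) ≤ L := by linarith
  have l7 : 8 / (2 - β) ^ 2 ≤ L := by linarith
  have l8 : 9 * C * C5 / (s * ε) ≤ L := by linarith
  have hLp : 0 < L := by linarith
  have hTL : L ≤ T := by nlinarith
  have hTp : 0 < T := by linarith
  have hXn : 1 ≤ X := by exact_mod_cast hXpos
  have hK1 : (1 : ℝ) ≤ Real.exp ((C4 + 1) / c0 ^ 2) := Real.one_le_exp (by positivity)
  have hXYr : (X : ℝ) ≤ Y := by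
    calc (X : ℝ) = 1 * X := (one_mul _).symm
      _ ≤ _ := mul_le_mul_of_nonneg_right hK1 hXpos.le
      _ ≤ Y := hKX
  have hXY : X ≤ Y := by exact_mod_cast hXYr
  have hYpos : (0 : ℝ) < Y := by linarith
  -- the mass
  have hm := abs_le.1 (hmass X Y hXn hXY)
  have hWeq : primFam X Y (fun _ _ => 1) = WW X Y := rfl
  rw [hWeq] at hm
  obtain ⟨W, hW⟩ : ∃ W, W = WW X Y := ⟨_, rfl⟩
  rw [← hW] at hm ⊢
  have hlog : (C4 + 1) / c0 ^ 2 ≤ Real.log ((Y : ℝ) / X) := by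
    rw [Real.le_log_iff_exp_le (by positivity), le_div_iff₀ hXpos]
    exact hKX
  have hW1 : 1 ≤ W := by
    rw [div_le_iff₀ (by positivity)] at hlog
    have h4 : c0 ^ 2 * Real.log ((Y : ℝ) / X) = Real.log ((Y : ℝ) / X) * c0 ^ 2 := mul_comm _ _
    linarith [hm.1]
  obtain ⟨J, hJ⟩ : ∃ J, J = Real.log ((Y : ℝ) / X) + 1 := ⟨_, rfl⟩
  have hJ0 : 0 < J := by rw [hJ]; exact LW_pos hXn hXY
  have hJW : J ≤ C5 * W := by
    have h5 : Real.log ((Y : ℝ) / X) ≤ (1 + C4) / c0 ^ 2 * W := by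
      rw [div_mul_eq_mul_div, le_div_iff₀ (by positivity)]
      nlinarith [hm.1, mul_nonneg hC4.le (sub_nonneg.2 hW1)]
    rw [hJ, hC5d]
    nlinarith
  -- the truncation
  have hN : ((X ^ 2 : ℕ) : ℝ) ≤ (X : ℝ) ^ 2 := by push_cast; exact le_rfl
  have hlN : Real.log ((X ^ 2 : ℕ) : ℝ) = 2 * L := by
    push_cast
    rw [Real.log_pow, hLd]
    push_cast
    ring
  have hG0 : 0 ≤ (2 - β) * L := by positivity
  have hGN : u + (2 - β) * L ≤ Real.log ((X ^ 2 : ℕ) : ℝ) := by rw [hlN]; linarith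
  have hN1 : 1 ≤ X ^ 2 := Nat.one_le_pow _ _ hXn
  have hu2 : u ≤ 2 * L := by nlinarith
  -- the bound for the row sums
  obtain ⟨M, hM0, hM, hMb⟩ : ∃ M : ℝ, 0 ≤ M ∧ (∀ n ∈ Finset.Icc 1 (X ^ 2),
      ∑ m ∈ Finset.Icc 1 (X ^ 2), wn m * ‖Gm T u (Real.log n) (Real.log m)‖ ≤ M) ∧
      M * (u + 1) ≤ e ^ 2 * (T * L ^ 2) := by
    rcases le_total u (ρ * L) with h | h
    · refine ⟨C6 * (T * (u + 1)), by positivity, fun n hn => ?_,
        row_num2 hC6 he0 hρ l1 l2 hT hu0 h⟩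
      refine (hrow (X ^ 2) n T u 1 (Finset.mem_Icc.1 hn).1 hN1 hTp.le hu0 one_pos le_rfl).2.trans
        (mul_le_mul_of_nonneg_right (by rw [hC6d]; linarith) (by positivity))
    · refine ⟨C6 * (T * (2 * L) ^ 2 * (θ / L + Real.exp (-u)) + (u + 1) / (θ / L)),
        by positivity, fun n hn => ?_, row_num hC6 he0 hρ0 l1 hθ l4 l5 hT hu0 hu2 h⟩
      have hδ1 : θ / L ≤ 1 := by rw [div_le_one hLp]; exact l3
      have h6 := (hrow (X ^ 2) n T u (θ / L) (Finset.mem_Icc.1 hn).1 hN1 hTp.le hu0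
        (by positivity) hδ1).1
      rw [hlN] at h6
      exact h6.trans (mul_le_mul_of_nonneg_right (by rw [hC6d]; linarith) (by positivity))
  have h7 := hmain X Y (X ^ 2) T u ((2 - β) * L) M Z s v hXn hXY hN hTp.le hu0 hG0 hGN hs0 hs1
    hM0 hv hM hZ
  rw [← hJ, ← hW] at h7
  have hZ0 : 0 ≤ Z := le_trans (integral_nonneg fun t => primFam_nonneg _ _ _
    fun _ _ => sq_nonneg _) hZ
  refine h7.trans ?_
  have hR : Real.sqrt (M * (T * (u + 1))) ≤ e * (T * L) := by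
    rw [Real.sqrt_le_left (by positivity)]
    calc M * (T * (u + 1)) = (M * (u + 1)) * T := by ring
      _ ≤ (e ^ 2 * (T * L ^ 2)) * T := mul_le_mul_of_nonneg_right hMb hTp.le
      _ = _ := by ring
  have hE : Real.exp (u - ((2 - β) * L) ^ 2 / 4) ≤ 1 := by
    rw [Real.exp_le_one_iff]
    rw [div_le_iff₀ (by positivity)] at l7
    have h8 : 8 * L ≤ L * (2 - β) ^ 2 * L := mul_le_mul_of_nonneg_right l7 hLp.le
    nlinarith
  have t1 : C / s * (W ^ 2 * (T * Real.exp (u - ((2 - β) * L) ^ 2 / 4))) ≤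
      ε / 3 * (T * L * W ^ 2) := by
    rw [div_le_iff₀ (by positivity)] at l6
    have h9 : C / s ≤ ε / 3 * L := by
      rw [div_le_iff₀ hs0]
      nlinarith
    calc _ ≤ C / s * (W ^ 2 * (T * 1)) := by gcongr
      _ = C / s * (T * W ^ 2) := by ring
      _ ≤ (ε / 3 * L) * (T * W ^ 2) := mul_le_mul_of_nonneg_right h9 (by positivity)
      _ = _ := by ring
  have t2 : C / s * (W * (J * (u + 1))) ≤ ε / 3 * (T * L * W ^ 2) := by
    rw [div_le_iff₀ (by positivity)] at l8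
    have h9 : 3 * (C / s * C5) ≤ ε / 3 * T := by
      have h10 : 3 * (C / s * C5) = 3 * (C * C5) / s := by ring
      rw [h10, div_le_iff₀ hs0]
      have h11 : L * (s * ε) ≤ T * (s * ε) := mul_le_mul_of_nonneg_right hTL (by positivity)
      nlinarith
    calc _ ≤ C / s * (W * ((C5 * W) * (3 * L))) := by
          gcongr
          linarith
      _ = 3 * (C / s * C5) * (L * W ^ 2) := by ring
      _ ≤ (ε / 3 * T) * (L * W ^ 2) := mul_le_mul_of_nonneg_right h9 (by positivity)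
      _ = _ := by ring
  have t3 : C / s * (J * W * Real.sqrt (M * (T * (u + 1)))) ≤ ε / 3 * (T * L * W ^ 2) := by
    have h12 : C / s * C5 * e = ε / 3 := by
      rw [he]; field_simp
    calc _ ≤ C / s * ((C5 * W) * W * (e * (T * L))) := by gcongr
      _ = (C / s * C5 * e) * (T * L * W ^ 2) := by ring
      _ = _ := by rw [h12]
  have t4 : (1 + s) ^ 3 * (2 * W * Z) ≤ (1 + ε) * (2 * W * Z) := by
    refine mul_le_mul_of_nonneg_right ?_ (by positivity)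
    have k1 : 0 ≤ s * (1 - s) := mul_nonneg hs0.le (by linarith)
    have k2 : 0 ≤ s * (s * (1 - s)) := mul_nonneg hs0.le k1
    have k3 : (1 + s) ^ 3 ≤ 1 + 7 * s := by nlinarith
    have k4 : 7 * s = ε := by rw [hs]; ring
    linarith
  have e5 : C / s * (W ^ 2 * (T * Real.exp (u - ((2 - β) * L) ^ 2 / 4)) + W * (J * (u + 1)) +
      J * W * Real.sqrt (M * (T * (u + 1)))) =
      C / s * (W ^ 2 * (T * Real.exp (u - ((2 - β) * L) ^ 2 / 4))) +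
      C / s * (W * (J * (u + 1))) + C / s * (J * W * Real.sqrt (M * (T * (u + 1)))) := by ring
  rw [e5]
  linarith

end Pool.Agent.T4h70.LB
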