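import Pool.Agent.T4h70.LB.Gram

/-!
# A dual inequality, and the bound for the Gram matrix
-/

set_option autoImplicit false
set_option maxHeartbeats 4000000

open Complex Filter Topology Set MeasureTheory

namespace Pool.Agent.T4h70.LB

open H385

/-- Cauchy-Schwarz -/
lemma cs_int {f g : ℝ → ℂ} (hf : Continuous f) (hg : Continuous g)
    (hf2 : Integrable (fun t => ‖f t‖ ^ 2)) (hg2 : Integrable (fun t => ‖g t‖ ^ 2)) :
    Integrable (fun t => f t * star (g t)) ∧
    ‖∫ t, f t * star (g t)‖ ^ 2 ≤ (∫ t, ‖f t‖ ^ 2) * ∫ t, ‖g t‖ ^ 2 := by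
  have hi : Integrable (fun t => ‖f t‖ * ‖g t‖) := fa_mul_int hf.norm hg.norm hf2 hg2
  have hi2 : Integrable (fun t => f t * star (g t)) := by
    refine Integrable.mono' hi (hf.mul hg.star).aestronglyMeasurable
      (Filter.Eventually.of_forall fun t => ?_)
    rw [norm_mul, norm_star]
  refine ⟨hi2, ?_⟩
  have h1 : ‖∫ t, f t * star (g t)‖ ≤ ∫ t, ‖f t‖ * ‖g t‖ := by
    refine norm_integral_le_of_norm_le hi (Filter.Eventually.of_forall fun t => ?_)
    rw [norm_mul, norm_star]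
  have h2 := fa_cross (ι := Unit) {()} (fun _ => 1) (fun _ _ => zero_le_one)
    (fun _ t => ‖f t‖) (fun _ t => ‖g t‖) (fun _ _ => hf.norm) (fun _ _ => hg.norm)
    (fun _ _ => hf2) (fun _ _ => hg2) (X := ∫ t, ‖f t‖ ^ 2) (Y := ∫ t, ‖g t‖ ^ 2)
    (by simp) (by simp)
  simp only [Finset.sum_singleton, one_mul] at h2
  have h3 := pow_le_pow_left₀ (norm_nonneg _) (h1.trans h2) 2
  refine h3.trans (le_of_eq ?_)
  rw [mul_pow, Real.sq_sqrt (integral_nonneg fun t => sq_nonneg _),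
    Real.sq_sqrt (integral_nonneg fun t => sq_nonneg _)]

/-- finite combinations -/
lemma comb_int (s : Finset ℕ) (c : ℕ → ℂ) (g : ℕ → ℝ → ℂ) (hg : ∀ n, Continuous (g n))
    (hg2 : ∀ n, Integrable (fun t => ‖g n t‖ ^ 2)) :
    Continuous (fun t => ∑ n ∈ s, c n * g n t) ∧
    Integrable (fun t => ‖∑ n ∈ s, c n * g n t‖ ^ 2) ∧
    ((∫ t, ‖∑ n ∈ s, c n * g n t‖ ^ 2 : ℝ) : ℂ) =
      ∑ n ∈ s, ∑ m ∈ s, c n * star (c m) * ∫ t, g n t * star (g m t) := by
  have hc : Continuous (fun t => ∑ n ∈ s, c n * g n t) :=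
    continuous_finsetSum _ fun n _ => continuous_const.mul (hg n)
  have hij : ∀ n m, Integrable (fun t => g n t * star (g m t)) := fun n m =>
    (cs_int (hg n) (hg m) (hg2 n) (hg2 m)).1
  have e : ∀ t, ((‖∑ n ∈ s, c n * g n t‖ ^ 2 : ℝ) : ℂ) =
      ∑ n ∈ s, ∑ m ∈ s, c n * star (c m) * (g n t * star (g m t)) := by
    intro t
    have h1 : ((‖∑ n ∈ s, c n * g n t‖ ^ 2 : ℝ) : ℂ) =
        (∑ n ∈ s, c n * g n t) * star (∑ n ∈ s, c n * g n t) := by
      show _ = _ * (starRingEnd ℂ) _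
      rw [Complex.mul_conj, Complex.normSq_eq_norm_sq]
    rw [h1, star_sum, Finset.sum_mul_sum]
    refine Finset.sum_congr rfl fun n _ => Finset.sum_congr rfl fun m _ => ?_
    rw [star_mul']
    ring
  have hI : Integrable (fun t => ((‖∑ n ∈ s, c n * g n t‖ ^ 2 : ℝ) : ℂ)) := by
    simp_rw [e]
    exact integrable_finsetSum _ fun n _ => integrable_finsetSum _ fun m _ =>
      (hij n m).const_mul _
  have hI2 : Integrable (fun t => ‖∑ n ∈ s, c n * g n t‖ ^ 2) := by
    have := hI.norm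
    refine this.congr (Filter.Eventually.of_forall fun t => ?_)
    simp only
    rw [Complex.norm_real, Real.norm_of_nonneg (sq_nonneg _)]
  refine ⟨hc, hI2, ?_⟩
  rw [← integral_complex_ofReal]
  simp_rw [e]
  rw [integral_finsetSum _ fun n _ => integrable_finsetSum _ fun m _ => (hij n m).const_mul _]
  refine Finset.sum_congr rfl fun n _ => ?_
  rw [integral_finsetSum _ fun m _ => (hij n m).const_mul _]
  refine Finset.sum_congr rfl fun m _ => ?_
  rw [integral_const_mul]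

/-- **The dual inequality.** -/
theorem gram_ls (s : Finset ℕ) (w : ℕ → ℝ) (hw : ∀ n, 0 ≤ w n) (g : ℕ → ℝ → ℂ)
    (hg : ∀ n, Continuous (g n)) (hg2 : ∀ n, Integrable (fun t => ‖g n t‖ ^ 2)) {M : ℝ}
    (hM0 : 0 ≤ M)
    (hM : ∀ n ∈ s, ∑ m ∈ s, w m * ‖∫ t, g n t * star (g m t)‖ ≤ M) (f : ℝ → ℂ)
    (hf : Continuous f) (hf2 : Integrable (fun t => ‖f t‖ ^ 2)) :
    ∑ n ∈ s, w n * ‖∫ t, f t * star (g n t)‖ ^ 2 ≤ M * ∫ t, ‖f t‖ ^ 2 := by
  obtain ⟨c, hc⟩ : ∃ c : ℕ → ℂ, c = fun n => ∫ t, f t * star (g n t) := ⟨_, rfl⟩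
  obtain ⟨S, hS⟩ : ∃ S, S = ∑ n ∈ s, w n * ‖c n‖ ^ 2 := ⟨_, rfl⟩
  have hS0 : 0 ≤ S := by
    rw [hS]; exact Finset.sum_nonneg fun n _ => mul_nonneg (hw n) (sq_nonneg _)
  obtain ⟨a1, a2, a3⟩ := comb_int s (fun n => (w n : ℂ) * c n) g hg hg2
  have hfi : ∀ n, Integrable (fun t => f t * star (g n t)) := fun n =>
    (cs_int hf (hg n) hf2 (hg2 n)).1
  have h1 : ∫ t, f t * star (∑ n ∈ s, (w n : ℂ) * c n * g n t) = (S : ℂ) := by
    have e : ∀ t, f t * star (∑ n ∈ s, (w n : ℂ) * c n * g n t) =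
        ∑ n ∈ s, ((w n : ℂ) * star (c n)) * (f t * star (g n t)) := by
      intro t
      rw [star_sum, Finset.mul_sum]
      refine Finset.sum_congr rfl fun n _ => ?_
      rw [star_mul', star_mul']
      have : star ((w n : ℂ)) = (w n : ℂ) := Complex.conj_ofReal _
      rw [this]
      ring
    simp_rw [e]
    rw [integral_finsetSum _ fun n _ => (hfi n).const_mul _, hS]
    push_cast
    refine Finset.sum_congr rfl fun n _ => ?_
    rw [integral_const_mul]
    have : (∫ t, f t * star (g n t)) = c n := by rw [hc]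
    rw [this]
    have h2 : star (c n) * c n = ((‖c n‖ : ℂ)) ^ 2 := by
      show (starRingEnd ℂ) _ * _ = _
      rw [Complex.conj_mul']
    rw [mul_assoc, h2]
  have h2 := (cs_int hf a1 hf2 a2).2
  rw [h1, Complex.norm_real, Real.norm_of_nonneg hS0] at h2
  have h3 : ∫ t, ‖∑ n ∈ s, (w n : ℂ) * c n * g n t‖ ^ 2 ≤ M * S := by
    have h4 : ‖((∫ t, ‖∑ n ∈ s, (w n : ℂ) * c n * g n t‖ ^ 2 : ℝ) : ℂ)‖ ≤ M * S := by
      rw [a3]
      have hsym : ∀ n m, ‖∫ t, g n t * star (g m t)‖ = ‖∫ t, g m t * star (g n t)‖ := by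
        intro n m
        have e : ∫ t, g n t * star (g m t) = star (∫ t, g m t * star (g n t)) := by
          show _ = (starRingEnd ℂ) _
          rw [← integral_conj]
          congr 1
          funext t
          show _ = star _
          rw [star_mul', star_star]
          ring
        rw [e, norm_star]
      calc _ ≤ ∑ n ∈ s, ∑ m ∈ s, (w n * w m * ‖∫ t, g n t * star (g m t)‖ *
            ((‖c n‖ ^ 2 + ‖c m‖ ^ 2) / 2)) := by
            refine (norm_sum_le _ _).trans (Finset.sum_le_sum fun n _ => ?_)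
            refine (norm_sum_le _ _).trans (Finset.sum_le_sum fun m _ => ?_)
            rw [norm_mul, norm_mul, norm_star, norm_mul, norm_mul, Complex.norm_real,
              Complex.norm_real, Real.norm_of_nonneg (hw n), Real.norm_of_nonneg (hw m)]
            have b1 : ‖c n‖ * ‖c m‖ ≤ (‖c n‖ ^ 2 + ‖c m‖ ^ 2) / 2 := by
              nlinarith [sq_nonneg (‖c n‖ - ‖c m‖)]
            have b2 : 0 ≤ w n * w m * ‖∫ t, g n t * star (g m t)‖ :=
              mul_nonneg (mul_nonneg (hw n) (hw m)) (norm_nonneg _)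
            calc _ = w n * w m * ‖∫ t, g n t * star (g m t)‖ * (‖c n‖ * ‖c m‖) := by ring
              _ ≤ _ := mul_le_mul_of_nonneg_left b1 b2
        _ = (∑ n ∈ s, (w n * ‖c n‖ ^ 2) / 2 * ∑ m ∈ s, w m * ‖∫ t, g n t * star (g m t)‖) +
            ∑ m ∈ s, (w m * ‖c m‖ ^ 2) / 2 * ∑ n ∈ s, w n * ‖∫ t, g m t * star (g n t)‖ := by
            have e1 : (∑ n ∈ s, ∑ m ∈ s, (w n * ‖c n‖ ^ 2) / 2 *
                  (w m * ‖∫ t, g n t * star (g m t)‖)) =
                ∑ n ∈ s, (w n * ‖c n‖ ^ 2) / 2 * ∑ m ∈ s, w m * ‖∫ t, g n t * star (g m t)‖ :=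
              Finset.sum_congr rfl fun n _ => by rw [Finset.mul_sum]
            have e2 : (∑ n ∈ s, ∑ m ∈ s, (w m * ‖c m‖ ^ 2) / 2 *
                  (w n * ‖∫ t, g n t * star (g m t)‖)) =
                ∑ m ∈ s, (w m * ‖c m‖ ^ 2) / 2 *
                  ∑ n ∈ s, w n * ‖∫ t, g m t * star (g n t)‖ := by
              rw [Finset.sum_comm]
              refine Finset.sum_congr rfl fun m _ => ?_
              rw [Finset.mul_sum]
              refine Finset.sum_congr rfl fun n _ => ?_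
              rw [hsym n m]
            rw [← e1]
            refine Eq.trans ?_ (congrArg₂ (· + ·) rfl (e2.trans e1.symm))
            rw [← Finset.sum_add_distrib]
            refine Finset.sum_congr rfl fun n _ => ?_
            rw [← Finset.sum_add_distrib]
            refine Finset.sum_congr rfl fun m _ => ?_
            ring
        _ ≤ (∑ n ∈ s, (w n * ‖c n‖ ^ 2) / 2 * M) + ∑ m ∈ s, (w m * ‖c m‖ ^ 2) / 2 * M := by
            have b3 : ∀ n ∈ s, (w n * ‖c n‖ ^ 2) / 2 * ∑ m ∈ s, w m * ‖∫ t, g n t * star (g m t)‖ ≤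
                (w n * ‖c n‖ ^ 2) / 2 * M := fun n hn =>
              mul_le_mul_of_nonneg_left (hM n hn)
                (div_nonneg (mul_nonneg (hw n) (sq_nonneg _)) (by norm_num))
            exact add_le_add (Finset.sum_le_sum b3) (Finset.sum_le_sum b3)
        _ = M * S := by
            rw [← Finset.sum_mul, ← Finset.sum_div, ← hS]
            ring
    rwa [Complex.norm_real, Real.norm_of_nonneg (integral_nonneg fun t => sq_nonneg _)] at h4
  have hgoal : S ≤ M * ∫ t, ‖f t‖ ^ 2 := by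
    have hf0 : 0 ≤ ∫ t, ‖f t‖ ^ 2 := integral_nonneg fun t => sq_nonneg _
    rcases hS0.eq_or_lt with h0 | h0
    · rw [← h0]; positivity
    · have h5 : S ^ 2 ≤ (∫ t, ‖f t‖ ^ 2) * (M * S) :=
        h2.trans (mul_le_mul_of_nonneg_left h3 hf0)
      have h6 : S * S ≤ (M * ∫ t, ‖f t‖ ^ 2) * S := by nlinarith
      exact le_of_mul_le_mul_right h6 h0
  have e3 : ∑ n ∈ s, w n * ‖∫ t, f t * star (g n t)‖ ^ 2 = S := by rw [hS, hc]
  rw [e3]
  exact hgoal

end Pool.Agent.T4h70.LB
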