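import Pool.Agent.T4h70.LB.Cross

/-!
# The mixed terms, uniformly in the shift
-/

set_option autoImplicit false
set_option maxHeartbeats 4000000

open Complex Filter Topology Set MeasureTheory

namespace Pool.Agent.T4h70.LB

open H385
open Pool.Agent.R321.RC (cf cf_norm PS w2 w2_nonneg avg2 avg2_swap avg2_add sum_w2 WW_eq)
open Pool.Agent.T4h70.LI (ph ph_norm ph_zero)

/-- the normalised phases -/
noncomputable def ex (u x : ℝ) (n : ℕ) : ℂ := cexp (I * (x * (u - Real.log n)))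

/-- their derivatives in `x` -/
noncomputable def dex (u x : ℝ) (n : ℕ) : ℂ := I * (u - Real.log n) * ex u x n

lemma ex_norm (u x : ℝ) (n : ℕ) : ‖ex u x n‖ = 1 := by
  unfold ex
  have : (I * (x * (u - Real.log n)) : ℂ) = ((x * (u - Real.log n) : ℝ) : ℂ) * I := by
    push_cast; ring
  rw [this, Complex.norm_exp_ofReal_mul_I]

lemma dex_norm (u x : ℝ) (n : ℕ) : ‖dex u x n‖ = |u - Real.log n| := by
  unfold dex
  rw [norm_mul, norm_mul, ex_norm, Complex.norm_I, one_mul, mul_one]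
  rw [show ((u : ℂ) - (Real.log n : ℂ)) = ((u - Real.log n : ℝ) : ℂ) by push_cast; rfl,
    Complex.norm_real, Real.norm_eq_abs]

lemma ex_zero (u : ℝ) (n : ℕ) : ex u 0 n = 1 := by
  unfold ex
  simp

lemma ph_ex (u v : ℝ) {n : ℕ} (hn : 1 ≤ n) : ph v n = cexp (-(I * (v * u))) * ex u v n := by
  have hn0 : (n : ℂ) ≠ 0 := by exact_mod_cast (by omega : n ≠ 0)
  unfold ph ex
  rw [Complex.cpow_def_of_ne_zero hn0, ← Complex.exp_add, Complex.natCast_log]
  congr 1
  ring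

/-- the pairing with one term -/
noncomputable def Am (N : ℕ) (p : IX) (T u : ℝ) (m : ℕ) : ℂ :=
  ∫ t, Sf N p (fun _ => 1) T u t * star (bt T u t (Real.log m))

lemma Pr_eq (N : ℕ) (p p' : IX) (c : ℕ → ℂ) (T u : ℝ) (hT : 0 ≤ T) :
    Pr N p p' c T u = ∑ m ∈ Finset.Icc 1 N,
      star (cf p' m * (Real.sqrt m : ℂ)⁻¹ * c m) * Am N p T u m := by
  obtain ⟨f1, f2⟩ := Sf_comb N p (fun _ => 1) T u hT
  have hbi : ∀ m : ℕ, Integrable (fun t => Sf N p (fun _ => 1) T u t *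
      star (bt T u t (Real.log m))) :=
    fun m => (cs_int f1 (fa_bt_cont T u _) f2 (bt_sq T u _ hT).1).1
  unfold Pr
  have e2 : ∀ t, Sf N p (fun _ => 1) T u t * star (Sf N p' c T u t) =
      ∑ m ∈ Finset.Icc 1 N, star (cf p' m * (Real.sqrt m : ℂ)⁻¹ * c m) *
        (Sf N p (fun _ => 1) T u t * star (bt T u t (Real.log m))) := by
    intro t
    have : star (Sf N p' c T u t) = ∑ m ∈ Finset.Icc 1 N,
        star (cf p' m * (Real.sqrt m : ℂ)⁻¹ * c m) * star (bt T u t (Real.log m)) := by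
      unfold Sf
      rw [star_sum]
      exact Finset.sum_congr rfl fun m _ => star_mul' _ _
    rw [this, Finset.mul_sum]
    exact Finset.sum_congr rfl fun m _ => by ring
  simp_rw [e2]
  rw [integral_finsetSum _ fun m _ => (hbi m).const_mul _]
  refine Finset.sum_congr rfl fun m _ => ?_
  rw [integral_const_mul]
  rfl

lemma ex_deriv (u x : ℝ) (n : ℕ) : HasDerivAt (fun x : ℝ => ex u x n) (dex u x n) x := by
  have h1 : HasDerivAt (fun x : ℝ => (I * (x * (u - Real.log n)) : ℂ))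
      (I * (1 * ((u : ℂ) - Real.log n))) x :=
    ((Complex.ofRealCLM.hasDerivAt (x := x)).mul_const ((u : ℂ) - Real.log n)).const_mul I
  unfold ex dex ex
  refine h1.cexp.congr_deriv ?_
  ring

lemma ex_cont (u : ℝ) (n : ℕ) : Continuous (fun x : ℝ => ex u x n) := by
  unfold ex
  fun_prop

lemma dex_cont (u : ℝ) (n : ℕ) : Continuous (fun x : ℝ => dex u x n) := by
  unfold dex ex
  fun_prop

lemma Pr_deriv (N : ℕ) (p p' : IX) (T u x : ℝ) (hT : 0 ≤ T) :
    HasDerivAt (fun x : ℝ => Pr N p p' (ex u x) T u) (Pr N p p' (dex u x) T u) x := by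
  have e : (fun x : ℝ => Pr N p p' (ex u x) T u) = fun x : ℝ => ∑ m ∈ Finset.Icc 1 N,
      star (cf p' m * (Real.sqrt m : ℂ)⁻¹ * ex u x m) * Am N p T u m := by
    funext x
    exact Pr_eq N p p' _ T u hT
  rw [e, Pr_eq N p p' _ T u hT]
  refine HasDerivAt.fun_sum fun m _ => ?_
  exact (((ex_deriv u x m).const_mul (cf p' m * (Real.sqrt m : ℂ)⁻¹)).star).mul_const _

lemma Pr_dcont (N : ℕ) (p p' : IX) (T u : ℝ) (hT : 0 ≤ T) :
    Continuous (fun x : ℝ => Pr N p p' (dex u x) T u) := by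
  have e : (fun x : ℝ => Pr N p p' (dex u x) T u) = fun x : ℝ => ∑ m ∈ Finset.Icc 1 N,
      star (cf p' m * (Real.sqrt m : ℂ)⁻¹ * dex u x m) * Am N p T u m := by
    funext x
    exact Pr_eq N p p' _ T u hT
  rw [e]
  refine continuous_finsetSum _ fun m _ => ?_
  exact ((continuous_const.mul (dex_cont u m)).star).mul continuous_const

/-- the bound for all shifts at once -/
noncomputable def Az (N : ℕ) (T u V0 : ℝ) (z : IX × IX) : ℝ :=
  ‖Pr N z.1 z.2 (ex u 0) T u‖ + ∫ x in (0 : ℝ)..V0, ‖Pr N z.1 z.2 (dex u x) T u‖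

lemma Az_nonneg (N : ℕ) (T u : ℝ) {V0 : ℝ} (hV : 0 ≤ V0) (z : IX × IX) : 0 ≤ Az N T u V0 z := by
  unfold Az
  exact add_nonneg (norm_nonneg _) (intervalIntegral.integral_nonneg hV fun _ _ => norm_nonneg _)

lemma Az_bound (N : ℕ) (p p' : IX) (T u : ℝ) (hT : 0 ≤ T) {v V0 : ℝ} (hv : 0 ≤ v) (hvV : v ≤ V0) :
    ‖Pr N p p' (ex u v) T u‖ ≤ Az N T u V0 (p, p') := by
  have hc := Pr_dcont N p p' T u hT
  have h1 := intervalIntegral.integral_eq_sub_of_hasDerivAt (a := 0) (b := v)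
    (f := fun x : ℝ => Pr N p p' (ex u x) T u) (fun x _ => Pr_deriv N p p' T u x hT)
    (hc.intervalIntegrable _ _)
  have h2 : Pr N p p' (ex u v) T u = Pr N p p' (ex u 0) T u +
      ∫ x in (0 : ℝ)..v, Pr N p p' (dex u x) T u := by
    rw [h1]; ring
  unfold Az
  rw [h2]
  refine (norm_add_le _ _).trans (add_le_add le_rfl ?_)
  refine (intervalIntegral.norm_integral_le_integral_norm hv).trans ?_
  refine intervalIntegral.integral_mono_interval le_rfl hv hvV
    (Filter.Eventually.of_forall fun _ => norm_nonneg _) (hc.norm.intervalIntegrable _ _)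

lemma avg2_le_of {X Y : ℕ} {f g : IX × IX → ℝ} (h : ∀ z, f z ≤ g z) : avg2 X Y f ≤ avg2 X Y g :=
  Finset.sum_le_sum fun z _ => mul_le_mul_of_nonneg_left (h z) (w2_nonneg z)

theorem Az_avg : ∃ C : ℝ, 1 ≤ C ∧ ∀ (X Y N : ℕ) (T u M V0 : ℝ), 1 ≤ X → X ≤ Y →
    (N : ℝ) ≤ (X : ℝ) ^ 2 → 0 ≤ T → 0 ≤ u → 0 ≤ M → 0 ≤ V0 →
    (∀ n ∈ Finset.Icc 1 N,
      ∑ m ∈ Finset.Icc 1 N, wn m * ‖Gm T u (Real.log n) (Real.log m)‖ ≤ M) →
    avg2 X Y (fun z => Az N T u V0 z) ≤ C * (1 + V0) *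
      ((Real.log ((Y : ℝ) / X) + 1) * WW X Y * Real.sqrt (M * (T * (u + 1)))) := by
  obtain ⟨C, hC, h⟩ := Pr_sq
  refine ⟨C, hC, fun X Y N T u M V0 hX hXY hN hT hu hM0 hV hM => ?_⟩
  obtain ⟨B, hB⟩ : ∃ B, B = C * ((Real.log ((Y : ℝ) / X) + 1) * WW X Y *
    Real.sqrt (M * (T * (u + 1)))) := ⟨_, rfl⟩
  have h1 : avg2 X Y (fun z => ‖Pr N z.1 z.2 (ex u 0) T u‖) ≤ B := by
    refine (h X Y N (ex u 0) T u M hX hXY hN hT hu hM0 hM fun n _ => ?_).trans (le_of_eq ?_)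
    · rw [ex_norm]
      nlinarith [sq_nonneg (u - Real.log n)]
    · rw [hB]; ring
  have h2 : ∀ x : ℝ, avg2 X Y (fun z => ‖Pr N z.1 z.2 (dex u x) T u‖) ≤ B := by
    intro x
    refine (h X Y N (dex u x) T u M hX hXY hN hT hu hM0 hM fun n _ => ?_).trans (le_of_eq ?_)
    · rw [dex_norm, sq_abs]
      linarith
    · rw [hB]; ring
  have hci : ∀ z : IX × IX, IntervalIntegrable
      (fun x : ℝ => w2 z * ‖Pr N z.1 z.2 (dex u x) T u‖) volume 0 V0 := fun z =>
    ((Pr_dcont N z.1 z.2 T u hT).norm.const_smul (w2 z)).intervalIntegrable _ _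
  have h3 : avg2 X Y (fun z => ∫ x in (0 : ℝ)..V0, ‖Pr N z.1 z.2 (dex u x) T u‖) ≤ V0 * B := by
    have e1 : avg2 X Y (fun z => ∫ x in (0 : ℝ)..V0, ‖Pr N z.1 z.2 (dex u x) T u‖) =
        ∫ x in (0 : ℝ)..V0, avg2 X Y (fun z => ‖Pr N z.1 z.2 (dex u x) T u‖) := by
      unfold avg2
      rw [intervalIntegral.integral_finsetSum fun z _ => hci z]
      refine Finset.sum_congr rfl fun z _ => ?_
      rw [intervalIntegral.integral_const_mul]
    rw [e1]
    have h4 : ∫ x in (0 : ℝ)..V0, avg2 X Y (fun z => ‖Pr N z.1 z.2 (dex u x) T u‖) ≤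
        ∫ _ in (0 : ℝ)..V0, B := by
      refine intervalIntegral.integral_mono_on hV ?_ (by simp) fun x _ => h2 x
      refine Continuous.intervalIntegrable ?_ _ _
      unfold avg2
      exact continuous_finsetSum _ fun z _ =>
        (Pr_dcont N z.1 z.2 T u hT).norm.const_smul (w2 z)
    rwa [intervalIntegral.integral_const, sub_zero, smul_eq_mul] at h4
  unfold Az
  rw [avg2_add]
  calc _ ≤ B + V0 * B := add_le_add h1 h3
    _ = _ := by rw [hB]; ring

/-- the negative part and the positive part of the shift -/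
noncomputable def an (v : ℝ) : ℝ := max (-v) 0

noncomputable def bn (v : ℝ) : ℝ := max v 0

lemma Sf_ph (N : ℕ) (p : IX) (v T u t : ℝ) :
    Sf N p (ph v) T u t = cexp (-(I * (v * u))) * Sf N p (ex u v) T u t := by
  unfold Sf
  rw [Finset.mul_sum]
  refine Finset.sum_congr rfl fun n hn => ?_
  rw [ph_ex u v (Finset.mem_Icc.1 hn).1]
  ring

lemma phase_norm (v u : ℝ) : ‖cexp (-(I * (v * u)))‖ = 1 := by
  have : (-(I * (v * u)) : ℂ) = ((-(v * u) : ℝ) : ℂ) * I := by push_cast; ring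
  rw [this, Complex.norm_exp_ofReal_mul_I]

lemma Sf_ph0 (N : ℕ) (p : IX) (T u t : ℝ) :
    Sf N p (ph 0) T u t = Sf N p (fun _ => 1) T u t := by
  unfold Sf
  exact Finset.sum_congr rfl fun n _ => by rw [ph_zero]

/-- the mixed term of a pair -/
lemma mixed (N : ℕ) (z : IX × IX) (T u v V0 : ℝ) (hT : 0 ≤ T) (hv : |v| ≤ V0) :
    ‖∫ t, Sf N z.1 (ph (an v)) T u t * star (Sf N z.2 (ph (bn v)) T u t)‖ ≤
      Az N T u V0 z + Az N T u V0 (z.2, z.1) := by
  have hV : 0 ≤ V0 := (abs_nonneg v).trans hv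
  rcases le_total 0 v with h | h
  · have e1 : an v = 0 := max_eq_right (by linarith)
    have e2 : bn v = v := max_eq_left h
    rw [abs_of_nonneg h] at hv
    have e3 : ∫ t, Sf N z.1 (ph (an v)) T u t * star (Sf N z.2 (ph (bn v)) T u t) =
        star (cexp (-(I * (v * u)))) * Pr N z.1 z.2 (ex u v) T u := by
      unfold Pr
      rw [← integral_const_mul]
      congr 1
      funext t
      rw [e1, e2, Sf_ph0, Sf_ph, star_mul']
      ring
    rw [e3, norm_mul, norm_star, phase_norm, one_mul]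
    have h1 := Az_bound N z.1 z.2 T u hT h hv
    have h2 := Az_nonneg N T u hV (z.2, z.1)
    exact h1.trans (by simpa using h2)
  · have e1 : an v = -v := max_eq_left (by linarith)
    have e2 : bn v = 0 := max_eq_right h
    rw [abs_of_nonpos h] at hv
    have e3 : ∫ t, Sf N z.1 (ph (an v)) T u t * star (Sf N z.2 (ph (bn v)) T u t) =
        star (star (cexp (-(I * ((-v : ℝ) * u)))) * Pr N z.2 z.1 (ex u (-v)) T u) := by
      unfold Pr
      rw [← integral_const_mul]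
      show _ = (starRingEnd ℂ) _
      rw [← integral_conj]
      congr 1
      funext t
      show _ = star _
      rw [e1, e2, Sf_ph0, Sf_ph, star_mul', star_mul', star_star, star_star]
      ring
    rw [e3, norm_star, norm_mul, norm_star, phase_norm, one_mul]
    have h1 := Az_bound N z.2 z.1 T u hT (by linarith : 0 ≤ -v) hv
    have h2 := Az_nonneg N T u hV z
    linarith

/-- **The mixed terms of all pairs.** -/
theorem mixed_main : ∃ C : ℝ, 1 ≤ C ∧ ∀ (X Y N : ℕ) (T u M V0 : ℝ) (v : IX × IX → ℝ), 1 ≤ X →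
    X ≤ Y → (N : ℝ) ≤ (X : ℝ) ^ 2 → 0 ≤ T → 0 ≤ u → 0 ≤ M → (∀ z, |v z| ≤ V0) →
    (∀ n ∈ Finset.Icc 1 N,
      ∑ m ∈ Finset.Icc 1 N, wn m * ‖Gm T u (Real.log n) (Real.log m)‖ ≤ M) →
    avg2 X Y (fun z => ‖∫ t, Sf N z.1 (ph (an (v z))) T u t *
      star (Sf N z.2 (ph (bn (v z))) T u t)‖) ≤ C * (1 + V0) *
      ((Real.log ((Y : ℝ) / X) + 1) * WW X Y * Real.sqrt (M * (T * (u + 1)))) := by
  obtain ⟨C, hC, h⟩ := Az_avg
  refine ⟨2 * C, by linarith, fun X Y N T u M V0 v hX hXY hN hT hu hM0 hv hM => ?_⟩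
  have hV : 0 ≤ V0 := (abs_nonneg _).trans (hv (⟨0, 1⟩, ⟨0, 1⟩))
  have h1 := h X Y N T u M V0 hX hXY hN hT hu hM0 hV hM
  calc _ ≤ avg2 X Y (fun z => Az N T u V0 z + Az N T u V0 (z.2, z.1)) :=
        avg2_le_of fun z => mixed N z T u (v z) V0 hT (hv z)
    _ = avg2 X Y (fun z => Az N T u V0 z) + avg2 X Y (fun z => Az N T u V0 z) := by
        rw [avg2_add, ← avg2_swap X Y (fun p p' => Az N T u V0 (p, p'))]
    _ ≤ _ := by linarith

end Pool.Agent.T4h70.LB
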