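import Pool.Agent.T4h70.LB.Sup

/-!
# The mean squares of the shifted prime sums
-/

set_option autoImplicit false
set_option maxHeartbeats 4000000

open Complex Filter Topology Set MeasureTheory

namespace Pool.Agent.T4h70.LB

open H385
open Pool.Agent.R321.RC (cf cf_norm PS w2 w2_nonneg avg2 avg2_swap avg2_add sum_w2 WW_eq)
open Pool.Agent.T4h70.LI (ph ph_norm ph_zero)

/-- the local prime sum -/
noncomputable def Ds (N : ℕ) (p : IX) (u y : ℝ) : ℂ :=
  ∑ n ∈ Finset.Icc 1 N, (cf p n * (Real.sqrt n : ℂ)⁻¹) *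
    ((Real.exp (-(u - Real.log n) ^ 2 / 4) : ℂ) * cexp (I * (y * (u - Real.log n))))

lemma Ds_cont (N : ℕ) (p : IX) (u : ℝ) : Continuous (Ds N p u) := by
  unfold Ds
  fun_prop

lemma osc_norm (y x : ℝ) : ‖cexp (I * (y * x))‖ = 1 := by
  have : (I * (y * x) : ℂ) = ((y * x : ℝ) : ℂ) * I := by push_cast; ring
  rw [this, Complex.norm_exp_ofReal_mul_I]

lemma Ds_bdd (N : ℕ) (p : IX) (u : ℝ) : ∃ B : ℝ, 0 ≤ B ∧ ∀ y, ‖Ds N p u y‖ ≤ B := by
  refine ⟨∑ n ∈ Finset.Icc 1 N, ‖cf p n * (Real.sqrt n : ℂ)⁻¹‖ *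
    Real.exp (-(u - Real.log n) ^ 2 / 4), Finset.sum_nonneg fun n _ => by positivity, fun y => ?_⟩
  unfold Ds
  refine (norm_sum_le _ _).trans (Finset.sum_le_sum fun n _ => le_of_eq ?_)
  have h1 : ‖cexp (I * (y * (u - Real.log n)))‖ = 1 := by
    have := osc_norm y (u - Real.log n)
    rw [Complex.ofReal_sub] at this
    exact this
  rw [norm_mul, norm_mul (Real.exp (-(u - Real.log n) ^ 2 / 4) : ℂ), h1, mul_one,
    Complex.norm_real, Real.norm_of_nonneg (Real.exp_pos _).le]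

/-- the large sieve at one point -/
theorem Ds_ls : ∃ C : ℝ, 1 ≤ C ∧ ∀ (X Y N : ℕ) (u y : ℝ), 1 ≤ X → X ≤ Y →
    (N : ℝ) ≤ (X : ℝ) ^ 2 → 0 ≤ u →
    ∑ p ∈ primSet X Y, (1 / (p.1 : ℝ) ^ 2) * ‖Ds N p u y‖ ^ 2 ≤
      C * (Real.log ((Y : ℝ) / X) + 1) * (u + 1) := by
  obtain ⟨C1, hC1, h1⟩ := ls_cf
  obtain ⟨C2, hC2, h2⟩ := lam_wide
  refine ⟨C1 * (C2 + 1), one_le_mul_of_one_le_of_one_le hC1 (by linarith),
    fun X Y N u y hX hXY hN hu => ?_⟩
  have hLW := LW_pos hX hXY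
  have h3 := h1 X Y N (fun n => (Real.exp (-(u - Real.log n) ^ 2 / 4) : ℂ) *
    cexp (I * (y * (u - Real.log n)))) hX hXY hN
  have h4 : ∑ n ∈ Finset.Icc 1 N, wn n * ‖(Real.exp (-(u - Real.log n) ^ 2 / 4) : ℂ) *
      cexp (I * (y * (u - Real.log n)))‖ ^ 2 ≤ C2 * (u + 1) := by
    refine le_trans (Finset.sum_le_sum fun n _ => ?_) (h2 u N hu)
    have h5 : ‖cexp (I * (y * (u - Real.log n)))‖ = 1 := by
      have := osc_norm y (u - Real.log n)
      rw [Complex.ofReal_sub] at this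
      exact this
    rw [norm_mul, h5, mul_one, Complex.norm_real, Real.norm_of_nonneg (Real.exp_pos _).le]
    refine mul_le_mul_of_nonneg_left ?_ (wn_nonneg n)
    rw [sq]
    refine mul_le_of_le_one_left (Real.exp_pos _).le ?_
    rw [Real.exp_le_one_iff]
    nlinarith [sq_nonneg (u - Real.log n)]
  refine h3.trans ?_
  calc _ ≤ C1 * (Real.log ((Y : ℝ) / X) + 1) * (C2 * (u + 1)) :=
        mul_le_mul_of_nonneg_left h4 (by positivity)
    _ ≤ _ := by
        have h6 : 0 ≤ C1 * ((Real.log ((Y : ℝ) / X) + 1) * (u + 1)) := by positivity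
        nlinarith

/-- the windowed integral of the local prime sum -/
noncomputable def Jw (N : ℕ) (p : IX) (u a α β t : ℝ) : ℂ :=
  ∫ τ in α..β, (Real.exp (-(t - τ) ^ 2 / 4) : ℂ) * Ds N p u ((t + τ) / 2 + a)

lemma Jw_int (N : ℕ) (p : IX) (u a t α β : ℝ) : IntervalIntegrable
    (fun τ : ℝ => (Real.exp (-(t - τ) ^ 2 / 4) : ℂ) * Ds N p u ((t + τ) / 2 + a))
      volume α β := by
  refine Continuous.intervalIntegrable ?_ _ _
  have := Ds_cont N p u
  fun_prop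

lemma Sf_eq (N : ℕ) (p : IX) (a T u t : ℝ) :
    Sf N p (ph a) T u t = cexp (-(I * (a * u))) * ((kap : ℂ) * Jw N p u a T (2 * T) t) := by
  rw [Sf_ph]
  congr 1
  unfold Jw Ds Sf
  have e1 : ∀ τ : ℝ, (Real.exp (-(t - τ) ^ 2 / 4) : ℂ) * ∑ n ∈ Finset.Icc 1 N,
      (cf p n * (Real.sqrt n : ℂ)⁻¹) * ((Real.exp (-(u - Real.log n) ^ 2 / 4) : ℂ) *
        cexp (I * ((((t + τ) / 2 + a : ℝ) : ℂ) * (u - Real.log n)))) =
      ∑ n ∈ Finset.Icc 1 N, (cf p n * (Real.sqrt n : ℂ)⁻¹ * ex u a n *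
        (Real.exp (-(u - Real.log n) ^ 2 / 4) : ℂ)) *
        ((Real.exp (-(t - τ) ^ 2 / 4) : ℂ) * cexp (I * ((t + τ) / 2) * (u - Real.log n))) := by
    intro τ
    rw [Finset.mul_sum]
    refine Finset.sum_congr rfl fun n _ => ?_
    have e2 : cexp (I * ((((t + τ) / 2 + a : ℝ) : ℂ) * (u - Real.log n))) =
        ex u a n * cexp (I * ((t + τ) / 2) * (u - Real.log n)) := by
      unfold ex
      rw [← Complex.exp_add]
      congr 1
      push_cast
      ring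
    rw [e2]
    ring
  simp_rw [e1]
  have hci : ∀ n : ℕ, IntervalIntegrable (fun τ : ℝ =>
      (cf p n * (Real.sqrt n : ℂ)⁻¹ * ex u a n *
        (Real.exp (-(u - Real.log n) ^ 2 / 4) : ℂ)) *
        ((Real.exp (-(t - τ) ^ 2 / 4) : ℂ) * cexp (I * ((t + τ) / 2) * (u - Real.log n))))
      volume T (2 * T) := fun n => Continuous.intervalIntegrable (by fun_prop) _ _
  rw [intervalIntegral.integral_finsetSum fun n _ => hci n, Finset.mul_sum]
  refine Finset.sum_congr rfl fun n _ => ?_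
  rw [intervalIntegral.integral_const_mul]
  unfold bt kap
  push_cast
  ring

lemma Jw_shift (N : ℕ) (p : IX) (u a α β t : ℝ) :
    Jw N p u a α β t = Jw N p u 0 (α + a) (β + a) (t + a) := by
  unfold Jw
  rw [← intervalIntegral.integral_comp_add_right (fun τ : ℝ =>
    (Real.exp (-(t + a - τ) ^ 2 / 4) : ℂ) * Ds N p u ((t + a + τ) / 2 + 0)) a]
  refine intervalIntegral.integral_congr fun τ _ => ?_
  have e1 : t + a - (τ + a) = t - τ := by ring
  have e2 : (t + a + (τ + a)) / 2 + 0 = (t + τ) / 2 + a := by ring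
  rw [e1, e2]

/-- the boundary terms -/
noncomputable def Kw (N : ℕ) (p : IX) (u V0 α t : ℝ) : ℝ :=
  ∫ τ in α..(α + V0), Real.exp (-(t - τ) ^ 2 / 4) * ‖Ds N p u ((t + τ) / 2)‖

/-- their squares -/
noncomputable def Hw (N : ℕ) (p : IX) (u V0 α t : ℝ) : ℝ :=
  ∫ τ in α..(α + V0), Real.exp (-(t - τ) ^ 2 / 2) * ‖Ds N p u ((t + τ) / 2)‖ ^ 2

lemma interval_cs {f : ℝ → ℝ} (hf : Continuous f) {a V : ℝ} (hV : 0 ≤ V) :
    (∫ τ in a..(a + V), f τ) ^ 2 ≤ V * ∫ τ in a..(a + V), f τ ^ 2 := by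
  rcases hV.eq_or_lt with h | h
  · rw [← h]; simp
  · obtain ⟨A, hA⟩ : ∃ A, A = ∫ τ in a..(a + V), f τ := ⟨_, rfl⟩
    obtain ⟨c, hc⟩ : ∃ c, c = A / V := ⟨_, rfl⟩
    have h1 : 0 ≤ ∫ τ in a..(a + V), (f τ - c) ^ 2 :=
      intervalIntegral.integral_nonneg (by linarith) fun _ _ => sq_nonneg _
    have i1 : IntervalIntegrable (fun τ => f τ ^ 2) volume a (a + V) :=
      (hf.pow 2).intervalIntegrable _ _
    have i2 : IntervalIntegrable (fun τ => 2 * c * f τ) volume a (a + V) :=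
      (hf.const_smul (2 * c)).intervalIntegrable _ _
    have e : ∫ τ in a..(a + V), (f τ - c) ^ 2 =
        (∫ τ in a..(a + V), f τ ^ 2) - 2 * c * A + V * c ^ 2 := by
      have e1 : ∀ τ, (f τ - c) ^ 2 = f τ ^ 2 - 2 * c * f τ + c ^ 2 := fun τ => by ring
      simp_rw [e1]
      rw [intervalIntegral.integral_add (i1.sub i2) (by simp),
        intervalIntegral.integral_sub i1 i2, intervalIntegral.integral_const_mul,
        intervalIntegral.integral_const, smul_eq_mul, ← hA]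
      ring
    rw [e] at h1
    have h2 : 2 * c * A - V * c ^ 2 = A ^ 2 / V := by
      rw [hc]; field_simp; ring
    rw [← hA]
    have h3 : A ^ 2 / V ≤ ∫ τ in a..(a + V), f τ ^ 2 := by linarith
    rw [div_le_iff₀ h] at h3
    linarith

lemma Kw_sq (N : ℕ) (p : IX) (u : ℝ) {V0 : ℝ} (hV : 0 ≤ V0) (α t : ℝ) :
    Kw N p u V0 α t ^ 2 ≤ V0 * Hw N p u V0 α t := by
  have hc : Continuous (fun τ : ℝ => Real.exp (-(t - τ) ^ 2 / 4) *
      ‖Ds N p u ((t + τ) / 2)‖) := by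
    have := Ds_cont N p u
    fun_prop
  unfold Kw Hw
  refine (interval_cs hc hV).trans (le_of_eq ?_)
  congr 1
  refine intervalIntegral.integral_congr fun τ _ => ?_
  rw [mul_pow, ← Real.exp_nat_mul]
  congr 2
  push_cast
  ring

lemma Kw_nonneg (N : ℕ) (p : IX) (u : ℝ) {V0 : ℝ} (hV : 0 ≤ V0) (α t : ℝ) :
    0 ≤ Kw N p u V0 α t :=
  intervalIntegral.integral_nonneg (by linarith) fun _ _ => by positivity

lemma Hw_nonneg (N : ℕ) (p : IX) (u : ℝ) {V0 : ℝ} (hV : 0 ≤ V0) (α t : ℝ) :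
    0 ≤ Hw N p u V0 α t :=
  intervalIntegral.integral_nonneg (by linarith) fun _ _ => by positivity

lemma Jw_le_Kw (N : ℕ) (p : IX) (u t α : ℝ) {a V0 : ℝ} (ha : 0 ≤ a) (haV : a ≤ V0) :
    ‖Jw N p u 0 α (α + a) t‖ ≤ Kw N p u V0 α t := by
  have hc : Continuous (fun τ : ℝ => Real.exp (-(t - τ) ^ 2 / 4) *
      ‖Ds N p u ((t + τ) / 2)‖) := by
    have := Ds_cont N p u
    fun_prop
  unfold Jw Kw
  refine (intervalIntegral.norm_integral_le_integral_norm (by linarith)).trans ?_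
  have e : ∀ τ : ℝ, ‖(Real.exp (-(t - τ) ^ 2 / 4) : ℂ) * Ds N p u ((t + τ) / 2 + 0)‖ =
      Real.exp (-(t - τ) ^ 2 / 4) * ‖Ds N p u ((t + τ) / 2)‖ := by
    intro τ
    rw [norm_mul, Complex.norm_real, Real.norm_of_nonneg (Real.exp_pos _).le, add_zero]
  simp_rw [e]
  exact intervalIntegral.integral_mono_interval le_rfl (by linarith) (by linarith)
    (Filter.Eventually.of_forall fun _ => by positivity) (hc.intervalIntegrable _ _)

lemma Jw_split (N : ℕ) (p : IX) (u T t : ℝ) {a V0 : ℝ} (ha : 0 ≤ a) (haV : a ≤ V0) :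
    ‖Jw N p u 0 (T + a) (2 * T + a) t - Jw N p u 0 T (2 * T) t‖ ≤
      Kw N p u V0 T t + Kw N p u V0 (2 * T) t := by
  have h1 := Jw_le_Kw N p u t T ha haV
  have h2 := Jw_le_Kw N p u t (2 * T) ha haV
  have e : Jw N p u 0 (T + a) (2 * T + a) t - Jw N p u 0 T (2 * T) t =
      Jw N p u 0 (2 * T) (2 * T + a) t - Jw N p u 0 T (T + a) t := by
    have i := fun α β => Jw_int N p u 0 t α β
    have k1 := intervalIntegral.integral_add_adjacent_intervals (i T (T + a))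
      (i (T + a) (2 * T + a))
    have k2 := intervalIntegral.integral_add_adjacent_intervals (i T (2 * T))
      (i (2 * T) (2 * T + a))
    unfold Jw
    rw [← k2] at k1
    linear_combination k1
  rw [e]
  refine (norm_sub_le _ _).trans ?_
  linarith

lemma gauss_half (V0 : ℝ) {τ α t : ℝ} (h1 : α ≤ τ) (h2 : τ ≤ α + V0) :
    Real.exp (-(t - τ) ^ 2 / 2) ≤ Real.exp (V0 ^ 2 / 2) * Real.exp (-(1 / 4) * (t - α) ^ 2) := by
  rw [← Real.exp_add]
  apply Real.exp_le_exp.2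
  have h3 : (τ - α) ^ 2 ≤ V0 ^ 2 := by
    apply pow_le_pow_left₀ (by linarith)
    linarith
  nlinarith [sq_nonneg ((t - τ) - (τ - α))]

lemma Hw_facts (N : ℕ) (p : IX) (u : ℝ) {V0 : ℝ} (hV : 0 ≤ V0) (α : ℝ) :
    Continuous (Hw N p u V0 α) ∧ Integrable (Hw N p u V0 α) := by
  have hD := Ds_cont N p u
  have hc : Continuous (Hw N p u V0 α) := by
    unfold Hw
    apply intervalIntegral.continuous_parametric_intervalIntegral_of_continuous'
    simp only [Function.uncurry_def]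
    fun_prop
  refine ⟨hc, ?_⟩
  obtain ⟨B, hB, hb⟩ := Ds_bdd N p u
  refine Integrable.mono' ((gauss_int α).const_mul (V0 * (Real.exp (V0 ^ 2 / 2) * B ^ 2)))
    hc.aestronglyMeasurable (Filter.Eventually.of_forall fun t => ?_)
  rw [Real.norm_of_nonneg (Hw_nonneg N p u hV α t)]
  unfold Hw
  have h1 : ∫ τ in α..(α + V0), Real.exp (-(t - τ) ^ 2 / 2) * ‖Ds N p u ((t + τ) / 2)‖ ^ 2 ≤
      ∫ _ in α..(α + V0), Real.exp (V0 ^ 2 / 2) * Real.exp (-(1 / 4) * (t - α) ^ 2) * B ^ 2 := by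
    refine intervalIntegral.integral_mono_on (by linarith) ?_ (by simp) fun τ hτ => ?_
    · exact Continuous.intervalIntegrable (by fun_prop) _ _
    · exact mul_le_mul (gauss_half V0 hτ.1 hτ.2)
        (pow_le_pow_left₀ (norm_nonneg _) (hb _) 2) (sq_nonneg _) (by positivity)
  refine h1.trans (le_of_eq ?_)
  rw [intervalIntegral.integral_const, smul_eq_mul]
  ring

/-- the error of one character -/
noncomputable def Ep (N : ℕ) (T u V0 : ℝ) (p : IX) : ℝ :=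
  2 * V0 * ((∫ t, Hw N p u V0 T t) + ∫ t, Hw N p u V0 (2 * T) t)

lemma Ep_nonneg (N : ℕ) (T u : ℝ) {V0 : ℝ} (hV : 0 ≤ V0) (p : IX) : 0 ≤ Ep N T u V0 p := by
  unfold Ep
  have h1 : 0 ≤ ∫ t, Hw N p u V0 T t := integral_nonneg fun t => Hw_nonneg N p u hV T t
  have h2 : 0 ≤ ∫ t, Hw N p u V0 (2 * T) t := integral_nonneg fun t => Hw_nonneg N p u hV _ t
  positivity

theorem Ep_avg (V0 : ℝ) (hV : 0 ≤ V0) : ∃ C : ℝ, 0 < C ∧ ∀ (X Y N : ℕ) (T u : ℝ), 1 ≤ X →
    X ≤ Y → (N : ℝ) ≤ (X : ℝ) ^ 2 → 0 ≤ u →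
    ∑ p ∈ primSet X Y, (1 / (p.1 : ℝ) ^ 2) * Ep N T u V0 p ≤
      C * ((Real.log ((Y : ℝ) / X) + 1) * (u + 1)) := by
  obtain ⟨C1, hC1, h1⟩ := Ds_ls
  obtain ⟨K, hK⟩ : ∃ K, K = V0 * (Real.exp (V0 ^ 2 / 2) * (2 * Real.sqrt Real.pi)) := ⟨_, rfl⟩
  have hK0 : 0 ≤ K := by rw [hK]; positivity
  refine ⟨4 * V0 * C1 * K + 1, by positivity, fun X Y N T u hX hXY hN hu => ?_⟩
  have hLW := LW_pos hX hXY
  obtain ⟨J, hJ⟩ : ∃ J, J = Real.log ((Y : ℝ) / X) + 1 := ⟨_, rfl⟩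
  rw [← hJ] at hLW ⊢
  have hH : ∀ α : ℝ, ∑ p ∈ primSet X Y, (1 / (p.1 : ℝ) ^ 2) * ∫ t, Hw N p u V0 α t ≤
      C1 * J * (u + 1) * K := by
    intro α
    have e1 : ∑ p ∈ primSet X Y, (1 / (p.1 : ℝ) ^ 2) * ∫ t, Hw N p u V0 α t =
        ∫ t, ∑ p ∈ primSet X Y, (1 / (p.1 : ℝ) ^ 2) * Hw N p u V0 α t := by
      rw [integral_finsetSum _ fun p _ => (Hw_facts N p u hV α).2.const_mul _]
      exact Finset.sum_congr rfl fun p _ => by rw [integral_const_mul]
    rw [e1]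
    have h2 : ∀ t, ∑ p ∈ primSet X Y, (1 / (p.1 : ℝ) ^ 2) * Hw N p u V0 α t ≤
        C1 * J * (u + 1) * (V0 * (Real.exp (V0 ^ 2 / 2) *
          Real.exp (-(1 / 4) * (t - α) ^ 2))) := by
      intro t
      have hci : ∀ p : IX, IntervalIntegrable (fun τ : ℝ => (1 / (p.1 : ℝ) ^ 2) *
          (Real.exp (-(t - τ) ^ 2 / 2) * ‖Ds N p u ((t + τ) / 2)‖ ^ 2)) volume α (α + V0) := by
        intro p
        have := Ds_cont N p u
        exact Continuous.intervalIntegrable (by fun_prop) _ _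
      have e2 : ∑ p ∈ primSet X Y, (1 / (p.1 : ℝ) ^ 2) * Hw N p u V0 α t =
          ∫ τ in α..(α + V0), ∑ p ∈ primSet X Y, (1 / (p.1 : ℝ) ^ 2) *
            (Real.exp (-(t - τ) ^ 2 / 2) * ‖Ds N p u ((t + τ) / 2)‖ ^ 2) := by
        rw [intervalIntegral.integral_finsetSum fun p _ => hci p]
        refine Finset.sum_congr rfl fun p _ => ?_
        rw [intervalIntegral.integral_const_mul]
        rfl
      rw [e2]
      have h3 : ∫ τ in α..(α + V0), ∑ p ∈ primSet X Y, (1 / (p.1 : ℝ) ^ 2) *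
            (Real.exp (-(t - τ) ^ 2 / 2) * ‖Ds N p u ((t + τ) / 2)‖ ^ 2) ≤
          ∫ _ in α..(α + V0), C1 * J * (u + 1) *
            (Real.exp (V0 ^ 2 / 2) * Real.exp (-(1 / 4) * (t - α) ^ 2)) := by
        refine intervalIntegral.integral_mono_on (by linarith) ?_ (by simp) fun τ hτ => ?_
        · refine Continuous.intervalIntegrable (continuous_finsetSum _ fun p _ => ?_) _ _
          have := Ds_cont N p u
          fun_prop
        · have h4 := h1 X Y N u ((t + τ) / 2) hX hXY hN hu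
          rw [← hJ] at h4
          calc _ = Real.exp (-(t - τ) ^ 2 / 2) * ∑ p ∈ primSet X Y, (1 / (p.1 : ℝ) ^ 2) *
                ‖Ds N p u ((t + τ) / 2)‖ ^ 2 := by
                rw [Finset.mul_sum]
                exact Finset.sum_congr rfl fun p _ => by ring
            _ ≤ Real.exp (-(t - τ) ^ 2 / 2) * (C1 * J * (u + 1)) :=
                mul_le_mul_of_nonneg_left h4 (Real.exp_pos _).le
            _ ≤ (Real.exp (V0 ^ 2 / 2) * Real.exp (-(1 / 4) * (t - α) ^ 2)) *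
                (C1 * J * (u + 1)) :=
                mul_le_mul_of_nonneg_right (gauss_half V0 hτ.1 hτ.2) (by positivity)
            _ = _ := by ring
      refine h3.trans (le_of_eq ?_)
      rw [intervalIntegral.integral_const, smul_eq_mul]
      ring
    have h5 := integral_mono
      (integrable_finsetSum _ fun p _ => (Hw_facts N p u hV α).2.const_mul _)
      (((gauss_int α).const_mul (Real.exp (V0 ^ 2 / 2))).const_mul V0 |>.const_mul
        (C1 * J * (u + 1))) h2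
    refine h5.trans (le_of_eq ?_)
    rw [integral_const_mul, integral_const_mul, integral_const_mul, gauss_val, hK]
  have e3 : ∑ p ∈ primSet X Y, (1 / (p.1 : ℝ) ^ 2) * Ep N T u V0 p =
      2 * V0 * ((∑ p ∈ primSet X Y, (1 / (p.1 : ℝ) ^ 2) * ∫ t, Hw N p u V0 T t) +
        ∑ p ∈ primSet X Y, (1 / (p.1 : ℝ) ^ 2) * ∫ t, Hw N p u V0 (2 * T) t) := by
    rw [← Finset.sum_add_distrib, Finset.mul_sum]
    refine Finset.sum_congr rfl fun p _ => ?_
    unfold Ep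
    ring
  rw [e3]
  calc _ ≤ 2 * V0 * (C1 * J * (u + 1) * K + C1 * J * (u + 1) * K) :=
        mul_le_mul_of_nonneg_left (add_le_add (hH _) (hH _)) (by positivity)
    _ = (4 * V0 * C1 * K) * (J * (u + 1)) := by ring
    _ ≤ _ := mul_le_mul_of_nonneg_right (by linarith) (by positivity)

/-- **The shifted mean square of one character.** -/
theorem win_main (N : ℕ) (p : IX) (T u : ℝ) (hT : 0 ≤ T) {a V0 s : ℝ} (ha : 0 ≤ a) (haV : a ≤ V0)
    (hs : 0 < s) :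
    ∫ t, ‖Sf N p (ph a) T u t‖ ^ 2 ≤ (1 + s) * (∫ t, ‖Sf N p (fun _ => 1) T u t‖ ^ 2) +
      (1 + 1 / s) * Ep N T u V0 p := by
  have hV : 0 ≤ V0 := ha.trans haV
  obtain ⟨i1, i2⟩ := Sf_comb N p (ph a) T u hT
  obtain ⟨j1, j2⟩ := Sf_comb N p (fun _ => 1) T u hT
  have hkn : ‖(kap : ℂ)‖ ≤ 1 := by
    rw [Complex.norm_real, Real.norm_of_nonneg kap_pos.le]; exact kap_le
  have hS1 : ∀ t, ‖Sf N p (fun _ => 1) T u t‖ = ‖(kap : ℂ) * Jw N p u 0 T (2 * T) t‖ := by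
    intro t
    rw [← Sf_ph0, Sf_eq, norm_mul]
    have := phase_norm 0 u
    rw [this, one_mul]
  have hSa : ∀ t, ‖Sf N p (ph a) T u t‖ =
      ‖(kap : ℂ) * Jw N p u 0 (T + a) (2 * T + a) (t + a)‖ := by
    intro t
    rw [Sf_eq, norm_mul, phase_norm, one_mul, Jw_shift]
  have e1 : ∫ t, ‖Sf N p (ph a) T u t‖ ^ 2 =
      ∫ t, ‖(kap : ℂ) * Jw N p u 0 (T + a) (2 * T + a) t‖ ^ 2 := by
    simp_rw [hSa]
    exact integral_add_right_eq_self
      (fun t => ‖(kap : ℂ) * Jw N p u 0 (T + a) (2 * T + a) t‖ ^ 2) a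
  have hint : Integrable (fun t => ‖(kap : ℂ) * Jw N p u 0 (T + a) (2 * T + a) t‖ ^ 2) := by
    have h1 : Integrable (fun t => ‖Sf N p (ph a) T u (t - a)‖ ^ 2) := i2.comp_sub_right a
    refine h1.congr (Filter.Eventually.of_forall fun t => ?_)
    simp only
    rw [hSa, sub_add_cancel]
  have hpt : ∀ t, ‖(kap : ℂ) * Jw N p u 0 (T + a) (2 * T + a) t‖ ^ 2 ≤
      (1 + s) * ‖Sf N p (fun _ => 1) T u t‖ ^ 2 + (1 + 1 / s) *
        (2 * V0 * (Hw N p u V0 T t + Hw N p u V0 (2 * T) t)) := by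
    intro t
    have h1 := FamLS.sq_add_le ((kap : ℂ) * Jw N p u 0 T (2 * T) t)
      ((kap : ℂ) * (Jw N p u 0 (T + a) (2 * T + a) t - Jw N p u 0 T (2 * T) t)) s hs
    have e2 : (kap : ℂ) * Jw N p u 0 T (2 * T) t +
        (kap : ℂ) * (Jw N p u 0 (T + a) (2 * T + a) t - Jw N p u 0 T (2 * T) t) =
        (kap : ℂ) * Jw N p u 0 (T + a) (2 * T + a) t := by ring
    rw [e2, ← hS1 t] at h1
    refine h1.trans (add_le_add le_rfl (mul_le_mul_of_nonneg_left ?_ (by positivity)))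
    have h2 := Jw_split N p u T t ha haV
    have h3 : ‖(kap : ℂ) * (Jw N p u 0 (T + a) (2 * T + a) t - Jw N p u 0 T (2 * T) t)‖ ≤
        Kw N p u V0 T t + Kw N p u V0 (2 * T) t := by
      rw [norm_mul]
      exact (mul_le_of_le_one_left (norm_nonneg _) hkn).trans h2
    have h4 := pow_le_pow_left₀ (norm_nonneg _) h3 2
    have h5 := Kw_sq N p u hV T t
    have h6 := Kw_sq N p u hV (2 * T) t
    nlinarith [sq_nonneg (Kw N p u V0 T t - Kw N p u V0 (2 * T) t)]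
  rw [e1]
  have hH1 : Integrable (fun t => Hw N p u V0 T t) := (Hw_facts N p u hV T).2
  have hH2 : Integrable (fun t => Hw N p u V0 (2 * T) t) := (Hw_facts N p u hV (2 * T)).2
  have hH3 : Integrable (fun t => Hw N p u V0 T t + Hw N p u V0 (2 * T) t) := hH1.add hH2
  have hH4 : Integrable (fun t => (1 + 1 / s) *
      (2 * V0 * (Hw N p u V0 T t + Hw N p u V0 (2 * T) t))) :=
    (hH3.const_mul (2 * V0)).const_mul _
  have hH5 : Integrable (fun t => (1 + s) * ‖Sf N p (fun _ => 1) T u t‖ ^ 2) := j2.const_mul _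
  refine (integral_mono hint (hH5.add hH4) hpt).trans (le_of_eq ?_)
  have e4 : ∫ t, ((1 + s) * ‖Sf N p (fun _ => 1) T u t‖ ^ 2 + (1 + 1 / s) *
        (2 * V0 * (Hw N p u V0 T t + Hw N p u V0 (2 * T) t))) =
      (1 + s) * (∫ t, ‖Sf N p (fun _ => 1) T u t‖ ^ 2) +
      (1 + 1 / s) * Ep N T u V0 p := by
    rw [integral_add hH5 hH4, integral_const_mul, integral_const_mul, integral_const_mul,
      integral_add hH1 hH2]
    rfl
  exact e4

end Pool.Agent.T4h70.LB
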